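import Pool.Agent.H92.I.NE

set_option autoImplicit false

/-! From many primes in the rows to many primes in a smooth window. -/

open Finset Filter

namespace Pool.Agent.H92.R

open Pool.Agent.H378R2
open Pool.Agent.H262R3.Lk (pc)

theorem geo (n : ℕ) : ∑ l ∈ range (n + 1), Real.exp ((l : ℝ) / 2) ≤ 3 * Real.exp ((n : ℝ) / 2) := by
  induction n with
  | zero => norm_num
  | succ n ih =>
    rw [sum_range_succ]
    have h1 : Real.exp (((n + 1 : ℕ) : ℝ) / 2) = Real.exp ((n : ℝ) / 2) * Real.exp (1 / 2) := by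
      rw [← Real.exp_add]
      congr 1
      push_cast
      ring
    have h2 : (3 : ℝ) / 2 ≤ Real.exp (1 / 2) := by
      have := Real.add_one_le_exp (1 / 2 : ℝ)
      linarith
    have h3 : 0 < Real.exp ((n : ℝ) / 2) := Real.exp_pos _
    rw [h1]
    nlinarith

theorem rows_pc (c : ℝ) (hc : 0 < c) : ∃ c5 : ℝ, 0 < c5 ∧ ∀ N Q b : ℕ, 3 ≤ N → 0 < Q → b ≤ N * Q →
    c * (N * ((Q : ℝ) / Q.totient / Real.log N)) ≤
      (((Icc 1 N).filter (fun m => N < m * m ∧ (m * Q + b).Prime)).card : ℝ) →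
    ∃ Y : ℝ, Real.sqrt N ≤ 3 * Y ∧ Y ≤ 2 * N * Q ∧ c5 / (Q.totient : ℝ) ≤ pc Y Q b / Y := by
  classical
  refine ⟨c / 96, by positivity, ?_⟩
  intro N Q b hN hQ hb hcnt
  by_contra hcon
  push Not at hcon
  have hNr : (3 : ℝ) ≤ N := by exact_mod_cast hN
  have hN0 : (0 : ℝ) < N := by linarith
  have hQr : (1 : ℝ) ≤ Q := by exact_mod_cast hQ
  have hQ0 : (0 : ℝ) < Q := by linarith
  have hφ0 : (0 : ℝ) < Q.totient := by exact_mod_cast Nat.totient_pos.2 hQ
  have hlN : 0 < Real.log N := Real.log_pos (by linarith)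
  obtain ⟨S, hS⟩ : ∃ S : Finset ℕ, S = (Icc 1 N).filter (fun m => N < m * m ∧ (m * Q + b).Prime) := ⟨_, rfl⟩
  rw [← hS] at hcnt
  obtain ⟨lf, hlf⟩ : ∃ lf : ℕ → ℕ, lf = fun m => ⌊2 * Real.log ((m * Q + b : ℕ) : ℝ) - 1 / 2⌋₊ := ⟨_, rfl⟩
  obtain ⟨n1, hn1⟩ : ∃ n1 : ℕ, n1 = ⌊2 * Real.log (2 * N * Q)⌋₊ := ⟨_, rfl⟩
  obtain ⟨I, hI⟩ : ∃ I : Finset ℕ, I = (range (n1 + 1)).filter (fun l : ℕ => Real.sqrt N ≤ 3 * Real.exp ((l : ℝ) / 2)) := ⟨_, rfl⟩
  have h2NQ : 1 ≤ 2 * (N : ℝ) * Q := by nlinarith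
  have hl2NQ : 0 ≤ Real.log (2 * N * Q) := Real.log_nonneg h2NQ
  have hn1le : (n1 : ℝ) ≤ 2 * Real.log (2 * N * Q) := by rw [hn1]; exact Nat.floor_le (by positivity)
  -- facts on a row
  have hrow : ∀ m ∈ S, 1 ≤ m ∧ m ≤ N ∧ (m * Q + b).Prime ∧ Real.log N / 2 ≤ Real.log ((m * Q + b : ℕ) : ℝ) ∧
      ((m * Q + b : ℕ) : ℝ) ≤ 2 * N * Q ∧ Real.sqrt N ≤ ((m * Q + b : ℕ) : ℝ) ∧
      (lf m : ℝ) ≤ 2 * Real.log ((m * Q + b : ℕ) : ℝ) - 1 / 2 ∧
      2 * Real.log ((m * Q + b : ℕ) : ℝ) - 1 / 2 < (lf m : ℝ) + 1 := by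
    intro m hm
    rw [hS, mem_filter, mem_Icc] at hm
    obtain ⟨⟨h1, h2⟩, h3, h4⟩ := hm
    have h5 : Real.sqrt N ≤ ((m * Q + b : ℕ) : ℝ) := by
      have h6 : m ≤ m * Q + b := (Nat.le_mul_of_pos_right m hQ).trans (Nat.le_add_right _ _)
      have h7 : Real.sqrt N ≤ m := by
        rw [Real.sqrt_le_left (by positivity)]
        have : (N : ℝ) ≤ (m * m : ℕ) := by exact_mod_cast h3.le
        rw [sq]
        exact_mod_cast this
      exact h7.trans (by exact_mod_cast h6)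
    have h6 : Real.log N / 2 ≤ Real.log ((m * Q + b : ℕ) : ℝ) := by
      rw [← Real.log_sqrt hN0.le]
      exact Real.log_le_log (Real.sqrt_pos.2 hN0) h5
    have h7 : ((m * Q + b : ℕ) : ℝ) ≤ 2 * N * Q := by
      have : m * Q + b ≤ 2 * N * Q := by
        have := Nat.mul_le_mul_right Q h2
        calc m * Q + b ≤ N * Q + N * Q := Nat.add_le_add this hb
          _ = _ := by ring
      exact_mod_cast this
    have h8 : (1 : ℝ) / 2 ≤ 2 * Real.log ((m * Q + b : ℕ) : ℝ) := by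
      have h9 : Real.log 2 ≤ Real.log ((m * Q + b : ℕ) : ℝ) := by
        apply Real.log_le_log (by norm_num)
        exact_mod_cast h4.two_le
      have := Real.log_two_gt_d9
      linarith
    refine ⟨h1, h2, h4, h6, h7, h5, ?_, ?_⟩
    · rw [hlf]
      exact Nat.floor_le (by linarith)
    · rw [hlf]
      exact Nat.lt_floor_add_one _
  have hwin : ∀ m ∈ S, Real.exp ((lf m : ℝ) / 2) ≤ 2 * N * Q ∧ Real.sqrt N ≤ 3 * Real.exp ((lf m : ℝ) / 2) ∧ lf m ∈ I ∧
      1 / 4 ≤ Phi (((m * Q + b : ℕ) : ℝ) / Real.exp ((lf m : ℝ) / 2)) ∧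
      ((m * Q + b : ℕ) : ℝ) ≤ 3 * Real.exp ((lf m : ℝ) / 2) := by
    intro m hm
    obtain ⟨h1, h2, h3, h4, h5, h6, h7, h8⟩ := hrow m hm
    obtain ⟨p, hp⟩ : ∃ p : ℝ, p = ((m * Q + b : ℕ) : ℝ) := ⟨_, rfl⟩
    rw [← hp] at h4 h5 h6 h7 h8 ⊢
    have hp0 : 0 < p := by rw [hp]; exact_mod_cast h3.pos
    have g1 : p ≤ 3 * Real.exp ((lf m : ℝ) / 2) := by
      have k1 : Real.log p ≤ 1 + (lf m : ℝ) / 2 := by linarith
      have k2 := Real.exp_le_exp.2 k1
      rw [Real.exp_log hp0, Real.exp_add] at k2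
      have k3 : Real.exp 1 ≤ 3 := by
        have := Real.exp_one_lt_d9
        linarith
      exact k2.trans (mul_le_mul_of_nonneg_right k3 (Real.exp_pos _).le)
    have g2 : Real.exp ((lf m : ℝ) / 2) ≤ 2 * N * Q := by
      have k1 : (lf m : ℝ) / 2 ≤ Real.log p := by linarith
      have k2 := Real.exp_le_exp.2 k1
      rw [Real.exp_log hp0] at k2
      exact k2.trans h5
    have g3 : Real.sqrt N ≤ 3 * Real.exp ((lf m : ℝ) / 2) := h6.trans g1
    refine ⟨g2, g3, ?_, ?_, g1⟩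
    · rw [hI, mem_filter, mem_range]
      refine ⟨?_, g3⟩
      rw [Nat.lt_succ_iff, hn1]
      apply Nat.le_floor
      have k1 := Real.log_le_log hp0 h5
      linarith
    · unfold Phi
      apply le_max_of_le_right
      rw [Real.log_div hp0.ne' (Real.exp_pos _).ne', Real.log_exp]
      have : |Real.log p - (lf m : ℝ) / 2 - 1 / 2| ≤ 1 / 4 := by
        rw [abs_le]
        constructor <;> linarith
      linarith
  -- double counting
  have hlow : (S.card : ℝ) * (Real.log N / 8) ≤ ∑ l ∈ I, pc (Real.exp ((l : ℝ) / 2)) Q b := by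
    have h1 : (S.card : ℝ) * (Real.log N / 8) ≤ ∑ m ∈ S, Phi (((m * Q + b : ℕ) : ℝ) / Real.exp ((lf m : ℝ) / 2)) *
        ArithmeticFunction.vonMangoldt (m * Q + b) := by
      rw [← nsmul_eq_mul, ← sum_const]
      apply sum_le_sum
      intro m hm
      obtain ⟨h1, h2, h3, h4, h5, h6, h7, h8⟩ := hrow m hm
      rw [ArithmeticFunction.vonMangoldt_apply_prime h3]
      have h9 := (hwin m hm).2.2.2.1
      calc Real.log N / 8 = 1 / 4 * (Real.log N / 2) := by ring
        _ ≤ _ := mul_le_mul h9 h4 (by positivity) (by linarith)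
    refine h1.trans ?_
    rw [← sum_fiberwise_of_maps_to (fun m hm => (hwin m hm).2.2.1) (t := I) (g := lf)]
    apply sum_le_sum
    intro l _
    have h2 : ∀ m ∈ S.filter (fun m => lf m = l), Phi (((m * Q + b : ℕ) : ℝ) / Real.exp ((lf m : ℝ) / 2)) *
        ArithmeticFunction.vonMangoldt (m * Q + b) = (fun n : ℕ => Phi ((n : ℝ) / Real.exp ((l : ℝ) / 2)) *
          ArithmeticFunction.vonMangoldt n) ((fun m => m * Q + b) m) := by
      intro m hm
      rw [(mem_filter.1 hm).2]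
    rw [sum_congr rfl h2]
    have hinj : Set.InjOn (fun m : ℕ => m * Q + b) (S.filter (fun m => lf m = l) : Finset ℕ) := by
      intro m _ m' _ h
      simp only at h
      exact Nat.eq_of_mul_eq_mul_right hQ (Nat.add_right_cancel h)
    rw [← sum_image (f := fun n : ℕ => Phi ((n : ℝ) / Real.exp ((l : ℝ) / 2)) * ArithmeticFunction.vonMangoldt n) hinj]
    unfold pc
    apply sum_le_sum_of_subset_of_nonneg
    · intro n hn
      rw [mem_image] at hn
      obtain ⟨m, hm, rfl⟩ := hn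
      rw [mem_filter] at hm
      have h3 := (hwin m hm.1).2.2.2.2
      rw [hm.2] at h3
      rw [mem_filter, mem_Icc]
      refine ⟨⟨(hrow m hm.1).2.2.1.one_lt.le, Nat.le_floor h3⟩, ?_⟩
      have h4 : m * Q ≡ 0 [MOD Q] := Nat.modEq_zero_iff_dvd.2 (Nat.dvd_mul_left _ _)
      have h5 := h4.add_right b
      rwa [zero_add] at h5
    · intro n _ _
      exact mul_nonneg (le_max_left _ _) ArithmeticFunction.vonMangoldt_nonneg
  have hup : ∑ l ∈ I, pc (Real.exp ((l : ℝ) / 2)) Q b ≤ c / 96 / Q.totient * (3 * (2 * N * Q)) := by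
    calc ∑ l ∈ I, pc (Real.exp ((l : ℝ) / 2)) Q b ≤ ∑ l ∈ I, c / 96 / Q.totient * Real.exp ((l : ℝ) / 2) := by
          apply sum_le_sum
          intro l hl
          rw [hI, mem_filter, mem_range] at hl
          have h1 : Real.exp ((l : ℝ) / 2) ≤ 2 * N * Q := by
            have h2 : (l : ℝ) / 2 ≤ Real.log (2 * N * Q) := by
              have : (l : ℝ) ≤ n1 := by exact_mod_cast (Nat.lt_succ_iff.1 hl.1)
              linarith
            have h3 := Real.exp_le_exp.2 h2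
            rwa [Real.exp_log (by linarith)] at h3
          have h4 := hcon _ hl.2 h1
          rw [div_lt_iff₀ (Real.exp_pos _)] at h4
          exact h4.le
      _ ≤ ∑ l ∈ range (n1 + 1), c / 96 / Q.totient * Real.exp ((l : ℝ) / 2) := by
          apply sum_le_sum_of_subset_of_nonneg
          · rw [hI]
            exact filter_subset _ _
          · intro l _ _
            positivity
      _ = c / 96 / Q.totient * ∑ l ∈ range (n1 + 1), Real.exp ((l : ℝ) / 2) := by rw [mul_sum]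
      _ ≤ c / 96 / Q.totient * (3 * Real.exp ((n1 : ℝ) / 2)) :=
          mul_le_mul_of_nonneg_left (geo n1) (by positivity)
      _ ≤ _ := by
          apply mul_le_mul_of_nonneg_left _ (by positivity)
          have h2 : (n1 : ℝ) / 2 ≤ Real.log (2 * N * Q) := by linarith
          have h3 := Real.exp_le_exp.2 h2
          rw [Real.exp_log (by linarith)] at h3
          linarith
  have h1 := hlow.trans hup
  have h2 : c / 8 * (N * ((Q : ℝ) / Q.totient)) ≤ (S.card : ℝ) * (Real.log N / 8) := by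
    calc c / 8 * (N * ((Q : ℝ) / Q.totient)) = c * (N * ((Q : ℝ) / Q.totient / Real.log N)) * (Real.log N / 8) := by
          field_simp
      _ ≤ _ := mul_le_mul_of_nonneg_right hcnt (by positivity)
  have h3 : c / 96 / Q.totient * (3 * (2 * N * Q)) = c / 16 * (N * ((Q : ℝ) / Q.totient)) := by
    field_simp
    ring
  have h4 : 0 < c * (N * ((Q : ℝ) / Q.totient)) := by positivity
  linarith

end Pool.Agent.H92.R
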