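import Pool.Graph.R_seed8.TH101.RG.Par
import Pool.Graph.R_seed8.H312R2.RG.VW

set_option autoImplicit false
set_option maxHeartbeats 4000000

/-! # The repelling weights on the colourings

The part of the construction of the library (`Pool.Agent.TH101.RG.weightsG_at`, after helper312 and helper777) which does
not depend on the modulus. -/

open Finset Filter

namespace Pool.Agent.H92.R

open Pool.Agent.H312R2.RG
open Pool.Agent.TH101.RG (paramsB)
open Pool.Agent.H256R2.SC (Col emb colr Lv emb_mem emb_surj colr_eq qq Hyp Zs Zs_ge_one SS tail_bound second_lower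
  wt_nonneg EE)

/-- the weights on the colourings -/
structure WD (X : ℝ) (A B : ℕ) (U PP : Finset ℕ) (V T : Col PP.card ↥U → ℝ) (Z : ℝ) : Prop where
  hL : 100 ≤ Real.log X
  pr : ∀ p ∈ PP, p.Prime ∧ (Real.log X) ^ A < p ∧ (p : ℝ) ≤ X ^ (1 / 1000 : ℝ)
  V0 : ∀ x, 0 ≤ V x
  T0 : ∀ x, 0 ≤ T x
  kill : ∀ x, T x < 1 → ∀ k, ∃ i, x i = some k
  Z1 : 1 ≤ Z
  LvV : Lv (pP PP) (X ^ (1 / 100 : ℝ)) (X ^ (1 / 100 : ℝ)) V
  LvT : Lv (pP PP) (X ^ (1 / 100 : ℝ)) (X ^ (1 / 100 : ℝ)) (fun x => V x * T x)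
  lowQ : 9 / 16 * Z ≤ EE (gQ PP) V
  upT : EE (gP PP) (fun x => V x * T x) ≤ Z / (Real.log X) ^ B
  fwb : ∀ s : Finset (Fin PP.card), s.Nonempty → EE (gQ PP) (fun x => |V x| * fw (gQ PP) s x) ≤ Z / (Real.log X) ^ B
  ug : ∀ i, (U.card : ℝ) * gP PP i ≤ 1 / 100
  sg : ∑ i, gP PP i ≤ Real.log (Real.log X)
  usq : 4 * (U.card : ℝ) * ∑ i, (gP PP i) ^ 2 ≤ 1 / 4

theorem core (B : ℕ) : ∃ (A : ℕ) (c₃ : ℝ), 4 ≤ A ∧ 0 < c₃ ∧ c₃ ≤ 1 ∧ ∀ᶠ X : ℝ in atTop,
    ∀ (Bx U : Finset ℕ), 2 * (Bx.card : ℝ) ≤ (Real.log X) ^ 4 → U.Nonempty → (U.card : ℝ) ≤ c₃ * Real.log X →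
    ∃ (PP : Finset ℕ) (V T : Col PP.card ↥U → ℝ) (Z : ℝ), WD X A B U PP V T Z ∧ ∀ p ∈ PP, p ∉ Bx := by
  obtain ⟨A, hA⟩ : ∃ A : ℕ, A = B + 30 := ⟨_, rfl⟩
  obtain ⟨c₃, hc₃, hpar⟩ := paramsB A (B + 1) (by omega)
  refine ⟨A, min c₃ 1, by omega, lt_min hc₃ one_pos, min_le_right _ _, ?_⟩
  have h9 : ∀ᶠ X : ℝ in atTop, (9 : ℝ) ≤ X ^ (3 / 500 : ℝ) :=
    (tendsto_rpow_atTop (by norm_num)).eventually_ge_atTop 9
  have h9' : ∀ᶠ X : ℝ in atTop, 9 * Real.log X ≤ X ^ (1 / 200 : ℝ) := by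
    have h1 := (isLittleO_log_rpow_atTop (r := (1 / 200 : ℝ)) (by norm_num)).bound (show (0 : ℝ) < 1 / 9 by norm_num)
    filter_upwards [h1, eventually_ge_atTop 1] with X h2 h3
    rw [Real.norm_of_nonneg (Real.log_nonneg h3), Real.norm_of_nonneg (by positivity)] at h2
    linarith
  filter_upwards [hpar, eventually_ge_atTop 4, Real.tendsto_log_atTop.eventually_ge_atTop 100, h9, h9']
    with X hparX hX hL h9X h9Y
  intro Bx U hBx hUne hUc
  have hX0 : 0 < X := by linarith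
  set L := Real.log X with hLdef
  have hL0 : 0 < L := by linarith
  have hL1 : 1 ≤ L := by linarith
  have hu1 : 1 ≤ U.card := Finset.card_pos.2 hUne
  have hmin1 : min c₃ 1 * L ≤ c₃ * L := mul_le_mul_of_nonneg_right (min_le_left _ _) hL0.le
  have hmin2 : min c₃ 1 * L ≤ 1 * L := mul_le_mul_of_nonneg_right (min_le_right _ _) hL0.le
  obtain ⟨PP, h, z, Kc, δ, J, g1, H, hJ, hz, hzJ, hnJ, hsg, hsq, hδ, hδD, hη⟩ :=
    hparX Bx U.card hBx hu1 (hUc.trans hmin1)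
  have huL : (U.card : ℝ) ≤ L := by linarith
  have hV : VHyp X A 0 U PP h z Kc := by
    refine ⟨hL, hX, by omega, fun p hp => ?_, H, hUne, huL, hsg, hsq⟩
    obtain ⟨g1, g2, g3, g4⟩ := g1 p hp
    exact ⟨g1, g2, g1.ne_zero⟩
  -- powers of X
  set q1 := X ^ (1 / 1000 : ℝ) with hq1
  have hq1one : 1 ≤ q1 := Real.one_le_rpow (by linarith) (by norm_num)
  have hq10 : 0 < q1 := by linarith
  have hpow : ∀ k : ℕ, X ^ ((k : ℝ) / 1000) = q1 ^ k := by
    intro k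
    rw [hq1, ← Real.rpow_natCast, ← Real.rpow_mul hX0.le]
    congr 1
    ring
  have e10 : X ^ (1 / 100 : ℝ) = q1 ^ 10 := by
    rw [← hpow 10]; norm_num
  have e5 : X ^ (1 / 200 : ℝ) = q1 ^ 5 := by
    rw [← hpow 5]; norm_num
  have hu0 : (0 : ℝ) ≤ U.card := Nat.cast_nonneg _
  have hg1 : ∀ i, gP PP i ≤ 1 := fun i => by linarith [hV.g1 i]
  have hs : 2 * (Fintype.card ↥U : ℝ) * ∑ i, 1 / (pP PP i) ^ 2 ≤ 1 := by
    rw [cardU]
    have h1 : ∑ i, 1 / (pP PP i) ^ 2 = ∑ i, (gP PP i) ^ 2 := by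
      apply Finset.sum_congr rfl
      intro i _
      rw [gP_eq, div_pow, one_pow]
    rw [h1]
    have h2 : 0 ≤ ∑ i, (gP PP i) ^ 2 := Finset.sum_nonneg fun i _ => sq_nonneg _
    have h3 : 0 ≤ (U.card : ℝ) * ∑ i, (gP PP i) ^ 2 := mul_nonneg hu0 h2
    linarith
  have hpz : ∀ i, pP PP i ≤ z := fun i => (g1 _ (emb_mem PP i)).2.2.1
  have hz1 := H.z1
  have hZ := hV.Z1
  set Zv := Zs ↥U (gP PP) h with hZv
  have hZ0 : 0 ≤ Zv := by linarith
  -- levels
  have hLv1 : Lv (pP PP) (q1 * q1) (9 * q1 ^ 4) (fun x : Col PP.card ↥U => V2 (pP PP) (gP PP) h q1 x) :=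
    V2_Lv H q1 hq10 hg1 hs
  have hLv2 := V2SS_Lv (κ := ↥U) H q1 hq10 hg1 hs hpz J
  rw [cardU] at hLv2
  have hηpos : (0 : ℝ) < L ^ (B + 1) := by positivity
  have hLB1 : 1 / L ^ (B + 1) ≤ 1 / L ^ B := by
    apply one_div_le_one_div_of_le (by positivity)
    exact pow_le_pow_right₀ hL1 (by omega)
  have hLB100 : 1 / L ^ (B + 1) ≤ 1 / 100 := by
    apply one_div_le_one_div_of_le (by norm_num)
    calc (100 : ℝ) ≤ L := hL
      _ = L ^ 1 := (pow_one _).symm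
      _ ≤ L ^ (B + 1) := pow_le_pow_right₀ hL1 (by omega)
  have hδD' : ∀ D : Col PP.card ↥U, qq (pP PP) D ≤ q1 → 2 * ∑ i with D i ≠ none, gP PP i ≤ δ :=
    fun D hD => hδD ↥U D hD
  have htg : ∀ i, 24 * gP PP i ≤ 1 := fun i => by linarith [hV.g1 i]
  have hM2 := EE_SS_sum (κ := ↥U) H q1 δ J hJ hq10 htg hV.hug4 hδD' (1 / L ^ (B + 1)) (by rw [cardU]; exact hη)
  -- the tail
  have hexp : Real.exp (2 * (U.card : ℝ) * Kc / Real.log z - Real.log (q1 / z) / Real.log z) ≤ 1 / 100 := by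
    refine le_trans ?_ (hη.trans hLB100)
    set Ex := Real.exp (2 * (U.card : ℝ) * Kc / Real.log z - Real.log (q1 / z) / Real.log z) with hEx
    have h1 : 0 < Ex := Real.exp_pos _
    have h2 : 0 ≤ (1 / 8 : ℝ) ^ J * Real.exp (50 * ∑ i, gP PP i) := by positivity
    have h3 : 0 ≤ δ ^ 2 := sq_nonneg _
    have h4 : Ex ≤ δ ^ 2 + Ex + (1 / 8) ^ J * Real.exp (50 * ∑ i, gP PP i) := by linarith
    calc Ex ≤ 1 * (δ ^ 2 + Ex + (1 / 8) ^ J * Real.exp (50 * ∑ i, gP PP i)) := by rw [one_mul]; exact h4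
      _ ≤ ((U.card : ℝ) + 1) * (δ ^ 2 + Ex + (1 / 8) ^ J * Real.exp (50 * ∑ i, gP PP i)) := by
          apply mul_le_mul_of_nonneg_right (by linarith) (by linarith)
  have htail := tail_bound (κ := ↥U) H (q1 / z) (by positivity)
  rw [cardU] at htail
  have huδ : (Fintype.card ↥U : ℝ) * δ ≤ 1 / 4 := by
    rw [cardU]
    have h1 : (U.card : ℝ) * δ ≤ (U.card : ℝ) * (2 / L ^ (A - 1)) := mul_le_mul_of_nonneg_left hδ hu0
    have h2 : (U.card : ℝ) * (2 / L ^ (A - 1)) ≤ L * (2 / L ^ (A - 1)) :=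
      mul_le_mul_of_nonneg_right huL (by positivity)
    have h3 : L ^ 2 ≤ L ^ (A - 1) := pow_le_pow_right₀ hL1 (by omega)
    have h4 : L * (2 / L ^ (A - 1)) ≤ 1 / 4 := by
      rw [mul_div_assoc', div_le_div_iff₀ (by positivity) (by norm_num)]
      nlinarith
    linarith
  have hMge := second_lower H q1 δ _ hV.hug hδD' huδ hq10 htail (by
    have := mul_le_mul_of_nonneg_right hexp hZ0
    linarith)
  have hratio := ratio_lower (κ := ↥U) (gP PP) (gQ PP) (fun i => (hV.g0 i).le) hV.le_gQ hV.gQ_le hV.hug4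
    (fun x => V2 (pP PP) (gP PP) h q1 x) (fun x => V2_nonneg _ _ _ _ _)
  rw [cardU] at hratio
  have hMnn : 0 ≤ EE (gP PP) (fun x : Col PP.card ↥U => V2 (pP PP) (gP PP) h q1 x) := by
    have : (0 : ℝ) ≤ 3 / 4 * Zv := by positivity
    exact this.trans hMge
  have hM' : 3 / 4 * EE (gP PP) (fun x : Col PP.card ↥U => V2 (pP PP) (gP PP) h q1 x) ≤
      EE (gQ PP) (fun x : Col PP.card ↥U => V2 (pP PP) (gP PP) h q1 x) := by
    refine le_trans ?_ hratio
    apply mul_le_mul_of_nonneg_right _ hMnn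
    linarith
  obtain ⟨k₀, hk₀⟩ := hUne
  refine ⟨PP, fun x => V2 (pP PP) (gP PP) h q1 x, fun x => ∑ k, SS J k x, Zv,
    ⟨hL, fun p hp => ⟨(g1 p hp).1, (g1 p hp).2.1, (g1 p hp).2.2.1.trans hz⟩, fun x => V2_nonneg _ _ _ _ _,
      fun x => Finset.sum_nonneg fun k _ => SS_nonneg' J hJ k _, ?_, hZ, ?_, ?_, ?_, ?_, ?_, hV.ug, hsg, hsq⟩,
    fun p hp => (g1 p hp).2.2.2⟩
  · intro x hx k
    have h1 : SS J k x < 1 := by
      refine lt_of_le_of_lt ?_ hx
      exact Finset.single_le_sum (f := fun k : ↥U => SS J k x)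
        (fun k _ => SS_nonneg' J hJ k _) (Finset.mem_univ k)
    by_contra hcon
    push Not at hcon
    have h3 := Pool.Agent.H256R2.SC.SS_lower J hJ k x
    rw [if_pos hcon] at h3
    linarith
  · apply Pool.Agent.H256R2.SC.Lv_mono _ _ hLv1
    · rw [e10]
      calc q1 * q1 = q1 ^ 2 := by ring
        _ ≤ q1 ^ 10 := pow_le_pow_right₀ hq1one (by norm_num)
    · rw [e10]
      have h4 : (9 : ℝ) ≤ q1 ^ 6 := by
        rw [← hpow 6]
        norm_num
        exact h9X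
      calc (9 : ℝ) * q1 ^ 4 ≤ q1 ^ 6 * q1 ^ 4 := mul_le_mul_of_nonneg_right h4 (by positivity)
        _ = q1 ^ 10 := by ring
  · apply Pool.Agent.H256R2.SC.Lv_mono _ _ hLv2
    · rw [e10]
      have hzJ0 : 0 ≤ z ^ J := by positivity
      calc q1 * q1 * z ^ J ≤ q1 * q1 * q1 := by gcongr
        _ = q1 ^ 3 := by ring
        _ ≤ q1 ^ 10 := pow_le_pow_right₀ hq1one (by norm_num)
    · rw [e10]
      calc 9 * q1 ^ 4 * ((U.card : ℝ) * ((PP.card : ℝ) + 1) ^ J) ≤ 9 * q1 ^ 4 * (L * q1) := by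
            apply mul_le_mul_of_nonneg_left _ (by positivity)
            exact mul_le_mul huL hnJ (by positivity) (by linarith)
        _ = (9 * L) * q1 ^ 5 := by ring
        _ ≤ q1 ^ 5 * q1 ^ 5 := by
            apply mul_le_mul_of_nonneg_right _ (by positivity)
            rw [← e5]
            exact h9Y
        _ = q1 ^ 10 := by ring
  · have hMge' : 3 / 4 * Zv ≤ EE (gP PP) (fun x : Col PP.card ↥U => V2 (pP PP) (gP PP) h q1 x) := hMge
    linarith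
  · refine hM2.trans ?_
    rw [div_eq_mul_one_div Zv (L ^ B)]
    exact mul_le_mul_of_nonneg_left hLB1 hZ0
  · intro s hs
    have h1 := EEQ_fw_le H (gQ PP) hV.le_gQ hV.gQ_le hV.hugQ hV.gQ2 q1 hV.hug4 (⟨k₀, hk₀⟩ : ↥U) s
    have h2 : EE (gQ PP) (fun x : Col PP.card ↥U => |V2 (pP PP) (gP PP) h q1 x| * fw (gQ PP) s x) =
        EE (gQ PP) (fun x : Col PP.card ↥U => V2 (pP PP) (gP PP) h q1 x * fw (gQ PP) s x) := by
      congr 1
      funext x
      rw [abs_of_nonneg (V2_nonneg _ _ _ _ _)]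
    rw [h2]
    refine h1.trans ?_
    have h3 : ∏ i ∈ s, 30 * (Fintype.card ↥U : ℝ) * gP PP i ≤ 30 * L * (1 / L ^ A) := by
      obtain ⟨i₀, hi₀⟩ := hs
      rw [← Finset.mul_prod_erase s _ hi₀]
      have h4 : ∀ i, 0 ≤ 30 * (Fintype.card ↥U : ℝ) * gP PP i := fun i =>
        mul_nonneg (by positivity) (hV.g0 i).le
      have h5 : ∏ i ∈ s.erase i₀, 30 * (Fintype.card ↥U : ℝ) * gP PP i ≤ 1 := by
        apply Finset.prod_le_one (fun i _ => h4 i)
        intro i _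
        rw [cardU]
        have := hV.ug i
        linarith
      calc 30 * (Fintype.card ↥U : ℝ) * gP PP i₀ * ∏ i ∈ s.erase i₀, 30 * (Fintype.card ↥U : ℝ) * gP PP i ≤
          30 * (Fintype.card ↥U : ℝ) * gP PP i₀ * 1 := mul_le_mul_of_nonneg_left h5 (h4 i₀)
        _ ≤ _ := by
          rw [mul_one, cardU]
          have := hV.gle i₀
          have h6 := hV.g0 i₀
          gcongr
    have h4 : Real.exp (8 * ∑ i, gP PP i) ≤ L ^ 8 := hV.exp8
    calc (∏ i ∈ s, 30 * (Fintype.card ↥U : ℝ) * gP PP i) * Real.exp (8 * ∑ i, gP PP i) * Zv ≤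
        (30 * L * (1 / L ^ A)) * L ^ 8 * Zv := by
          apply mul_le_mul_of_nonneg_right _ hZ0
          apply mul_le_mul h3 h4 (Real.exp_pos _).le (by positivity)
      _ = 30 * L ^ 9 * Zv / L ^ A := by
          field_simp
      _ ≤ Zv / L ^ B := by
          rw [div_le_div_iff₀ (by positivity) (by positivity)]
          have h5 : L ^ A = L ^ B * L ^ 30 := by rw [hA, pow_add]
          have h6 : 30 * L ^ 9 ≤ L ^ 30 := by
            have h7 : L ^ 30 = L ^ 9 * L ^ 21 := by rw [← pow_add]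
            have h8 : (30 : ℝ) ≤ L ^ 21 := by
              calc (30 : ℝ) ≤ L := by linarith
                _ = L ^ 1 := (pow_one _).symm
                _ ≤ L ^ 21 := pow_le_pow_right₀ hL1 (by norm_num)
            rw [h7]
            nlinarith [pow_pos hL0 9]
          rw [h5]
          calc 30 * L ^ 9 * Zv * L ^ B = (30 * L ^ 9) * (Zv * L ^ B) := by ring
            _ ≤ L ^ 30 * (Zv * L ^ B) := by
                apply mul_le_mul_of_nonneg_right h6 (by positivity)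
            _ = _ := by ring

end Pool.Agent.H92.R
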