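import Pool.Graph.R_pool_sql_team_seeded_b0a926ef.R529.LG.Cov

/-!
The covering at the record scale (compare `Pool.Agent.R529.LG.cov`, library).
-/

set_option autoImplicit false

namespace Pool.Agent.H92.R

open Finset Filter
open Pool.Agent.TH101.RG (V0 rsurvK vfacts)

/-- the length of the window -/
noncomputable def R2 (y : ℝ) : ℝ :=
  y * Real.log y ^ 2 * Real.log (Real.log (Real.log y)) / Real.log (Real.log y) ^ 2

theorem r2_ev (η : ℝ) (hη : 0 < η) (hη1 : η ≤ 1) : ∀ᶠ y : ℝ in atTop,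
    9 * y ≤ η * R2 y ∧ R2 y ≤ y * Real.log y ^ 2 ∧ y * Real.log y ^ 2 ≤ y ^ 2 ∧ 100 ≤ y ∧
      100 ≤ Real.log y ∧ 1 ≤ Real.log (Real.log y) ∧ 1 ≤ Real.log (Real.log (Real.log y)) := by
  have t1 := Real.tendsto_log_atTop
  have t2 : Tendsto (fun y : ℝ => Real.log (Real.log y)) atTop atTop := t1.comp t1
  have t3 : Tendsto (fun y : ℝ => Real.log (Real.log (Real.log y))) atTop atTop := t1.comp t2
  have h1 := t2.eventually ((Real.tendsto_exp_div_pow_atTop 2).eventually_ge_atTop (9 / η))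
  have h2 := (Real.isLittleO_pow_log_id_atTop (n := 2)).bound (show (0 : ℝ) < 1 by norm_num)
  filter_upwards [h1, h2, t1.eventually_ge_atTop 100, t2.eventually_ge_atTop 1, t3.eventually_ge_atTop 1,
    eventually_ge_atTop 100] with y e1 e2 e3 e4 e5 e6
  have hl0 : 0 < Real.log y := by linarith
  have hll0 : 0 < Real.log (Real.log y) := by linarith
  rw [Real.exp_log hl0, le_div_iff₀ (by positivity)] at e1
  rw [one_mul, id, Real.norm_of_nonneg (by positivity), Real.norm_of_nonneg (by linarith)] at e2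
  refine ⟨?_, ?_, ?_, e6, e3, e4, e5⟩
  · unfold R2
    rw [← mul_div_assoc, le_div_iff₀ (by positivity)]
    have h3 : 9 * Real.log (Real.log y) ^ 2 ≤ η * Real.log y := by
      calc 9 * Real.log (Real.log y) ^ 2 = η * (9 / η * Real.log (Real.log y) ^ 2) := by field_simp
        _ ≤ _ := mul_le_mul_of_nonneg_left e1 hη.le
    have h4 : Real.log y ≤ Real.log y ^ 2 := le_self_pow₀ (by linarith) (by norm_num)
    calc 9 * y * Real.log (Real.log y) ^ 2 = y * (9 * Real.log (Real.log y) ^ 2) := by ring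
      _ ≤ y * (η * Real.log y) := mul_le_mul_of_nonneg_left h3 (by linarith)
      _ = η * (y * Real.log y * 1) := by ring
      _ ≤ _ := by gcongr
  · unfold R2
    have h3 : Real.log (Real.log (Real.log y)) ≤ Real.log (Real.log y) :=
      (Real.log_le_sub_one_of_pos hll0).trans (by linarith)
    have h4 : Real.log (Real.log y) ≤ Real.log (Real.log y) ^ 2 := le_self_pow₀ e4 (by norm_num)
    rw [div_le_iff₀ (by positivity)]
    exact mul_le_mul_of_nonneg_left (h3.trans h4) (by positivity)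
  · calc y * Real.log y ^ 2 ≤ y * y := mul_le_mul_of_nonneg_left e2 (by linarith)
      _ = _ := by ring

open Classical in
/-- the classes: a window `[0, H]` of the record length with a prime `t₀` in the middle, few survivors -/
theorem cov2 (C₀ C₁ c₁ : ℝ) (hC₁ : 0 ≤ C₁) (hc₁ : 0 < c₁) : ∃ η : ℝ, 0 < η ∧ ∃ y₀ : ℕ, ∀ y : ℕ, y₀ ≤ y →
    100 ≤ Real.log y ∧ (Real.log y) ^ 4 ≤ Real.exp (V0 y) ∧ 100 ≤ y ∧ ∀ F : Finset ℕ,
    (∀ q ∈ F, q.Prime) → ∑ q ∈ F, (1 : ℝ) / q ≤ C₀ →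
    ∑ q ∈ F.filter (fun q : ℕ => V0 y < Real.log q), (1 : ℝ) / q ≤ C₁ / Real.log y →
    ∃ (H G t₀ : ℕ) (b : ℕ → ℕ), H ≤ y ^ 2 ∧ y < t₀ ∧ t₀.Prime ∧ G ≤ t₀ ∧ t₀ + G ≤ H ∧ η * R2 y ≤ G ∧
      (∀ p : ℕ, p.Prime → p ≤ y → p ∉ F → b p < p ∧ ¬ t₀ ≡ b p [MOD p]) ∧
      (((range (H + 1)).filter (fun k => ∀ p : ℕ, p.Prime → p ≤ y → p ∉ F →
        ¬ k ≡ b p [MOD p])).card : ℝ) ≤ c₁ * y := by
  obtain ⟨C, hC, y₁, hrs⟩ := rsurvK 1 C₀ C₁ hC₁
  obtain ⟨η, hη⟩ : ∃ η : ℝ, η = min (1 / 2) (c₁ / C) := ⟨_, rfl⟩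
  have hη0 : 0 < η := by rw [hη]; positivity
  have hη1 : η ≤ 1 / 2 := by rw [hη]; exact min_le_left _ _
  have hη2 : η ≤ c₁ / C := by rw [hη]; exact min_le_right _ _
  obtain ⟨y₂, hy₂⟩ := eventually_atTop.1 (tendsto_natCast_atTop_atTop.eventually
    ((r2_ev η hη0 (by linarith)).and vfacts))
  refine ⟨η / 8, by positivity, max y₁ y₂, fun y hy => ?_⟩
  obtain ⟨⟨g1, g2, g3, g4, g5, g6, g7⟩, g8, g9, g10⟩ := hy₂ y ((le_max_right _ _).trans hy)
  refine ⟨g5, g9, by exact_mod_cast g4, fun F hF hFs hFt => ?_⟩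
  obtain ⟨H, hH⟩ : ∃ H : ℕ, H = ⌊η * R2 y⌋₊ := ⟨_, rfl⟩
  have hy0 : (0 : ℝ) < y := by linarith
  have hR0 : 0 ≤ η * R2 y := by linarith
  have hH1 : (H : ℝ) ≤ η * R2 y := by rw [hH]; exact Nat.floor_le hR0
  have hH2 : η * R2 y < H + 1 := by rw [hH]; exact Nat.lt_floor_add_one _
  have hH8 : 8 * y ≤ H := by
    have : (8 : ℝ) * y ≤ H := by linarith
    exact_mod_cast this
  have hRR0 : 0 ≤ R2 y := by
    by_contra hcon
    push Not at hcon
    nlinarith
  have hHR : (H : ℝ) ≤ R2 y := hH1.trans (by nlinarith)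
  obtain ⟨G, hG⟩ : ∃ G : ℕ, G = H / 4 := ⟨_, rfl⟩
  have hGy : 2 * y ≤ G := by omega
  have hG0 : G ≠ 0 := by
    have : 0 < y := by exact_mod_cast hy0
    omega
  obtain ⟨t₀, ht₀, ht₁, ht₂⟩ := Nat.exists_prime_lt_and_le_two_mul G hG0
  have hyt : y < t₀ := by omega
  obtain ⟨b, hb1, hb2⟩ := hrs y ((le_max_left _ _).trans hy) F hF hFs hFt H (by omega) (hHR.trans g2)
    (fun _ _ => t₀) (fun _ p hp hpy _ _ hd => by
      have := (Nat.prime_dvd_prime_iff_eq hp ht₀).1 hd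
      omega)
  refine ⟨H, G, t₀, b, ?_, hyt, ht₀, by omega, by omega, ?_, fun p hp hpy hpF => ?_, ?_⟩
  · have : (H : ℝ) ≤ (y : ℝ) ^ 2 := hHR.trans (g2.trans g3)
    exact_mod_cast this
  · have h1 : (H : ℝ) < 4 * (G + 1) := by
      have : H < 4 * (G + 1) := by omega
      exact_mod_cast this
    linarith
  · exact ⟨(hb1 p hp hpy hpF).1, (hb1 p hp hpy hpF).2 0⟩
  · refine hb2.trans ?_
    have hl0 : 0 < Real.log y := by linarith
    have hll0 : 0 < Real.log (Real.log y) := by linarith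
    have hlll0 : 0 < Real.log (Real.log (Real.log y)) := by linarith
    rw [div_le_iff₀ (by positivity)]
    calc C * H * Real.log (Real.log y) ^ 2 ≤ C * (η * R2 y) * Real.log (Real.log y) ^ 2 := by gcongr
      _ = C * η * (y * Real.log y ^ 2 * Real.log (Real.log (Real.log y))) := by
          unfold R2
          field_simp
      _ ≤ c₁ * (y * Real.log y ^ 2 * Real.log (Real.log (Real.log y))) := by
          apply mul_le_mul_of_nonneg_right _ (by positivity)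
          rw [le_div_iff₀ hC] at hη2
          linarith
      _ = _ := by ring

end Pool.Agent.H92.R
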