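import Pool.Agent.H92.G.SvP
import Pool.Agent.H92.F.Err
import Pool.Graph.R_pool_sql_team_seeded_b0a926ef.R529.LG.Cov

set_option autoImplicit false
set_option maxHeartbeats 4000000

/-! The ratio of a modulus and its totient, and a sieve bound for one class modulo each prime. -/

open Finset Filter

namespace Pool.Agent.H92.R

open Pool.Agent.H92.G (FLC flc)
open Pool.Agent.Y835.SC (V V_disj V_union V_exp V_exp2 V_ratio V_primeFactors V_anti V_pos)
open Pool.Agent.R529.FT (V_up0)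

theorem ratio_up : ∃ C : ℝ, 0 < C ∧ ∀ y Q : ℕ, 3 ≤ y → 0 < Q →
    ∑ p ∈ Q.primeFactors.filter (fun p => y < p), (1 : ℝ) / p ≤ 1 / 2 →
    (Q : ℝ) / Q.totient ≤ C * Real.log y := by
  classical
  obtain ⟨c, hc, _, HV⟩ := V_ratio
  refine ⟨Real.exp (3 / 2) * 2 / (c * Real.log 2), by have := Real.log_pos (show (1 : ℝ) < 2 by norm_num); positivity, ?_⟩
  intro y Q hy hQ hs
  have hl2 : 0 < Real.log 2 := Real.log_pos (by norm_num)
  have hly : 0 < Real.log y := Real.log_pos (by exact_mod_cast (by omega : 1 < y))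
  have hQ0 : (0 : ℝ) < Q := by exact_mod_cast hQ
  have hφ0 : (0 : ℝ) < Q.totient := by exact_mod_cast Nat.totient_pos.2 hQ
  have hpf := V_primeFactors hQ
  have hpr : ∀ p ∈ Q.primeFactors, p.Prime := fun p hp => Nat.prime_of_mem_primeFactors hp
  obtain ⟨A, hA⟩ : ∃ A : Finset ℕ, A = Q.primeFactors.filter (fun p => 2 < p ∧ p ≤ y) := ⟨_, rfl⟩
  obtain ⟨B, hB⟩ : ∃ B : Finset ℕ, B = Q.primeFactors.filter (fun p => y < p) := ⟨_, rfl⟩
  have hAp : ∀ p ∈ A, p.Prime := fun p hp => by rw [hA] at hp; exact hpr p (mem_filter.1 hp).1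
  have hBp : ∀ p ∈ B, p.Prime := fun p hp => by rw [hB] at hp; exact hpr p (mem_filter.1 hp).1
  have h1 : V (({2} ∪ A) ∪ B) ≤ V Q.primeFactors := by
    apply V_anti
    · intro p hp
      have h2 := hpr p hp
      rw [mem_union, mem_union, mem_singleton, hA, hB, mem_filter, mem_filter]
      rcases h2.two_le.eq_or_lt with h3 | h3
      · exact Or.inl (Or.inl h3.symm)
      · by_cases h4 : p ≤ y
        · exact Or.inl (Or.inr ⟨hp, h3, h4⟩)
        · exact Or.inr ⟨hp, not_le.1 h4⟩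
    · intro p hp
      rw [mem_union, mem_union, mem_singleton] at hp
      rcases hp with (h3 | h3) | h3
      · rw [h3]; exact Nat.prime_two
      · exact hAp p h3
      · exact hBp p h3
  have hd1 : Disjoint ({2} ∪ A) B := by
    rw [Finset.disjoint_left]
    intro p hp hp'
    rw [hB, mem_filter] at hp'
    rw [mem_union, mem_singleton, hA, mem_filter] at hp
    rcases hp with h3 | h3
    · omega
    · omega
  have hd2 : Disjoint ({2} : Finset ℕ) A := by
    rw [Finset.disjoint_left]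
    intro p hp hp'
    rw [hA, mem_filter] at hp'
    rw [mem_singleton] at hp
    omega
  rw [V_disj hd1, V_disj hd2] at h1
  have h2 : V ({2} : Finset ℕ) = 1 / 2 := by
    unfold Pool.Agent.Y835.SC.V
    rw [prod_singleton]
    norm_num
  have h3 := HV 2 y le_rfl (by omega) A (fun p hp => by
    refine ⟨hAp p hp, ?_⟩
    rw [hA, mem_filter] at hp
    exact hp.2)
  have h4 := V_exp hBp
  have h5 : Real.exp (-(3 / 2)) ≤ V B := by
    refine le_trans (Real.exp_le_exp.2 ?_) h4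
    rw [← hB] at hs
    linarith
  have h6 : 1 / 2 * (c * (Real.log 2 / Real.log y)) * Real.exp (-(3 / 2)) ≤ (Q.totient : ℝ) / Q := by
    rw [← hpf]
    refine le_trans ?_ h1
    rw [h2]
    push_cast at h3
    have h7 : 0 ≤ c * (Real.log 2 / Real.log y) := by positivity
    apply mul_le_mul _ h5 (Real.exp_pos _).le
    · exact mul_nonneg (by norm_num) (V_pos hAp).le
    · exact mul_le_mul_of_nonneg_left h3 (by norm_num)
  rw [div_le_iff₀ hφ0]
  rw [le_div_iff₀ hQ0] at h6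
  rw [Real.exp_neg] at h6
  have he : 0 < Real.exp (3 / 2 : ℝ) := Real.exp_pos _
  calc (Q : ℝ) = (Real.exp (3 / 2) * 2 / (c * Real.log 2) * Real.log y) *
        (1 / 2 * (c * (Real.log 2 / Real.log y)) * (Real.exp (3 / 2))⁻¹ * Q) := by
        field_simp
    _ ≤ (Real.exp (3 / 2) * 2 / (c * Real.log 2) * Real.log y) * Q.totient :=
        mul_le_mul_of_nonneg_left h6 (by positivity)

open Classical in
/-- a sieve bound: one class modulo each prime, one prime is left out -/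
theorem cls_up : ∃ (C : ℝ) (y0 : ℕ), 0 < C ∧ ∀ y : ℕ, y0 ≤ y → ∀ H : ℕ, y ≤ H → ∀ p₀ : ℕ, p₀.Prime → ∀ b : ℕ → ℕ,
    (∀ p : ℕ, p.Prime → p ≤ y → p ≠ p₀ → b p < p) →
    (((Icc 1 H).filter (fun k => ∀ p : ℕ, p.Prime → p ≤ y → p ≠ p₀ → ¬ k ≡ b p [MOD p])).card : ℝ) ≤
      C * (H / Real.log y) := by
  classical
  obtain ⟨C, hC, hF⟩ := flc
  obtain ⟨Kb, hKb⟩ : ∃ Kb : ℕ, Kb = C * (C * 2) := ⟨_, rfl⟩
  have hKb1 : 1 ≤ Kb := by rw [hKb]; exact Nat.mul_pos hC (by omega)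
  have hKbr : (1 : ℝ) ≤ Kb := by exact_mod_cast hKb1
  obtain ⟨z0, hz0⟩ : ∃ z0 : ℕ, z0 = C * 2 := ⟨_, rfl⟩
  obtain ⟨CV, hCV, HV⟩ := V_up0
  have hlt := Real.tendsto_log_atTop.comp (tendsto_natCast_atTop_atTop (R := ℝ))
  have h2 := (isLittleO_log_rpow_atTop (r := (1 / 4 : ℝ)) (by norm_num)).bound (show (0 : ℝ) < 1 by norm_num)
  have hev : ∀ᶠ y : ℕ in atTop, 200 * (Kb : ℝ) * (Real.log z0 + 1) ≤ Real.log y ∧ Real.log y ≤ (y : ℝ) ^ (1 / 4 : ℝ) ∧ 3 ≤ y := by
    filter_upwards [hlt.eventually_ge_atTop (200 * (Kb : ℝ) * (Real.log z0 + 1)),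
      (tendsto_natCast_atTop_atTop (R := ℝ)).eventually h2, eventually_ge_atTop 3] with y h3 h4 h5
    have hy : (3 : ℝ) ≤ y := by exact_mod_cast h5
    rw [Real.norm_of_nonneg (Real.log_nonneg (by linarith)), Real.norm_of_nonneg (by positivity), one_mul] at h4
    exact ⟨h3, h4, h5⟩
  obtain ⟨y0, hy0⟩ := eventually_atTop.1 hev
  have hz02 : 2 ≤ z0 := by rw [hz0]; omega
  have hlz0 : 0 ≤ Real.log z0 := Real.log_natCast_nonneg _
  refine ⟨3 * (CV * ((Real.log z0 + 1) * (200 * Kb))) + 1, y0, by positivity, ?_⟩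
  intro y hy H hyH p₀ hp₀ b hb
  obtain ⟨hly, hly4, hy3⟩ := hy0 y hy
  have hyr : (3 : ℝ) ≤ y := by exact_mod_cast hy3
  have hly0 : 0 < Real.log y := Real.log_pos (by linarith)
  obtain ⟨J, hJ1, hJ2, hJ3⟩ := Pool.Agent.H92.F.J_exists Kb hKb1 y (by linarith) (by
    refine le_trans ?_ hly
    have : 200 * (Kb : ℝ) * 1 ≤ 200 * (Kb : ℝ) * (Real.log z0 + 1) := by gcongr; linarith
    linarith)
  obtain ⟨x, hx⟩ : ∃ x : ℕ, x = 2 ^ 2 ^ J := ⟨_, rfl⟩
  rw [← hx] at hJ1 hJ2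
  have hx0 : 0 < x := by rw [hx]; positivity
  have hlx : 0 < Real.log x := lt_of_lt_of_le (by positivity) hJ2
  have hzx : z0 < x := by
    have h3 : Real.log z0 + 1 ≤ Real.log x := by
      refine le_trans ?_ hJ2
      rw [le_div_iff₀ (by positivity)]
      linarith
    by_contra hcon
    push Not at hcon
    have h4 := Real.log_le_log (by exact_mod_cast hx0) (show (x : ℝ) ≤ z0 by exact_mod_cast hcon)
    linarith
  have hxy : x ≤ y := by
    have h3 : (x : ℝ) ≤ y := by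
      calc (x : ℝ) ≤ ((x ^ Kb : ℕ) : ℝ) := by
            have : x ≤ x ^ Kb := Nat.le_self_pow (by omega) x
            exact_mod_cast this
        _ ≤ (y : ℝ) ^ (1 / 100 : ℝ) := hJ1
        _ ≤ (y : ℝ) ^ (1 : ℝ) := Real.rpow_le_rpow_of_exponent_le (by linarith) (by norm_num)
        _ = y := Real.rpow_one _
    exact_mod_cast h3
  obtain ⟨P, hP⟩ : ∃ P : Finset ℕ, P = (Ioc z0 x).filter (fun p => p.Prime ∧ ¬ p ∣ p₀) := ⟨_, rfl⟩
  have hPm : ∀ p ∈ P, p.Prime ∧ z0 < p ∧ p ≤ x ∧ p ≠ p₀ := by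
    intro p hp
    rw [hP, mem_filter, mem_Ioc] at hp
    exact ⟨hp.2.1, hp.1.1, hp.1.2, fun h => hp.2.2 (h ▸ dvd_rfl)⟩
  have key := hF 1 (C * 2) J z0 P (fun p => 1 / (p : ℝ)) (by omega) (by omega) (fun p hp => by
      obtain ⟨h3, h4, h5, _⟩ := hPm p hp
      exact ⟨h3, h4, by rw [← hx]; exact h5⟩) (fun p hp => by
      have hp2 : (2 : ℝ) ≤ p := by exact_mod_cast (hPm p hp).1.two_le
      refine ⟨by positivity, ?_⟩
      push_cast
      exact one_div_le_one_div_of_le (by linarith) (by linarith))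
    (Icc 1 H) (fun _ => (1 : ℝ)) (fun p => {b p}) (H : ℝ) (fun _ => 1) (fun _ _ => zero_le_one) (Nat.cast_nonneg _) ?_
  · have h3 := (abs_le.1 key).2
    rw [sum_const, nsmul_eq_mul, mul_one] at h3
    have h4 : (((Icc 1 H).filter (fun k => ∀ p : ℕ, p.Prime → p ≤ y → p ≠ p₀ → ¬ k ≡ b p [MOD p])).card : ℝ) ≤
        (((Icc 1 H).filter (fun m => ∀ p ∈ P, m % p ∉ ({b p} : Finset ℕ))).card : ℝ) := by
      refine Nat.cast_le.2 (card_le_card fun k hk => ?_)
      rw [mem_filter] at hk ⊢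
      refine ⟨hk.1, fun p hp hmem => ?_⟩
      obtain ⟨h5, h6, h7, h8⟩ := hPm p hp
      apply hk.2 p h5 (h7.trans hxy) h8
      rw [mem_singleton] at hmem
      unfold Nat.ModEq
      rw [hmem, Nat.mod_eq_of_lt (hb p h5 (h7.trans hxy) h8)]
    refine h4.trans ?_
    have h5 : V P ≤ CV * ((Real.log z0 + 1) * (200 * Kb) / Real.log y) := by
      have h6 := HV z0 x hz02 hzx.le p₀ hp₀.one_lt.le (by
        rw [hp₀.primeFactors]
        have h6 : ∑ p ∈ ({p₀} : Finset ℕ).filter (fun p => z0 < p), (1 : ℝ) / p ≤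
            ∑ p ∈ ({p₀} : Finset ℕ), (1 : ℝ) / p :=
          sum_le_sum_of_subset_of_nonneg (filter_subset _ _) fun _ _ _ => by positivity
        refine h6.trans ?_
        rw [sum_singleton, div_le_one (by exact_mod_cast hp₀.pos)]
        exact_mod_cast hp₀.one_lt.le)
      rw [← hP] at h6
      refine h6.trans (mul_le_mul_of_nonneg_left ?_ hCV.le)
      rw [div_le_iff₀ (by positivity)] at hJ2
      rw [div_le_div_iff₀ hlx hly0]
      calc Real.log z0 * Real.log y ≤ (Real.log z0 + 1) * (Real.log x * (200 * Kb)) := by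
            apply mul_le_mul (by linarith) hJ2 hly0.le (by linarith)
        _ = _ := by ring
    have hVd : ∏ p ∈ P, (1 - (fun p : ℕ => 1 / (p : ℝ)) p) = V P := rfl
    rw [hVd] at h3
    have hVpos : 0 < V P := V_pos fun p hp => (hPm p hp).1
    have hH0 : (0 : ℝ) ≤ H := Nat.cast_nonneg H
    have hyHr : (y : ℝ) ≤ H := by exact_mod_cast hyH
    have h6 : (1 / 2 : ℝ) ^ (C * 2) ≤ 1 := pow_le_one₀ (by norm_num) (by norm_num)
    have h7 : (H : ℝ) * V P ≤ H * (CV * ((Real.log z0 + 1) * (200 * Kb) / Real.log y)) :=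
      mul_le_mul_of_nonneg_left h5 hH0
    -- the error
    have hb2 : C * (C * 2) = Kb := hKb.symm
    rw [hb2, ← hx] at h3
    have herr := Pool.Agent.H92.F.err_up 1 (x ^ Kb) P (fun p hp => ⟨(hPm p hp).1, (hPm p hp).1.one_lt.le⟩)
    have h8 : ∑ T ∈ P.powerset.filter (fun T : Finset ℕ => ∏ p ∈ T, p ≤ x ^ Kb), (1 : ℝ) ≤
        ((x ^ Kb : ℕ) : ℝ) * ((x ^ Kb : ℕ) : ℝ) := by
      refine le_trans (le_of_eq ?_) herr
      apply sum_congr rfl
      intro T _
      simp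
    have h9 : ((J : ℝ) + 2) * (((x ^ Kb : ℕ) : ℝ) * ((x ^ Kb : ℕ) : ℝ)) ≤ H / Real.log y := by
      have h10 : ((x ^ Kb : ℕ) : ℝ) * ((x ^ Kb : ℕ) : ℝ) ≤ (y : ℝ) ^ (1 / 50 : ℝ) := by
        calc ((x ^ Kb : ℕ) : ℝ) * ((x ^ Kb : ℕ) : ℝ) ≤ (y : ℝ) ^ (1 / 100 : ℝ) * (y : ℝ) ^ (1 / 100 : ℝ) := by gcongr
          _ = (y : ℝ) ^ (1 / 50 : ℝ) := by
              rw [← Real.rpow_add (by linarith)]
              norm_num
      rw [le_div_iff₀ hly0]
      calc ((J : ℝ) + 2) * (((x ^ Kb : ℕ) : ℝ) * ((x ^ Kb : ℕ) : ℝ)) * Real.log y ≤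
          (y : ℝ) ^ (1 / 4 : ℝ) * (y : ℝ) ^ (1 / 50 : ℝ) * (y : ℝ) ^ (1 / 4 : ℝ) := by
            gcongr
            exact hJ3.trans hly4
        _ = (y : ℝ) ^ (13 / 25 : ℝ) := by
            rw [← Real.rpow_add (by linarith), ← Real.rpow_add (by linarith)]
            norm_num
        _ ≤ (y : ℝ) ^ (1 : ℝ) := Real.rpow_le_rpow_of_exponent_le (by linarith) (by norm_num)
        _ = y := Real.rpow_one _
        _ ≤ H := hyHr
    have hJ0 : (0 : ℝ) ≤ (J : ℝ) + 2 := by positivity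
    have h11 : ((J : ℝ) + 2) * ∑ T ∈ P.powerset.filter (fun T : Finset ℕ => ∏ p ∈ T, p ≤ x ^ Kb), (1 : ℝ) ≤
        H / Real.log y := (mul_le_mul_of_nonneg_left h8 hJ0).trans h9
    have h12 : (1 / 2 : ℝ) ^ (C * 2) * ((H : ℝ) * V P) ≤ 1 * ((H : ℝ) * V P) :=
      mul_le_mul_of_nonneg_right h6 (by positivity)
    have h13 : (3 * (CV * ((Real.log z0 + 1) * (200 * Kb))) + 1) * (H / Real.log y) =
        3 * (H * (CV * ((Real.log z0 + 1) * (200 * Kb) / Real.log y))) + H / Real.log y := by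
      field_simp
    rw [h13]
    have h14 : 0 ≤ (H : ℝ) * (CV * ((Real.log z0 + 1) * (200 * Kb) / Real.log y)) := by positivity
    linarith
  · intro T hTP _
    have hTp : ∀ p ∈ T, p.Prime := fun p hp => (hPm p (hTP hp)).1
    obtain ⟨γ, hγ⟩ := Pool.Agent.H92.F.crt 1 0 b T (fun p hp => ⟨hTp p hp, fun h =>
      (hTp p hp).one_lt.ne' (Nat.dvd_one.1 h)⟩) (fun p hp => hb p (hTp p hp) ((hPm p (hTP hp)).2.2.1.trans hxy)
        (hPm p (hTP hp)).2.2.2)
    have e1 : (Icc 1 H).filter (fun m => ∀ p ∈ T, m % p ∈ ({b p} : Finset ℕ)) =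
        (Icc 1 H).filter (fun m => m ≡ γ [MOD ∏ p ∈ T, p]) := by
      apply filter_congr
      intro m _
      have h3 := hγ m
      rw [one_mul] at h3
      rw [← h3]
      constructor
      · intro h4
        refine ⟨Nat.modEq_one, fun p hp => mem_singleton.1 (h4 p hp)⟩
      · rintro ⟨_, h4⟩ p hp
        exact mem_singleton.2 (h4 p hp)
    have hT0 : 0 < ∏ p ∈ T, p := prod_pos fun p hp => (hTp p hp).pos
    have h3 := Pool.Agent.H92.F.card_class H (∏ p ∈ T, p) γ hT0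
    rw [e1, sum_const, nsmul_eq_mul, mul_one, prod_div_distrib, prod_const_one, mul_one_div]
    push_cast at h3
    exact h3

end Pool.Agent.H92.R
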