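import Pool.Agent.H92.R.Cov2
import Pool.Agent.H92.R.Gen
import Pool.Agent.H92.I.Dat

/-!
The modulus and the class: the data for the two parts.
-/

set_option autoImplicit false
set_option maxHeartbeats 4000000

namespace Pool.Agent.H92.R

open Finset Filter
open Pool.Agent.TH101.RG (V0)
open Pool.Agent.Y835.SC (big_card)
open Pool.Agent.R529.LG
open Pool.Agent.H92.I (Alone one_row)

/-- the data: a class `r` to the modulus `q * MM y q p₀`, a place `t₀` and the set `U` of the places which are not covered -/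
def Dta (y q p₀ a : ℕ) (c₁ G : ℝ) : Prop :=
  ∃ (r t₀ : ℕ) (U : Finset ℕ), r < q * MM y q p₀ ∧ r + t₀ ≡ a [MOD q] ∧ (r + t₀).Coprime (q * MM y q p₀) ∧
      y < t₀ ∧ t₀ ≤ y ^ 2 ∧ (∀ k ∈ U, k ≤ y ^ 2) ∧ (U.card : ℝ) ≤ c₁ * y ∧
      ∀ m, y + 1 < m * (q * MM y q p₀) → (∀ k ∈ U, k ≠ t₀ → ¬ (m * (q * MM y q p₀) + (r + k)).Prime) →
        Alone G (m * (q * MM y q p₀) + (r + t₀))

/-- facts on the modulus -/
theorem Qfacts2 {z y q p₀ : ℕ} (hy : y = ⌊Real.log z / 400⌋₊) (hlz : 100000 ≤ Real.log z) (hly : 100 ≤ Real.log y)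
    (hq : 0 < q) (hqz : q ^ 200 ≤ z) :
    0 < q * MM y q p₀ ∧ (q * MM y q p₀) ^ 100 ≤ z ∧ (∀ p : ℕ, p.Prime → p ≤ y → p ≠ p₀ → p ∣ q * MM y q p₀) ∧
      ∑ p ∈ (q * MM y q p₀).primeFactors.filter (fun p => y < p), (1 : ℝ) / p ≤ 1 / 2 := by
  have hz0 : (0 : ℝ) < z := by
    by_contra h
    have : (z : ℝ) = 0 := le_antisymm (not_lt.1 h) (Nat.cast_nonneg z)
    rw [this, Real.log_zero] at hlz
    linarith
  have hlz0 : 0 < Real.log z := by linarith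
  have hy1 : (y : ℝ) ≤ Real.log z / 400 := by rw [hy]; exact Nat.floor_le (by positivity)
  have hy2 : Real.log z / 800 ≤ y := by
    have h1 : Real.log z / 400 < (y : ℝ) + 1 := by rw [hy]; exact Nat.lt_floor_add_one _
    linarith
  have hy0 : (0 : ℝ) < y := by linarith
  obtain ⟨Q, hQd⟩ : ∃ Q, Q = q * MM y q p₀ := ⟨_, rfl⟩
  rw [← hQd]
  have hQ0 : 0 < Q := by rw [hQd]; exact Nat.mul_pos hq (MM_pos y q p₀)
  have hl4 : Real.log 4 ≤ 1.3863 := by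
    have := Real.log_two_lt_d9
    rw [show (4 : ℝ) = 2 ^ 2 by norm_num, Real.log_pow]
    push_cast
    linarith
  have hQ100 : Q ^ 100 ≤ z := by
    have h1 : (MM y q p₀) ^ 200 ≤ z := by
      have h1 : (MM y q p₀) ^ 200 ≤ 4 ^ (200 * y) := by
        calc (MM y q p₀) ^ 200 ≤ (4 ^ y) ^ 200 := Nat.pow_le_pow_left (MM_le y q p₀) 200
          _ = 4 ^ (200 * y) := by rw [← pow_mul, mul_comm]
      have h2 : ((4 : ℝ)) ^ (200 * y) ≤ z := by
        rw [← Real.log_le_log_iff (by positivity) hz0, Real.log_pow]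
        push_cast
        have h3 : (200 * (y : ℝ)) * Real.log 4 ≤ (200 * (y : ℝ)) * 1.3863 :=
          mul_le_mul_of_nonneg_left hl4 (by positivity)
        linarith
      exact h1.trans (by exact_mod_cast h2)
    have h2 : (Q ^ 100) ^ 2 ≤ z ^ 2 := by
      calc (Q ^ 100) ^ 2 = q ^ 200 * (MM y q p₀) ^ 200 := by rw [hQd]; ring
        _ ≤ z * z := Nat.mul_le_mul hqz h1
        _ = z ^ 2 := by ring
    exact (Nat.pow_le_pow_iff_left (by norm_num : (2 : ℕ) ≠ 0)).1 h2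
  refine ⟨hQ0, hQ100, ?_, ?_⟩
  · intro p hp hpy hp0
    rw [hQd]
    by_cases h : p ∣ q
    · exact h.mul_right _
    · exact ((MM_dvd hp).2 ⟨hpy, h, hp0⟩).mul_left _
  · have h1 := big_card (q := Q) (y := y) hQ0
    have h2 : Real.log Q ≤ Real.log z / 100 := by
      have h3 := Real.log_le_log (by positivity) (show ((Q : ℝ) ^ 100) ≤ z by exact_mod_cast hQ100)
      rw [Real.log_pow] at h3
      push_cast at h3
      linarith
    refine (sum_le_card_nsmul _ _ (1 / (y : ℝ)) fun p hp => ?_).trans ?_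
    · exact one_div_le_one_div_of_le hy0 (by exact_mod_cast (mem_filter.1 hp).2.le)
    · rw [nsmul_eq_mul]
      obtain ⟨N, hN⟩ : ∃ N : ℝ, N = ((Q.primeFactors.filter (fun p => y < p)).card : ℝ) := ⟨_, rfl⟩
      rw [← hN] at h1 ⊢
      have hN0 : 0 ≤ N := by rw [hN]; positivity
      rw [mul_one_div, div_le_iff₀ hy0]
      have h4 : N * 100 ≤ N * Real.log y := mul_le_mul_of_nonneg_left hly hN0
      nlinarith

open Classical in
/-- the data from a covering -/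
theorem dta_mk {z y q p₀ a H G t₀ : ℕ} {b : ℕ → ℕ} {F : Finset ℕ} {c₁ G' : ℝ} (hy : y = ⌊Real.log z / 400⌋₊)
    (hlz : 100000 ≤ Real.log z) (hly : 100 ≤ Real.log y) (hq : 0 < q) (hqz : q ^ 200 ≤ z) (ha : a.Coprime q)
    (hF : ∀ p : ℕ, p.Prime → p ≤ y → p ∉ F → p ≠ p₀)
    (hHy : H ≤ y ^ 2) (hyt : y < t₀) (hGt : G ≤ t₀)
    (htH : t₀ + G ≤ H) (hG' : G' ≤ G)
    (hb : ∀ p : ℕ, p.Prime → p ≤ y → ¬ p ∣ q → p ≠ p₀ → b p < p ∧ ¬ t₀ ≡ b p [MOD p])
    (hbq : ∀ p : ℕ, p.Prime → p ≤ y → p ∣ q → p ∉ F → t₀ ≡ b p + a [MOD p])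
    (hc : (((range (H + 1)).filter (fun k => ∀ p : ℕ, p.Prime → p ≤ y → p ∉ F →
        ¬ k ≡ b p [MOD p])).card : ℝ) ≤ c₁ * y) : Dta y q p₀ a c₁ G' := by
  obtain ⟨U, hUd⟩ : ∃ U, U = (range (H + 1)).filter (fun k => ∀ p : ℕ, p.Prime → p ≤ y → p ∉ F →
        ¬ k ≡ b p [MOD p]) := ⟨_, rfl⟩
  rw [← hUd] at hc
  obtain ⟨r, hrQ, hra, hrb⟩ := crt y q p₀ t₀ a hq b (fun p hp hpy h1 h2 => (hb p hp hpy h1 h2).1)
  unfold Dta
  obtain ⟨Q, hQd⟩ : ∃ Q, Q = q * MM y q p₀ := ⟨_, rfl⟩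
  rw [← hQd] at hrQ ⊢
  obtain ⟨hQ0, _, hQy, _⟩ := Qfacts2 (p₀ := p₀) hy hlz hly hq hqz
  rw [← hQd] at hQ0 hQy
  have hQF : ∀ p : ℕ, p.Prime → p ≤ y → p ∉ F → p ∣ Q := fun p hp hpy hpF =>
    hQy p hp hpy (hF p hp hpy hpF)
  have hrF : ∀ p : ℕ, p.Prime → p ≤ y → p ∉ F → p ∣ r + b p := by
    intro p hp hpy hpF
    by_cases hpq : p ∣ q
    · have h1 : r + t₀ ≡ a [MOD p] := hra.of_dvd hpq
      have h2 : r + t₀ ≡ r + (b p + a) [MOD p] := (hbq p hp hpy hpq hpF).add_left r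
      have h3 : r + b p + a ≡ 0 + a [MOD p] := by
        rw [zero_add, add_assoc]
        exact h2.symm.trans h1
      exact Nat.modEq_zero_iff_dvd.1 (Nat.ModEq.add_right_cancel' a h3)
    · exact hrb p hp hpy hpq (hF p hp hpy hpF)
  -- coprimality
  have hco : (r + t₀).Coprime Q := by
    apply Nat.Coprime.symm
    apply Nat.coprime_of_dvd
    intro p hp hpQ hph
    rw [hQd, hp.dvd_mul] at hpQ
    rcases hpQ with h | h
    · have h1 : a ≡ 0 [MOD p] := ((hra.of_dvd h).symm).trans (Nat.modEq_zero_iff_dvd.2 hph)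
      have h2 := Nat.dvd_gcd (Nat.modEq_zero_iff_dvd.1 h1) h
      rw [ha] at h2
      exact hp.one_lt.ne' (Nat.dvd_one.1 h2)
    · obtain ⟨h1, h2, h3⟩ := (MM_dvd hp).1 h
      have h4 := hrb p hp h1 h2 h3
      refine (hb p hp h1 h2 h3).2 ?_
      have h5 : r + t₀ ≡ r + b p [MOD p] :=
        (Nat.modEq_zero_iff_dvd.2 hph).trans (Nat.modEq_zero_iff_dvd.2 h4).symm
      exact Nat.ModEq.add_left_cancel' r h5
  refine ⟨r, t₀, U, hrQ, hra, hco, hyt, by omega, ?_, hc, ?_⟩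
  · intro k hk
    rw [hUd, mem_filter, mem_range] at hk
    omega
  · intro m hm hk
    rw [hUd] at hk
    intro p' hp' hne'
    exact lt_of_le_of_lt hG' (one_row (z := y + 1) (y := y) (b := b) (F := F) hGt htH (by omega) hrF hQF hm hk p' hp' hne')

theorem yfacts : ∀ n : ℕ, ∃ z0 : ℕ, ∀ z : ℕ, z0 ≤ z → ∀ y : ℕ, y = ⌊Real.log z / 400⌋₊ →
    100000 ≤ Real.log z ∧ 100 ≤ Real.log y ∧ n ≤ y ∧ Real.log z / 800 ≤ y ∧ (y : ℝ) ≤ Real.log z / 400 := by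
  intro n
  have hlt := Real.tendsto_log_atTop.comp (tendsto_natCast_atTop_atTop (R := ℝ))
  obtain ⟨n1, hn1⟩ := eventually_atTop.1 (hlt.eventually_ge_atTop 100)
  have h1 : Tendsto (fun z : ℕ => Real.log z / 400) atTop atTop := hlt.atTop_div_const (by norm_num)
  obtain ⟨z0, hz0⟩ := eventually_atTop.1 (((tendsto_nat_floor_atTop.comp h1).eventually_ge_atTop (n + n1)).and
    (hlt.eventually_ge_atTop 100000))
  refine ⟨z0, fun z hz y hy => ?_⟩
  obtain ⟨h2, h3⟩ := hz0 z hz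
  simp only [Function.comp] at h2 h3
  rw [← hy] at h2
  have h4 : (y : ℝ) ≤ Real.log z / 400 := by rw [hy]; exact Nat.floor_le (by positivity)
  have h5 : Real.log z / 400 < (y : ℝ) + 1 := by rw [hy]; exact Nat.lt_floor_add_one _
  exact ⟨h3, hn1 y (by omega), by omega, by linarith, h4⟩

/-- the data for thin moduli, at the record scale -/
theorem data_thin (A c₁ : ℝ) (hc₁ : 0 < c₁) : ∃ (η : ℝ) (z0 : ℕ), 0 < η ∧ ∀ z : ℕ, z0 ≤ z → ∀ y : ℕ, y = ⌊Real.log z / 400⌋₊ →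
    ∀ q : ℕ, 0 < q → q ^ 200 ≤ z → ∑ p ∈ q.primeFactors.filter (fun p => p ≤ y), (1 : ℝ) / p ≤ A →
    ∑ p ∈ q.primeFactors.filter (fun p => p ≤ y ∧ V0 y < Real.log p), (1 : ℝ) / p ≤ A / Real.log y →
    ∀ p₀ : ℕ, p₀.Prime → ∀ a : ℕ, a.Coprime q → Dta y q p₀ a c₁ (η * R2 y) := by
  classical
  obtain ⟨η, hη, y₀, hcov⟩ := cov2 (|A| + 1) (|A| + 1) c₁ (by positivity) hc₁
  obtain ⟨z0, hz0⟩ := yfacts y₀
  refine ⟨η, z0, hη, fun z hz y hyd q hq hqz hqA hqB p₀ hp₀ a ha => ?_⟩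
  obtain ⟨g1, g2, g3, g4, g5⟩ := hz0 z hz y hyd
  obtain ⟨f1, f2, f3, hcov'⟩ := hcov y g3
  have hly0 : 0 < Real.log y := by linarith
  -- the excluded primes
  obtain ⟨F, hF⟩ : ∃ F : Finset ℕ, F = (Icc 1 y).filter (fun p => p.Prime ∧ (p ∣ q ∨ p = p₀)) := ⟨_, rfl⟩
  have hFm : ∀ p, p ∈ F ↔ p.Prime ∧ p ≤ y ∧ (p ∣ q ∨ p = p₀) := by
    intro p
    rw [hF, mem_filter, mem_Icc]
    constructor
    · rintro ⟨⟨_, h1⟩, h2, h3⟩
      exact ⟨h2, h1, h3⟩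
    · rintro ⟨h2, h1, h3⟩
      exact ⟨⟨h2.one_lt.le, h1⟩, h2, h3⟩
  have hFn : ∀ p, p.Prime → p ≤ y → (p ∉ F ↔ ¬ p ∣ q ∧ p ≠ p₀) := by
    intro p hp hpy
    rw [hFm]
    constructor
    · intro h
      exact ⟨fun h1 => h ⟨hp, hpy, Or.inl h1⟩, fun h1 => h ⟨hp, hpy, Or.inr h1⟩⟩
    · rintro ⟨h1, h2⟩ ⟨_, _, h3 | h3⟩
      · exact h1 h3
      · exact h2 h3
  have hp₀1 : (1 : ℝ) / p₀ ≤ 1 := by
    rw [div_le_one (by exact_mod_cast hp₀.pos)]
    exact_mod_cast hp₀.one_lt.le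
  have hFs : ∑ p ∈ F, (1 : ℝ) / p ≤ |A| + 1 := by
    have h1 : F ⊆ q.primeFactors.filter (fun p => p ≤ y) ∪ {p₀} := by
      intro p hp
      rw [hFm] at hp
      rw [mem_union, mem_filter, Nat.mem_primeFactors, mem_singleton]
      rcases hp.2.2 with h | h
      · exact Or.inl ⟨⟨hp.1, h, hq.ne'⟩, hp.2.1⟩
      · exact Or.inr h
    have h2 := sum_le_sum_of_subset_of_nonneg (f := fun p : ℕ => (1 : ℝ) / p) h1
      (fun _ _ _ => by positivity)
    have h3 : ∑ p ∈ q.primeFactors.filter (fun p => p ≤ y) ∪ {p₀}, (1 : ℝ) / p ≤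
        ∑ p ∈ q.primeFactors.filter (fun p => p ≤ y), (1 : ℝ) / p + ∑ p ∈ ({p₀} : Finset ℕ), (1 : ℝ) / p := by
      rw [← sum_union_inter]
      have : 0 ≤ ∑ p ∈ q.primeFactors.filter (fun p => p ≤ y) ∩ {p₀}, (1 : ℝ) / p :=
        sum_nonneg fun _ _ => by positivity
      linarith
    rw [sum_singleton] at h3
    have := le_abs_self A
    linarith
  have hFt : ∑ p ∈ F.filter (fun p : ℕ => V0 y < Real.log p), (1 : ℝ) / p ≤ (|A| + 1) / Real.log y := by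
    have h1 : F.filter (fun p : ℕ => V0 y < Real.log p) ⊆
        q.primeFactors.filter (fun p => p ≤ y ∧ V0 y < Real.log p) ∪
          ({p₀} : Finset ℕ).filter (fun p : ℕ => V0 y < Real.log p) := by
      intro p hp
      rw [mem_filter, hFm] at hp
      rw [mem_union, mem_filter, mem_filter, Nat.mem_primeFactors, mem_singleton]
      rcases hp.1.2.2 with h | h
      · exact Or.inl ⟨⟨hp.1.1, h, hq.ne'⟩, hp.1.2.1, hp.2⟩
      · exact Or.inr ⟨h, hp.2⟩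
    have h2 := sum_le_sum_of_subset_of_nonneg (f := fun p : ℕ => (1 : ℝ) / p) h1
      (fun _ _ _ => by positivity)
    have h3 : ∑ p ∈ q.primeFactors.filter (fun p => p ≤ y ∧ V0 y < Real.log p) ∪
          ({p₀} : Finset ℕ).filter (fun p : ℕ => V0 y < Real.log p), (1 : ℝ) / p ≤
        ∑ p ∈ q.primeFactors.filter (fun p => p ≤ y ∧ V0 y < Real.log p), (1 : ℝ) / p +
          ∑ p ∈ ({p₀} : Finset ℕ).filter (fun p : ℕ => V0 y < Real.log p), (1 : ℝ) / p := by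
      rw [← sum_union_inter]
      have : 0 ≤ ∑ p ∈ q.primeFactors.filter (fun p => p ≤ y ∧ V0 y < Real.log p) ∩
          ({p₀} : Finset ℕ).filter (fun p : ℕ => V0 y < Real.log p), (1 : ℝ) / p :=
        sum_nonneg fun _ _ => by positivity
      linarith
    have h4 : ∑ p ∈ ({p₀} : Finset ℕ).filter (fun p : ℕ => V0 y < Real.log p), (1 : ℝ) / p ≤
        1 / Real.log y := by
      by_cases hp : V0 y < Real.log p₀
      · rw [filter_singleton, if_pos hp, sum_singleton]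
        apply one_div_le_one_div_of_le hly0
        have hp00 : (0 : ℝ) < p₀ := by exact_mod_cast hp₀.pos
        have h5 := Real.exp_le_exp.2 hp.le
        rw [Real.exp_log hp00] at h5
        have h6 : Real.log y ≤ Real.log y ^ 4 := le_self_pow₀ (by linarith) (by norm_num)
        linarith
      · rw [filter_singleton, if_neg hp, sum_empty]
        positivity
    have h5 : A / Real.log y ≤ |A| / Real.log y := div_le_div_of_nonneg_right (le_abs_self A) hly0.le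
    rw [add_div]
    linarith
  obtain ⟨H, G, t₀, b, hHy, hyt, ht₀, hGt, htH, hηG, hb, hU⟩ :=
    hcov' F (fun p hp => ((hFm p).1 hp).1) hFs hFt
  exact dta_mk hyd g1 g2 hq hqz ha (fun p hp hpy h => ((hFn p hp hpy).1 h).2) hHy hyt hGt htH hηG
    (fun p hp hpy h1 h2 => hb p hp hpy ((hFn p hp hpy).2 ⟨h1, h2⟩))
    (fun p hp hpy h1 h2 => absurd h1 ((hFn p hp hpy).1 h2).1) hU

/-- the data for all moduli -/
theorem data_gen (c₁ : ℝ) (hc₁ : 0 < c₁) : ∃ (η : ℝ) (z0 : ℕ), 0 < η ∧ ∀ z : ℕ, z0 ≤ z → ∀ y : ℕ, y = ⌊Real.log z / 400⌋₊ →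
    ∀ q : ℕ, 0 < q → q ^ 200 ≤ z → ∀ p₀ : ℕ, p₀.Prime → ∀ a : ℕ, a.Coprime q →
    Dta y q p₀ a c₁ (η * (y * Real.log y)) := by
  classical
  obtain ⟨C, y1, hC, hcls⟩ := cls_up
  obtain ⟨η, hη⟩ : ∃ η : ℝ, η = min (1 / 8) (c₁ / (2 * C)) := ⟨_, rfl⟩
  have hη0 : 0 < η := by rw [hη]; positivity
  have hη1 : η ≤ 1 / 8 := by rw [hη]; exact min_le_left _ _
  have hη2 : η ≤ c₁ / (2 * C) := by rw [hη]; exact min_le_right _ _
  have hlt := Real.tendsto_log_atTop.comp (tendsto_natCast_atTop_atTop (R := ℝ))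
  obtain ⟨y2, hy2⟩ := eventually_atTop.1 (hlt.eventually_ge_atTop (9 / η))
  obtain ⟨z0, hz0⟩ := yfacts (y1 + y2 + 100 + ⌈2 / c₁⌉₊)
  refine ⟨η / 8, z0, by positivity, fun z hz y hyd q hq hqz p₀ hp₀ a ha => ?_⟩
  obtain ⟨g1, g2, g3, g4, g5⟩ := hz0 z hz y hyd
  have h9 : 9 / η ≤ Real.log y := hy2 y (by omega)
  have hyr : (100 : ℝ) ≤ y := by exact_mod_cast (by omega : 100 ≤ y)
  have hy0 : (0 : ℝ) < y := by linarith
  have hly0 : 0 < Real.log y := by linarith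
  have hlyy : Real.log y ≤ y := (Real.log_le_sub_one_of_pos hy0).trans (by linarith)
  have hyc : 2 / c₁ ≤ y := by
    have h1 : 2 / c₁ ≤ ⌈2 / c₁⌉₊ := Nat.le_ceil _
    have h2 : ((⌈2 / c₁⌉₊ : ℕ) : ℝ) ≤ y := by exact_mod_cast (by omega : ⌈2 / c₁⌉₊ ≤ y)
    linarith
  rw [div_le_iff₀ hη0] at h9
  rw [div_le_iff₀ hc₁] at hyc
  obtain ⟨H, hH⟩ : ∃ H : ℕ, H = ⌊η * (y * Real.log y)⌋₊ := ⟨_, rfl⟩
  have hR0 : 0 ≤ η * (y * Real.log y) := by positivity
  have hH1 : (H : ℝ) ≤ η * (y * Real.log y) := by rw [hH]; exact Nat.floor_le hR0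
  have hH2 : η * (y * Real.log y) < H + 1 := by rw [hH]; exact Nat.lt_floor_add_one _
  have h9y : 9 * (y : ℝ) ≤ η * (y * Real.log y) := by
    calc 9 * (y : ℝ) ≤ (Real.log y * η) * y := mul_le_mul_of_nonneg_right h9 hy0.le
      _ = _ := by ring
  have hH8 : 8 * y ≤ H := by
    have : (8 : ℝ) * y ≤ H := by linarith
    exact_mod_cast this
  have hHy2 : H ≤ y ^ 2 := by
    have : (H : ℝ) ≤ (y : ℝ) ^ 2 := by
      calc (H : ℝ) ≤ η * (y * Real.log y) := hH1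
        _ ≤ 1 * (y * y) := by
            apply mul_le_mul (by linarith) (mul_le_mul_of_nonneg_left hlyy hy0.le) (by positivity) (by norm_num)
        _ = (y : ℝ) ^ 2 := by ring
    exact_mod_cast this
  obtain ⟨G, hG⟩ : ∃ G : ℕ, G = H / 4 := ⟨_, rfl⟩
  have hGy : 2 * y ≤ G := by omega
  have hG0 : G ≠ 0 := by
    have : 0 < y := by exact_mod_cast hy0
    omega
  obtain ⟨t₀, ht₀, ht₁, ht₂⟩ := Nat.exists_prime_lt_and_le_two_mul G hG0
  have hyt : y < t₀ := by omega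
  obtain ⟨b, hb⟩ : ∃ b : ℕ → ℕ, b = fun p => if p ∣ q then (t₀ + (p - a % p)) % p else (t₀ + 1) % p := ⟨_, rfl⟩
  have hb1 : ∀ p : ℕ, p.Prime → b p < p := by
    intro p hp
    rw [hb]
    simp only
    split_ifs
    · exact Nat.mod_lt _ hp.pos
    · exact Nat.mod_lt _ hp.pos
  have hb2 : ∀ p : ℕ, p.Prime → ¬ p ∣ q → ¬ t₀ ≡ b p [MOD p] := by
    intro p hp hpq h
    rw [hb] at h
    simp only [if_neg hpq] at h
    have h1 : t₀ + 0 ≡ t₀ + 1 [MOD p] := h.trans (Nat.mod_modEq _ _)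
    have h2 := Nat.ModEq.add_left_cancel' t₀ h1
    have h3 := (Nat.modEq_zero_iff_dvd.1 h2.symm)
    exact hp.one_lt.ne' (Nat.dvd_one.1 h3)
  have hb3 : ∀ p : ℕ, p.Prime → p ∣ q → t₀ ≡ b p + a [MOD p] := by
    intro p hp hpq
    rw [hb]
    simp only [if_pos hpq]
    have h1 : (t₀ + (p - a % p)) % p + a ≡ t₀ + (p - a % p) + a % p [MOD p] :=
      (Nat.mod_modEq _ _).add (Nat.mod_modEq _ _).symm
    have h2 : t₀ + (p - a % p) + a % p = t₀ + p := by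
      have := Nat.mod_lt a hp.pos
      omega
    rw [h2] at h1
    refine Nat.ModEq.symm (h1.trans ?_)
    have h3 : t₀ + p ≡ t₀ + 0 [MOD p] := Nat.ModEq.add_left _ (Nat.modEq_zero_iff_dvd.2 dvd_rfl)
    rwa [add_zero] at h3
  refine dta_mk (H := H) (G := G) (t₀ := t₀) (b := b) (F := {p₀}) hyd g1 g2 hq hqz ha
    (fun p _ _ h => fun h1 => h (mem_singleton.2 h1)) hHy2 hyt (by omega) (by omega)
    ?_ (fun p hp _ h1 _ => ⟨hb1 p hp, hb2 p hp h1⟩) (fun p hp _ h1 _ => hb3 p hp h1) ?_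
  · have h1 : (H : ℝ) + 1 ≤ 4 * (G + 1) := by
      have : H + 1 ≤ 4 * (G + 1) := by omega
      exact_mod_cast this
    have h2 : (2 : ℝ) ≤ G := by
      have : 2 ≤ G := by omega
      exact_mod_cast this
    linarith
  · have h1 := hcls y (by omega) H (by omega) p₀ hp₀ b (fun p hp _ _ => hb1 p hp)
    have h2 : (range (H + 1)).filter (fun k => ∀ p : ℕ, p.Prime → p ≤ y → p ∉ ({p₀} : Finset ℕ) →
        ¬ k ≡ b p [MOD p]) ⊆ {0} ∪ (Icc 1 H).filter (fun k => ∀ p : ℕ, p.Prime → p ≤ y → p ≠ p₀ → ¬ k ≡ b p [MOD p]) := by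
      intro k hk
      rw [mem_filter, mem_range] at hk
      rw [mem_union, mem_singleton, mem_filter, mem_Icc]
      rcases Nat.eq_zero_or_pos k with h | h
      · exact Or.inl h
      · right
        exact ⟨⟨h, by omega⟩, fun p hp hpy hpp => hk.2 p hp hpy (fun h3 => hpp (mem_singleton.1 h3))⟩
    have h3 := (card_le_card h2).trans (card_union_le _ _)
    rw [card_singleton] at h3
    have h4 : (((range (H + 1)).filter (fun k => ∀ p : ℕ, p.Prime → p ≤ y → p ∉ ({p₀} : Finset ℕ) →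
        ¬ k ≡ b p [MOD p])).card : ℝ) ≤ 1 + (((Icc 1 H).filter (fun k => ∀ p : ℕ, p.Prime → p ≤ y → p ≠ p₀ →
          ¬ k ≡ b p [MOD p])).card : ℝ) := by exact_mod_cast h3
    refine h4.trans ?_
    have h5 : C * ((H : ℝ) / Real.log y) ≤ c₁ / 2 * y := by
      calc C * ((H : ℝ) / Real.log y) ≤ C * (η * (y * Real.log y) / Real.log y) := by gcongr
        _ = C * η * y := by field_simp
        _ ≤ C * (c₁ / (2 * C)) * y := by gcongr
        _ = c₁ / 2 * y := by field_simp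
    linarith

end Pool.Agent.H92.R
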