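import Pool.Agent.H92.R.MainR

/-!
Isolated primes at the record scale: the final form.
-/

set_option autoImplicit false
set_option maxHeartbeats 4000000

namespace Pool.Agent.H92.R

open Finset Filter
open Pool.Agent.TH101.RG (V0)
open Pool.Agent.H92.I (Alone Iso TX compare floor_facts)

/-- the record function -/
noncomputable def FX (x : ℝ) : ℝ :=
  Real.log x * Real.log (Real.log x) ^ 2 * Real.log (Real.log (Real.log (Real.log x))) /
    (Real.log (Real.log (Real.log x))) ^ 2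

theorem compare2 (C : ℝ) (hC : 1 ≤ C) : ∀ᶠ X : ℝ in atTop, ∀ y : ℝ, Real.log X / C ≤ y → y ≤ Real.log X →
    FX X / (8 * C) ≤ R2 y ∧ Real.log X * Real.log (Real.log X) / (2 * C) ≤ y * Real.log y := by
  have t1 := Real.tendsto_log_atTop
  have t2 : Tendsto (fun y : ℝ => Real.log (Real.log y)) atTop atTop := t1.comp t1
  have t3 : Tendsto (fun y : ℝ => Real.log (Real.log (Real.log y))) atTop atTop := t1.comp t2
  have t4 : Tendsto (fun y : ℝ => Real.log (Real.log (Real.log (Real.log y)))) atTop atTop := t1.comp t3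
  filter_upwards [t1.eventually_ge_atTop (2 * C), t2.eventually_ge_atTop (2 * Real.log C + 4),
    t3.eventually_ge_atTop 4, t4.eventually_ge_atTop 4] with X e1 e2 e3 e4
  intro y hy1 hy2
  obtain ⟨T, hT⟩ : ∃ T, T = Real.log X := ⟨_, rfl⟩
  rw [← hT] at hy1 hy2 e1 e2 e3 e4
  have hT0 : 0 < T := by linarith
  have hC0 : 0 < C := by linarith
  have hlC : 0 ≤ Real.log C := Real.log_nonneg hC
  obtain ⟨u, hu⟩ : ∃ u, u = Real.log T := ⟨_, rfl⟩
  rw [← hu] at e2 e3 e4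
  obtain ⟨v, hv⟩ : ∃ v, v = Real.log u := ⟨_, rfl⟩
  rw [← hv] at e3 e4
  obtain ⟨w, hw⟩ : ∃ w, w = Real.log v := ⟨_, rfl⟩
  rw [← hw] at e4
  have hu0 : 0 < u := by linarith
  have hv0 : 0 < v := by linarith
  have hw0 : 0 < w := by linarith
  have hy0 : 0 < y := lt_of_lt_of_le (by positivity) hy1
  have hl2 := Real.log_two_lt_d9
  have a1 : Real.log y ≤ u := by rw [hu]; exact Real.log_le_log hy0 hy2
  have a2 : u / 2 ≤ Real.log y := by
    have h1 := Real.log_le_log (by positivity) hy1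
    rw [Real.log_div hT0.ne' hC0.ne', ← hu] at h1
    linarith
  have hly0 : 0 < Real.log y := by linarith
  have a3 : Real.log (Real.log y) ≤ v := by rw [hv]; exact Real.log_le_log hly0 a1
  have a4 : v / 2 ≤ Real.log (Real.log y) := by
    have h1 := Real.log_le_log (by positivity) a2
    rw [Real.log_div hu0.ne' (by norm_num), ← hv] at h1
    linarith
  have hlly0 : 0 < Real.log (Real.log y) := by linarith
  have a5 : w / 2 ≤ Real.log (Real.log (Real.log y)) := by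
    have h1 := Real.log_le_log (by positivity) a4
    rw [Real.log_div hv0.ne' (by norm_num), ← hw] at h1
    linarith
  have hllly0 : 0 < Real.log (Real.log (Real.log y)) := by linarith
  refine ⟨?_, ?_⟩
  · unfold FX R2
    rw [← hT, ← hu, ← hv, ← hw]
    calc T * u ^ 2 * w / v ^ 2 / (8 * C) = (T / C) * (u / 2) ^ 2 * (w / 2) / v ^ 2 := by field_simp; ring
      _ ≤ y * Real.log y ^ 2 * Real.log (Real.log (Real.log y)) / Real.log (Real.log y) ^ 2 := by gcongr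
  · rw [← hT, ← hu]
    calc T * u / (2 * C) = (T / C) * (u / 2) := by field_simp
      _ ≤ y * Real.log y := by gcongr

theorem fin_core : ∃ (k : ℕ) (c₁ : ℝ), 1 ≤ k ∧ 0 < c₁ ∧ ∀ zd : ℕ, ∀ᶠ X : ℝ in atTop, ∃ z y : ℕ,
    y = ⌊Real.log z / 400⌋₊ ∧ zd ≤ z ∧ Real.log X / (1600 * k) ≤ y ∧ (y : ℝ) ≤ Real.log X ∧
    ∀ q : ℕ, 1 ≤ q → (q : ℝ) ≤ X ^ (1 / (400 * (k : ℝ))) → q ^ 200 ≤ z ∧
    ∀ a : ℕ, a.Coprime q → ∀ Gw c' : ℝ, c' ≤ Gw → (∀ p₀ : ℕ, p₀.Prime → Dta y q p₀ a c₁ Gw) →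
    X ^ (1 / (400 * (k : ℝ))) ≤ ({p : ℕ | p.Prime ∧ (p : ℝ) ≤ X ∧ p ≡ a [MOD q] ∧
      ∀ p' : ℕ, p'.Prime → p' ≠ p → c' < |(p' : ℝ) - p|}.ncard : ℝ) := by
  classical
  obtain ⟨K, c₁, z0, hK, hc₁, hmain⟩ := mainR
  obtain ⟨k, hk⟩ : ∃ k : ℕ, k = K + 1 := ⟨_, rfl⟩
  have hk1 : 1 ≤ k := by omega
  have hk0 : (0 : ℝ) < k := by exact_mod_cast hk1
  have hk1' : (1 : ℝ) ≤ k := by exact_mod_cast hk1
  refine ⟨k, c₁, hk1, hc₁, fun zd => ?_⟩
  have hev1 : ∀ᶠ X : ℝ in atTop, z0 + zd ≤ ⌊X ^ (1 / (k : ℝ))⌋₊ :=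
    (tendsto_nat_floor_atTop.comp (tendsto_rpow_atTop (by positivity))).eventually_ge_atTop (z0 + zd)
  filter_upwards [hev1, floor_facts k 0 hk1, eventually_ge_atTop (2 : ℝ),
      Real.tendsto_log_atTop.eventually_ge_atTop 1] with X hz0' hff hX2 hlX1
  obtain ⟨z, hz⟩ : ∃ z, z = ⌊X ^ (1 / (k : ℝ))⌋₊ := ⟨_, rfl⟩
  rw [← hz] at hz0'
  obtain ⟨c1, c2, c3, c4, c5, c6⟩ := hff z hz
  have hX0 : 0 < X := by linarith
  have hX1 : 1 ≤ X := by linarith
  obtain ⟨y, hy⟩ : ∃ y, y = ⌊Real.log z / 400⌋₊ := ⟨_, rfl⟩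
  have hlz0 : 0 < Real.log z := by linarith
  have hy1 : (y : ℝ) ≤ Real.log z / 400 := by rw [hy]; exact Nat.floor_le (by positivity)
  have hy2 : Real.log z / 400 < y + 1 := by rw [hy]; exact Nat.lt_floor_add_one _
  have hyX : (y : ℝ) ≤ Real.log X := by linarith
  have hyC : Real.log X / (1600 * k) ≤ y := by
    have h1 : Real.log X / (1600 * k) = (Real.log X / (2 * k)) / 800 := by field_simp; norm_num
    rw [h1]
    linarith
  refine ⟨z, y, hy, by omega, hyC, hyX, fun q hq1 hqX => ?_⟩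
  have hq0 : (0 : ℝ) < q := by exact_mod_cast hq1
  have h200 : q ^ 200 ≤ z := by
    have h1 : (q : ℝ) ^ 200 ≤ z := by
      calc (q : ℝ) ^ 200 ≤ (X ^ (1 / (400 * (k : ℝ)))) ^ 200 := pow_le_pow_left₀ hq0.le hqX 200
        _ = X ^ (1 / (2 * (k : ℝ))) := by
          rw [← Real.rpow_natCast, ← Real.rpow_mul hX0.le]
          congr 1
          push_cast
          field_simp
          norm_num
        _ ≤ z := c3
    exact_mod_cast h1
  refine ⟨h200, fun a ha Gw c' hcG hdat => ?_⟩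
  have h1 := hmain z (by omega) y hy q hq1 h200 a ha Gw hdat
  unfold Iso at h1
  obtain ⟨W, hW⟩ : ∃ W : Finset ℕ, W = (Ioc z (z ^ (K + 1))).filter (fun p => p.Prime ∧ p ≡ a [MOD q] ∧
      Alone Gw p) := ⟨_, rfl⟩
  rw [← hW] at h1
  have h2 : X ^ (1 / (400 * (k : ℝ))) ≤ W.card := by
    have h3 : (X ^ (1 / (400 * (k : ℝ)))) ^ 2 ≤ (W.card : ℝ) ^ 2 := by
      refine le_trans ?_ (c3.trans h1)
      rw [← Real.rpow_natCast, ← Real.rpow_mul hX0.le]
      apply Real.rpow_le_rpow_of_exponent_le hX1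
      push_cast
      rw [div_mul_eq_mul_div, div_le_div_iff₀ (by positivity) (by positivity)]
      nlinarith
    exact le_of_sq_le_sq h3 (Nat.cast_nonneg _)
  refine h2.trans ?_
  rw [← Set.ncard_coe_finset]
  apply Nat.cast_le.2
  apply Set.ncard_le_ncard
  · intro p hp
    rw [mem_coe, hW, mem_filter, mem_Ioc] at hp
    refine ⟨hp.2.1, ?_, hp.2.2.1, fun p' hp' hne => lt_of_le_of_lt hcG (hp.2.2.2 p' hp' hne)⟩
    refine le_trans ?_ c2
    rw [hk]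
    exact_mod_cast hp.1.2
  · apply (Set.finite_Iic ⌊X⌋₊).subset
    intro p hp
    exact Set.mem_Iic.2 (Nat.le_floor hp.2.1)

/-- **Linnik's theorem for isolated primes**, (1) for all moduli, (2) for all thin moduli at the record scale. -/
theorem final2 : ∃ κ : ℝ, 0 < κ ∧
    (∃ c : ℝ, 0 < c ∧ ∃ X₀ : ℝ, ∀ X : ℝ, X₀ ≤ X → ∀ q : ℕ, 1 ≤ q → (q : ℝ) ≤ X ^ κ → ∀ a : ℕ, a.Coprime q →
      X ^ κ ≤ ({p : ℕ | p.Prime ∧ (p : ℝ) ≤ X ∧ p ≡ a [MOD q] ∧
        ∀ p' : ℕ, p'.Prime → p' ≠ p → c * (Real.log X * Real.log (Real.log X)) < |(p' : ℝ) - p|}.ncard : ℝ)) ∧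
    ∀ A : ℝ, ∃ c : ℝ, 0 < c ∧ ∃ X₀ : ℝ, ∀ X : ℝ, X₀ ≤ X → ∀ q : ℕ, 1 ≤ q → (q : ℝ) ≤ X ^ κ →
      ∑ p ∈ q.primeFactors.filter (fun p : ℕ => (p : ℝ) ≤ Real.log X), (1 : ℝ) / p ≤ A →
      ∑ p ∈ q.primeFactors.filter (fun p : ℕ => (p : ℝ) ≤ Real.log X ∧ TX X < Real.log p), (1 : ℝ) / p ≤
        A / Real.log (Real.log X) →
      ∀ a : ℕ, a.Coprime q →
      X ^ κ ≤ ({p : ℕ | p.Prime ∧ (p : ℝ) ≤ X ∧ p ≡ a [MOD q] ∧
        ∀ p' : ℕ, p'.Prime → p' ≠ p → c * FX X < |(p' : ℝ) - p|}.ncard : ℝ) := by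
  classical
  obtain ⟨k, c₁, hk1, hc₁, hcore⟩ := fin_core
  have hk0 : (0 : ℝ) < k := by exact_mod_cast hk1
  have hk1' : (1 : ℝ) ≤ k := by exact_mod_cast hk1
  obtain ⟨C, hC⟩ : ∃ C : ℝ, C = 1600 * k := ⟨_, rfl⟩
  have hC1 : 1 ≤ C := by rw [hC]; linarith
  have hC0 : 0 < C := by linarith
  refine ⟨1 / (400 * (k : ℝ)), by positivity, ?_, ?_⟩
  · obtain ⟨η, zd, hη, hdat⟩ := data_gen c₁ hc₁
    refine ⟨η / (2 * C), by positivity, ?_⟩
    obtain ⟨X₀, hX₀⟩ := eventually_atTop.1 ((hcore zd).and (compare2 C hC1))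
    refine ⟨X₀, fun X hX q hq hqX a ha => ?_⟩
    obtain ⟨⟨z, y, hy, hzd, hyC, hyX, hq'⟩, hcmp⟩ := hX₀ X hX
    rw [← hC] at hyC
    obtain ⟨h200, hfin⟩ := hq' q hq hqX
    obtain ⟨d1, d2⟩ := hcmp y hyC hyX
    refine hfin a ha (η * (y * Real.log y)) _ ?_ (fun p₀ hp₀ => hdat z hzd y hy q hq h200 p₀ hp₀ a ha)
    calc η / (2 * C) * (Real.log X * Real.log (Real.log X)) = η * (Real.log X * Real.log (Real.log X) / (2 * C)) := by
          field_simp
      _ ≤ η * (y * Real.log y) := mul_le_mul_of_nonneg_left d2 hη.le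
  · intro A
    obtain ⟨η, zd, hη, hdat⟩ := data_thin |A| c₁ hc₁
    refine ⟨η / (8 * C), by positivity, ?_⟩
    obtain ⟨X₀, hX₀⟩ := eventually_atTop.1 (((hcore zd).and (compare2 C hC1)).and ((compare C hC1).and
      ((Real.tendsto_log_atTop.comp Real.tendsto_log_atTop).eventually_ge_atTop 1)))
    refine ⟨X₀, fun X hX q hq hqX hqA hqB a ha => ?_⟩
    obtain ⟨⟨⟨z, y, hy, hzd, hyC, hyX, hq'⟩, hcmp⟩, hcmp1, hll⟩ := hX₀ X hX
    simp only [Function.comp] at hll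
    rw [← hC] at hyC
    obtain ⟨h200, hfin⟩ := hq' q hq hqX
    obtain ⟨d1, d2⟩ := hcmp y hyC hyX
    obtain ⟨g1, g2, g3, _⟩ := hcmp1 y hyC hyX
    have hS1 : ∑ p ∈ q.primeFactors.filter (fun p => p ≤ y), (1 : ℝ) / p ≤ |A| := by
      refine le_trans (sum_le_sum_of_subset_of_nonneg (fun p hp => ?_) fun _ _ _ => by positivity)
        (hqA.trans (le_abs_self A))
      rw [mem_filter] at hp ⊢
      exact ⟨hp.1, le_trans (by exact_mod_cast hp.2) hyX⟩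
    have hS2 : ∑ p ∈ q.primeFactors.filter (fun p => p ≤ y ∧ V0 y < Real.log p), (1 : ℝ) / p ≤
        |A| / Real.log y := by
      have h1 : A / Real.log (Real.log X) ≤ |A| / Real.log y := by
        calc A / Real.log (Real.log X) ≤ |A| / Real.log (Real.log X) :=
              div_le_div_of_nonneg_right (le_abs_self A) (by linarith)
          _ ≤ _ := div_le_div_of_nonneg_left (abs_nonneg A) g2 g1
      refine le_trans (sum_le_sum_of_subset_of_nonneg (fun p hp => ?_) fun _ _ _ => by positivity)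
        (hqB.trans h1)
      rw [mem_filter] at hp ⊢
      exact ⟨hp.1, le_trans (by exact_mod_cast hp.2.1) hyX, lt_of_le_of_lt g3 hp.2.2⟩
    refine hfin a ha (η * R2 y) _ ?_ (fun p₀ hp₀ => hdat z hzd y hy q hq h200 hS1 hS2 p₀ hp₀ a ha)
    calc η / (8 * C) * FX X = η * (FX X / (8 * C)) := by field_simp
      _ ≤ η * R2 y := mul_le_mul_of_nonneg_left d1 hη.le

end Pool.Agent.H92.R
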