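import Pool.Agent.H92.R.PlusR
import Pool.Agent.H92.R.RowsPc
import Pool.Agent.H92.R.Dat2
import Pool.Agent.H92.I.Main

/-!
Isolated primes at the record scale in all classes.
-/

set_option autoImplicit false
set_option maxHeartbeats 4000000

namespace Pool.Agent.H92.R

open Finset Filter
open Pool.Agent.H262R3.Lk
open Pool.Agent.H92.G
open Pool.Agent.R529.LG (MM MM_pos MM_dvd leave_out)
open Pool.Agent.H92.I (Alone Iso find_s ev_z rows_fin minus_iso ne_iso)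

/-- the end of the last two cases -/
theorem endP {z N Q r t₀ y q a K : ℕ} {G Y : ℝ} (U : Finset ℕ) (hz : 17 ≤ z) (hYz : (z : ℝ) ^ 2 ≤ 3 * Y)
    (hYN : Y ≤ 2 * N * Q) (hNK : N ≤ z ^ K) (hQz : Q ≤ z) (hr : r < Q) (ht : t₀ ≤ z) (hy : y + 1 ≤ z)
    (hq : q ∣ Q) (hra : r + t₀ ≡ a [MOD q])
    (hal : ∀ m, y + 1 < m * Q → (∀ k ∈ U, k ≠ t₀ → ¬ (m * Q + (r + k)).Prime) → Alone G (m * Q + (r + t₀)))
    (hcnt : Real.sqrt Y ≤ (((Icc 1 ⌊3 * Y⌋₊).filter (fun n : ℕ => Y < n ∧ n.Prime ∧ n ≡ r + t₀ [MOD Q] ∧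
      ∀ k ∈ U, k ≠ t₀ → ¬ (n + k - t₀).Prime)).card : ℝ)) :
    (z : ℝ) ≤ ((Iso z (K + 2) q a G).card : ℝ) ^ 2 := by
  classical
  have hzr : (17 : ℝ) ≤ z := by exact_mod_cast hz
  have hz0 : (0 : ℝ) < z := by linarith
  have hY5 : 5 * (z : ℝ) ≤ Y := by nlinarith
  have hY0 : 0 < Y := by linarith
  have hsub : (Icc 1 ⌊3 * Y⌋₊).filter (fun n : ℕ => Y < n ∧ n.Prime ∧ n ≡ r + t₀ [MOD Q] ∧
      ∀ k ∈ U, k ≠ t₀ → ¬ (n + k - t₀).Prime) ⊆ Iso z (K + 2) q a G := by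
    intro n hn
    rw [mem_filter, mem_Icc] at hn
    obtain ⟨⟨_, n2⟩, n3, n4, n5, n6⟩ := hn
    have h5 : 5 * z < n := by
      have : (5 : ℝ) * z < n := by linarith
      exact_mod_cast this
    have hle : r + t₀ ≤ n := by omega
    obtain ⟨m, hm⟩ : ∃ m, n = m * Q + (r + t₀) := by
      obtain ⟨m, hm⟩ := (Nat.modEq_iff_dvd' hle).1 n5.symm
      refine ⟨m, ?_⟩
      rw [mul_comm] at hm
      omega
    unfold Iso
    rw [mem_filter, mem_Ioc]
    refine ⟨⟨by omega, ?_⟩, n4, (n5.of_dvd hq).trans hra, ?_⟩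
    · have h1 : (n : ℝ) ≤ 3 * Y := (Nat.cast_le.2 n2).trans (Nat.floor_le (by positivity))
      have h2 : (n : ℝ) ≤ ((6 * (z ^ K * z) : ℕ) : ℝ) := by
        push_cast
        have h3 : (N : ℝ) * Q ≤ (z : ℝ) ^ K * z := by
          have : N * Q ≤ z ^ K * z := Nat.mul_le_mul hNK hQz
          exact_mod_cast this
        linarith
      have h3 : n ≤ 6 * (z ^ K * z) := by exact_mod_cast h2
      refine h3.trans ?_
      calc 6 * (z ^ K * z) ≤ z * (z ^ K * z) := Nat.mul_le_mul_right _ (by omega)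
        _ = z ^ (K + 2) := by ring
    · rw [hm]
      apply hal m (by omega)
      intro k hk hkt hpr
      apply n6 k hk hkt
      have e : n + k - t₀ = m * Q + (r + k) := by omega
      rw [e]
      exact hpr
  have h1 : Real.sqrt Y ≤ ((Iso z (K + 2) q a G).card : ℝ) :=
    hcnt.trans (Nat.cast_le.2 (card_le_card hsub))
  have h2 : Y ≤ ((Iso z (K + 2) q a G).card : ℝ) ^ 2 := by
    rw [← Real.sq_sqrt hY0.le]
    exact pow_le_pow_left₀ (Real.sqrt_nonneg _) h1 2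
  linarith

/-- the conditions of the theorem on the sifted primes -/
theorem Ycond {z Q y t₀ : ℕ} {Y c₁ c₃ : ℝ} (hz : 17 ≤ z) (hYz : (z : ℝ) ^ 2 ≤ 3 * Y) (hQ : Q ^ 100 ≤ z)
    (hyl : (y : ℝ) ≤ Real.log z) (ht : t₀ ≤ y ^ 2) {U : Finset ℕ} (hU : ∀ k ∈ U, k ≤ y ^ 2)
    (hUc : (U.card : ℝ) ≤ c₁ * y) (hc₁ : 0 < c₁) (hcc : c₁ ≤ c₃) :
    (Q : ℝ) ≤ Y ^ (1 / 100 : ℝ) ∧ (t₀ : ℝ) ≤ (Real.log Y) ^ 2 ∧ (∀ k ∈ U, (k : ℝ) ≤ (Real.log Y) ^ 2) ∧
      (U.card : ℝ) ≤ c₃ * Real.log Y := by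
  have hzr : (17 : ℝ) ≤ z := by exact_mod_cast hz
  have hz0 : (0 : ℝ) < z := by linarith
  have hzY : (z : ℝ) ≤ Y := by nlinarith
  have hY0 : 0 < Y := by linarith
  have hlY : Real.log z ≤ Real.log Y := Real.log_le_log hz0 hzY
  have hyY : (y : ℝ) ≤ Real.log Y := hyl.trans hlY
  have hy2 : (y : ℝ) ^ 2 ≤ Real.log Y ^ 2 := pow_le_pow_left₀ (Nat.cast_nonneg y) hyY 2
  have hk : ∀ k : ℕ, k ≤ y ^ 2 → (k : ℝ) ≤ Real.log Y ^ 2 := by
    intro k hk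
    have : (k : ℝ) ≤ (y : ℝ) ^ 2 := by exact_mod_cast hk
    linarith
  refine ⟨?_, hk t₀ ht, fun k hk' => hk k (hU k hk'), ?_⟩
  · have h1 : (Q : ℝ) ^ 100 ≤ Y := by
      have : ((Q : ℝ)) ^ 100 ≤ z := by exact_mod_cast hQ
      linarith
    calc (Q : ℝ) = ((Q : ℝ) ^ 100) ^ (1 / 100 : ℝ) := by
          rw [← Real.rpow_natCast, ← Real.rpow_mul (Nat.cast_nonneg Q)]
          norm_num
      _ ≤ Y ^ (1 / 100 : ℝ) := Real.rpow_le_rpow (by positivity) h1 (by norm_num)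
  · calc (U.card : ℝ) ≤ c₁ * y := hUc
      _ ≤ c₃ * Real.log Y := mul_le_mul hcc hyY (Nat.cast_nonneg y) (by linarith)

theorem mainR : ∃ (K : ℕ) (c₁ : ℝ) (z0 : ℕ), 1 ≤ K ∧ 0 < c₁ ∧ ∀ z : ℕ, z0 ≤ z →
    ∀ y : ℕ, y = ⌊Real.log z / 400⌋₊ → ∀ q : ℕ, 0 < q → q ^ 200 ≤ z → ∀ a : ℕ, a.Coprime q →
    ∀ Gw : ℝ, (∀ p₀ : ℕ, p₀.Prime → Dta y q p₀ a c₁ Gw) →
    (z : ℝ) ≤ ((Iso z (K + 1) q a Gw).card : ℝ) ^ 2 := by
  classical
  obtain ⟨u1, s1, cp, hu1, hcp, hplus⟩ := plus_isoR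
  obtain ⟨u2, s2, ϑ2, cm, hu2, hϑ2, hcm, hminus⟩ := minus_iso
  obtain ⟨CR, hCR, hratU⟩ := ratio_up
  obtain ⟨c5m, hc5m, hrowm⟩ := rows_pc (cm / CR) (by positivity)
  obtain ⟨c3m, Ym, hc3m, hkillm⟩ := pc_kill c5m hc5m
  obtain ⟨G, δm, hG, hδm, hδm1, hlow⟩ := lowX
  obtain ⟨cL, hcL, hLlow⟩ := L_low
  obtain ⟨V, hV⟩ : ∃ V : ℕ, V = 16 * (u1 + 1) + 50 * u2 := ⟨_, rfl⟩
  have hV16 : 16 ≤ V := by omega
  obtain ⟨ϑ, hϑ⟩ : ∃ ϑ : ℝ, ϑ = min (1 / 8) ϑ2 := ⟨_, rfl⟩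
  have hϑ0 : 0 < ϑ := by rw [hϑ]; exact lt_min (by norm_num) hϑ2
  have hϑa : ϑ ≤ 1 / 8 := by rw [hϑ]; exact min_le_left _ _
  have hϑb : ϑ ≤ ϑ2 := by rw [hϑ]; exact min_le_right _ _
  obtain ⟨J, hJ⟩ := exists_nat_gt (G / ϑ)
  rw [div_lt_iff₀ hϑ0] at hJ
  have hVr : (0 : ℝ) < (V : ℝ) ^ J := by
    have : (0 : ℝ) < V := by
      have : 0 < V := by omega
      exact_mod_cast this
    positivity
  obtain ⟨δ, hδ⟩ : ∃ δ : ℝ, δ = min δm (1 / (V : ℝ) ^ J) := ⟨_, rfl⟩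
  have hδ0 : 0 < δ := by rw [hδ]; exact lt_min hδm (by positivity)
  have hδa : δ ≤ δm := by rw [hδ]; exact min_le_left _ _
  have hδb : δ * (V : ℝ) ^ J ≤ 1 := by
    have h1 : δ ≤ 1 / (V : ℝ) ^ J := by rw [hδ]; exact min_le_right _ _
    rw [le_div_iff₀ hVr] at h1
    exact h1
  obtain ⟨c1, hc1, hdich⟩ := hlow δ hδ0 hδa
  obtain ⟨A3, cn, M3, hcn, hne⟩ := ne_iso c1 δ hc1 hδ0
  obtain ⟨c5n, hc5n, hrown⟩ := rows_pc cn hcn
  obtain ⟨c3n, Yn, hc3n, hkilln⟩ := pc_kill c5n hc5n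
  obtain ⟨c₁, hc₁⟩ : ∃ c₁ : ℝ, c₁ = min cp (min c3m c3n) := ⟨_, rfl⟩
  have hc₁0 : 0 < c₁ := by rw [hc₁]; exact lt_min hcp (lt_min hc3m hc3n)
  have hc₁a : c₁ ≤ cp := by rw [hc₁]; exact min_le_left _ _
  have hc₁b : c₁ ≤ c3m := by rw [hc₁]; exact (min_le_right _ _).trans (min_le_left _ _)
  have hc₁c : c₁ ≤ c3n := by rw [hc₁]; exact (min_le_right _ _).trans (min_le_right _ _)
  obtain ⟨ze, hze⟩ := eventually_atTop.1 (ev_z 100)
  obtain ⟨zy, hzy⟩ := yfacts (s1 + s2 + 100)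
  obtain ⟨K0, hK0⟩ : ∃ K0 : ℕ, K0 = A3 + 2 * V ^ J * V + 1 := ⟨_, rfl⟩
  refine ⟨K0 + 1, c₁, ze + zy + M3 + s1 + s2 + 100 + ⌈1 / cL⌉₊ + ⌈Ym⌉₊ + ⌈Yn⌉₊, by omega, hc₁0, ?_⟩
  intro z hz y hyd q hq hqz a ha Gw hdat
  obtain ⟨f1, f2, f3, f4, f5⟩ := hzy z (by omega) y hyd
  obtain ⟨ev1, ev2, ev3⟩ := hze z (by omega)
  have hz17 : 17 ≤ z := by omega
  have hzr : (17 : ℝ) ≤ z := by exact_mod_cast hz17
  have hz0 : (0 : ℝ) < z := by linarith
  have hy2 : y ^ 2 ≤ z := by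
    have h1 : (y : ℝ) ≤ Real.log z := by linarith
    have h2 : (y : ℝ) ^ 2 ≤ (Real.log z) ^ 2 := pow_le_pow_left₀ (Nat.cast_nonneg y) h1 2
    have h3 : (y : ℝ) ^ 2 ≤ z := by linarith
    exact_mod_cast h3
  have hyz : y + 1 ≤ z := by
    have : y * 2 ≤ y ^ 2 := by rw [sq]; exact Nat.mul_le_mul_left _ (by omega)
    omega
  have hylz : (y : ℝ) ≤ Real.log z := by linarith
  have hly0 : 0 < Real.log y := by linarith
  have hKK : K0 + 2 ≤ K0 + 1 + 1 := le_rfl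
  have hYmz : Ym ≤ z := by
    have h1 : Ym ≤ ⌈Ym⌉₊ := Nat.le_ceil _
    have h2 : ((⌈Ym⌉₊ : ℕ) : ℝ) ≤ z := by exact_mod_cast (by omega : ⌈Ym⌉₊ ≤ z)
    linarith
  have hYnz : Yn ≤ z := by
    have h1 : Yn ≤ ⌈Yn⌉₊ := Nat.le_ceil _
    have h2 : ((⌈Yn⌉₊ : ℕ) : ℝ) ≤ z := by exact_mod_cast (by omega : ⌈Yn⌉₊ ≤ z)
    linarith
  obtain ⟨zL, hzL⟩ : ∃ zL : ℕ, zL = z ^ 32 := ⟨_, rfl⟩
  have hzL32 : 32 ≤ zL := by
    rw [hzL]
    calc 32 ≤ 17 ^ 32 := by norm_num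
      _ ≤ z ^ 32 := Nat.pow_le_pow_left hz17 32
  obtain ⟨huniq, hgood, hexc⟩ := hdich zL hzL32
  have hK1 : 1 ≤ K0 := by omega
  by_cases hex : ∃ f, LOW.Exc zL δ f ∧ f ∣ q
  · -- the exceptional modulus divides `q`
    obtain ⟨f, hf, hfq⟩ := hex
    have hf1 : 1 < f := hf.1
    have : NeZero f := ⟨by omega⟩
    obtain ⟨ψ, hψp, hψ2, hψs⟩ := hexc f hf
    have hψ1 : ψ ≠ 1 := LOW.primitive_ne_one hf1 hψp
    obtain ⟨χ, hχ, hψχ, hTe⟩ := chr_of ψ hψ1 hψ2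
    obtain ⟨s, hs2, hsV, hfilt⟩ := find_s (M := z) (V := V) (J := J) (G := G) (ϑ := ϑ) (δ := δ) hz17 hV16 hδ0 hδb hJ χ hzL
      (fun S hS => hψs S fun p hp => ⟨(hS p hp).1, (hS p hp).2.1, (hS p hp).2.2.1, by
        rw [hψχ, (hS p hp).2.2.2, Complex.ofReal_one]⟩)
    have hzs : z ≤ s := (Nat.le_self_pow (by norm_num) z).trans hs2
    obtain ⟨p₀, hp₀y, hp₀⟩ := Nat.exists_infinite_primes (y + 1)
    obtain ⟨r, t₀, U, hr, hra, hco, hyt, hty, hUy, hU, hal⟩ := hdat p₀ hp₀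
    obtain ⟨hQ0, hQ100, hQy, hQsum⟩ := Qfacts2 (p₀ := p₀) hyd f1 f2 hq hqz
    obtain ⟨Q, hQd⟩ : ∃ Q, Q = q * MM y q p₀ := ⟨_, rfl⟩
    rw [← hQd] at hr hco hal hQ0 hQ100 hQy hQsum
    have hqQ : q ∣ Q := by rw [hQd]; exact Dvd.intro _ rfl
    have hQz : Q ≤ z := (Nat.le_self_pow (by norm_num) Q).trans hQ100
    have hQs : Q ≤ s := hQz.trans hzs
    have hfQ : f ∣ Q := hfq.trans hqQ
    have hfle : f ≤ z := (Nat.le_of_dvd hQ0 hfQ).trans hQz
    have hall : ∀ p : ℕ, p.Prime → p ≤ y → p ∣ Q := fun p hp hpy => hQy p hp hpy (by omega)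
    have hbf : (r + t₀).Coprime f := Nat.Coprime.coprime_dvd_right hfQ hco
    have hlogs : Real.log z ≤ Real.log s := Real.log_le_log hz0 (by exact_mod_cast hzs)
    have hyls : (y : ℝ) ≤ Real.log s := hylz.trans hlogs
    rcases hχ.val (r + t₀) hbf with hχb | hχb
    · -- `χ = 1`
      obtain ⟨d, hd⟩ : ∃ d, d = (r + t₀) / Q := ⟨_, rfl⟩
      obtain ⟨b, hb⟩ : ∃ b, b = (r + t₀) % Q := ⟨_, rfl⟩
      have hrd : r + t₀ = Q * d + b := by rw [hd, hb]; exact (Nat.div_add_mod _ _).symm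
      have hbQ : b < Q := by rw [hb]; exact Nat.mod_lt _ hQ0
      have hbco : b.Coprime Q := by
        rw [hrd, Nat.coprime_iff_gcd_eq_one, Nat.gcd_comm, add_comm, Nat.gcd_add_mul_left_right, Nat.gcd_comm] at hco
        exact hco
      have hQ1 : 1 < Q := lt_of_lt_of_le hf1 (Nat.le_of_dvd hQ0 hfQ)
      have hb1 : 1 ≤ b := by
        rcases Nat.eq_zero_or_pos b with h | h
        · rw [h, Nat.coprime_zero_left] at hbco
          omega
        · exact h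
      have hχb1 : χ b = 1 := by
        rw [← hχb]
        apply hχ.per
        rw [hrd]
        have h1 : Q * d ≡ 0 [MOD f] := Nat.modEq_zero_iff_dvd.2 (hfQ.mul_right d)
        have h2 := (h1.add_right b).symm
        rwa [zero_add] at h2
      have hLs : 1 / (s : ℝ) ≤ ‖ψ.LFunction 1‖ := by
        refine le_trans ?_ (hLlow f ψ hψp hψ2 hψ1)
        have hs0 : (0 : ℝ) < s := by
          have : 0 < s := by omega
          exact_mod_cast this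
        have hf0 : (0 : ℝ) < f := by
          have : 0 < f := by omega
          exact_mod_cast this
        rw [div_le_div_iff₀ hs0 hf0, one_mul]
        have h1 : (f : ℝ) ≤ z := by exact_mod_cast hfle
        have h2 : 1 / cL ≤ z := by
          have h3 : (1 / cL : ℝ) ≤ ⌈1 / cL⌉₊ := Nat.le_ceil _
          have h4 : ((⌈1 / cL⌉₊ : ℕ) : ℝ) ≤ z := by
            have : ⌈1 / cL⌉₊ ≤ z := by omega
            exact_mod_cast this
          linarith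
        have h3 : (z : ℝ) ^ 2 ≤ s := by exact_mod_cast hs2
        rw [div_le_iff₀ hcL] at h2
        calc (f : ℝ) ≤ 1 * z := by rw [one_mul]; exact h1
          _ ≤ (z * cL) * z := mul_le_mul_of_nonneg_right h2 hz0.le
          _ = cL * (z : ℝ) ^ 2 := by ring
          _ ≤ cL * s := mul_le_mul_of_nonneg_left h3 hcL.le
      have hls2 : (y : ℝ) ^ 2 ≤ Real.log s ^ 2 := pow_le_pow_left₀ (Nat.cast_nonneg y) hyls 2
      have hkk : ∀ k : ℕ, k ≤ y ^ 2 → (k : ℝ) ≤ Real.log s ^ 2 := by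
        intro k hk
        have : (k : ℝ) ≤ (y : ℝ) ^ 2 := by exact_mod_cast hk
        linarith
      have hcnt := hplus s (by omega) f χ _ hχ hTe hLs Q b hQ0 hQs hb1 hbQ.le hbco hfQ hχb1
        ((hfilt (16 * (u1 + 1)) (by omega)).trans hϑa) y (by omega) hall t₀ U (hkk t₀ hty) (fun k hk => hkk k (hUy k hk))
        (hU.trans (mul_le_mul hc₁a hyls (Nat.cast_nonneg y) hcp.le))
      obtain ⟨N, hN⟩ : ∃ N : ℕ, N = s ^ (16 * u1) := ⟨_, rfl⟩
      rw [← hN] at hcnt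
      obtain ⟨S', hS'⟩ : ∃ S' : Finset ℕ, S' = (Icc 1 N).filter (fun n => N < n * n ∧ (Q * n + b).Prime ∧
        ∀ k ∈ U, k ≠ t₀ → ¬ (Q * n + b + k - t₀).Prime) := ⟨_, rfl⟩
      rw [← hS'] at hcnt
      have hdz : d ≤ 2 * z := by
        have h1 : d ≤ r + t₀ := by rw [hd]; exact Nat.div_le_self _ _
        omega
      have hnz : ∀ n ∈ S', d + z < n := by
        intro n hn
        rw [hS', mem_filter] at hn
        by_contra hcon
        push Not at hcon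
        have h1 : n ≤ s ^ 2 := by
          have h2 : z * z ≤ s := by rw [← sq]; exact hs2
          have h3 : 17 * z ≤ z * z := Nat.mul_le_mul_right _ hz17
          have h4 : s ≤ s ^ 2 := Nat.le_self_pow (by norm_num) s
          omega
        have h2 : n * n ≤ s ^ 2 * s ^ 2 := Nat.mul_le_mul h1 h1
        have h3 : s ^ 2 * s ^ 2 ≤ N := by
          rw [hN, ← pow_add]
          exact Nat.pow_le_pow_right (by omega) (by omega)
        omega
      have hinj : Set.InjOn (fun n => n - d) (S' : Set ℕ) := by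
        intro n hn n' hn' h
        rw [mem_coe] at hn hn'
        have h1 := hnz n hn
        have h2 := hnz n' hn'
        simp only at h
        omega
      have hfin := rows_fin (S := S'.image (fun n => n - d)) (N := N) (K := K0) (K' := K0 + 1 + 1) (G := Gw) (y := y)
        (z := z) (Q := Q) (r := r) (t₀ := t₀) (q := q) (a := a)
        (by omega) ?_ hK1 hKK hQ0 hQz hr (by omega) hyz hqQ hra ?_
      · rw [card_image_of_injOn hinj] at hfin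
        have h1 : (s : ℝ) ^ (8 * u1) ≤ ((Iso z (K0 + 1 + 1) q a Gw).card : ℝ) :=
          hcnt.trans (by exact_mod_cast hfin)
        have hs1r : (1 : ℝ) ≤ s := by
          have : 1 ≤ s := by omega
          exact_mod_cast this
        have h2 : (z : ℝ) ≤ (s : ℝ) ^ (8 * u1) := by
          calc (z : ℝ) ≤ s := by exact_mod_cast hzs
            _ ≤ _ := le_self_pow₀ hs1r (by omega)
        have h3 : (1 : ℝ) ≤ ((Iso z (K0 + 1 + 1) q a Gw).card : ℝ) := by linarith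
        calc (z : ℝ) ≤ ((Iso z (K0 + 1 + 1) q a Gw).card : ℝ) := h2.trans h1
          _ ≤ _ := le_self_pow₀ h3 (by norm_num)
      · calc N = s ^ (16 * u1) := hN
          _ ≤ s ^ V := Nat.pow_le_pow_right (by omega) (by omega)
          _ ≤ z ^ (2 * V ^ J * V) := hsV
          _ ≤ z ^ K0 := Nat.pow_le_pow_right (by omega) (by omega)
      · intro m hm
        rw [mem_image] at hm
        obtain ⟨n, hn, rfl⟩ := hm
        have h1 := hnz n hn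
        rw [hS', mem_filter, mem_Icc] at hn
        obtain ⟨⟨n1, n2⟩, n3, n4, n5⟩ := hn
        have e1 : (n - d) * Q + (r + t₀) = Q * n + b := by
          rw [hrd]
          obtain ⟨m, hm⟩ : ∃ m, n = m + d := ⟨n - d, by omega⟩
          rw [hm, Nat.add_sub_cancel]
          ring
        refine ⟨by omega, by omega, by rw [e1]; exact n4, fun h => hal _ h fun k hk hkt hpr => n5 k hk hkt ?_⟩
        have e2 : Q * n + b + k - t₀ = (n - d) * Q + (r + k) := by omega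
        rw [e2]
        exact hpr
    · -- `χ = -1`
      obtain ⟨N, hN⟩ : ∃ N : ℕ, N = s ^ (50 * u2) := ⟨_, rfl⟩
      have hcnt := hminus s (by omega) f χ hχ Q (r + t₀) hQ0 hQs (by omega) (by omega) hco hfQ hχb
        ((hfilt (50 * u2) (by omega)).trans hϑb) y (by omega) (by omega) (by omega) hall
      rw [← hN] at hcnt
      have hs4N : s ^ 2 ≤ N := by rw [hN]; exact Nat.pow_le_pow_right (by omega) (by omega)
      have hz4N : z ^ 4 ≤ N := by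
        calc z ^ 4 = (z ^ 2) ^ 2 := by ring
          _ ≤ s ^ 2 := Nat.pow_le_pow_left hs2 2
          _ ≤ N := hs4N
      have hzN : z ≤ N := (Nat.le_self_pow (by norm_num) z).trans hz4N
      have hlN0 : 0 < Real.log N := Real.log_pos (by exact_mod_cast (by omega : 1 < N))
      have hφ0 : (0 : ℝ) < Q.totient := by exact_mod_cast Nat.totient_pos.2 hQ0
      have hrat := hratU y Q (by omega) hQ0 hQsum
      have hcnt' : cm / CR * (N * ((Q : ℝ) / Q.totient / Real.log N)) ≤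
          (((Icc 1 N).filter (fun m => N < m * m ∧ (m * Q + (r + t₀)).Prime)).card : ℝ) := by
        refine le_trans ?_ hcnt
        calc cm / CR * (N * ((Q : ℝ) / Q.totient / Real.log N)) ≤
            cm / CR * (N * (CR * Real.log y / Real.log N)) := by gcongr
          _ = cm * (N * (Real.log y / Real.log N)) := by field_simp
      have hbN : r + t₀ ≤ N * Q := by
        have h1 : N ≤ N * Q := Nat.le_mul_of_pos_right N hQ0
        have h2 : 2 * z ≤ z ^ 4 := by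
          calc 2 * z ≤ z ^ 3 * z := Nat.mul_le_mul_right _ (by
                calc 2 ≤ 17 ^ 3 := by norm_num
                  _ ≤ z ^ 3 := Nat.pow_le_pow_left hz17 3)
            _ = z ^ 4 := by ring
        omega
      obtain ⟨Y, hY1, hY2, hY3⟩ := hrowm N Q (r + t₀) (by omega) hQ0 hbN hcnt'
      have hYz : (z : ℝ) ^ 2 ≤ 3 * Y := by
        refine le_trans ?_ hY1
        apply Real.le_sqrt_of_sq_le
        calc ((z : ℝ) ^ 2) ^ 2 = (z : ℝ) ^ 4 := by ring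
          _ ≤ (N : ℝ) := by exact_mod_cast hz4N
      have hzY : (z : ℝ) ≤ Y := by nlinarith
      obtain ⟨k1, k2, k3, k4⟩ := Ycond hz17 hYz hQ100 hylz hty hUy hU hc₁0 hc₁b
      have hkc := hkillm Y (hYmz.trans hzY) Q (r + t₀) hQ0 k1 hco hY3 t₀ U k2 k3 k4
      exact endP U hz17 hYz hY2 (by
        calc N = s ^ (50 * u2) := hN
          _ ≤ s ^ V := Nat.pow_le_pow_right (by omega) (by omega)
          _ ≤ z ^ (2 * V ^ J * V) := hsV
          _ ≤ z ^ K0 := Nat.pow_le_pow_right (by omega) (by omega)) hQz hr (by omega) hyz hqQ hra hal hkc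
  · -- no exceptional modulus
    push Not at hex
    obtain ⟨p₀, hp₀, hnd⟩ : ∃ p₀ : ℕ, p₀.Prime ∧ ∀ f, LOW.Exc zL δ f → ¬ f ∣ q * MM y q p₀ := by
      by_cases hE : ∃ f, LOW.Exc zL δ f
      · obtain ⟨f, hf⟩ := hE
        obtain ⟨p₀, hp₀, h1⟩ := leave_out (q₁ := f) (q := q) (by have := hf.1; omega) hq.ne' (hex f hf)
        refine ⟨p₀, hp₀, fun g hg => ?_⟩
        rw [huniq g f hg hf]
        exact h1 _ (MM_pos y q p₀).ne' (fun h => ((MM_dvd hp₀).1 h).2.2 rfl)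
      · exact ⟨2, Nat.prime_two, fun f hf => absurd ⟨f, hf⟩ hE⟩
    obtain ⟨r, t₀, U, hr, hra, hco, hyt, hty, hUy, hU, hal⟩ := hdat p₀ hp₀
    obtain ⟨hQ0, hQ100, hQy, hQsum⟩ := Qfacts2 (p₀ := p₀) hyd f1 f2 hq hqz
    obtain ⟨Q, hQd⟩ : ∃ Q, Q = q * MM y q p₀ := ⟨_, rfl⟩
    rw [← hQd] at hr hco hal hQ0 hQ100 hQy hQsum
    have hqQ : q ∣ Q := by rw [hQd]; exact Dvd.intro _ rfl
    have hQz : Q ≤ z := (Nat.le_self_pow (by norm_num) Q).trans hQ100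
    have hQ16L : Q ^ 16 ≤ zL := by
      calc Q ^ 16 ≤ Q ^ 100 := Nat.pow_le_pow_right hQ0 (by norm_num)
        _ ≤ z := hQ100
        _ ≤ zL := by rw [hzL]; exact Nat.le_self_pow (by norm_num) z
    have hndQ : ∀ f, LOW.Exc zL δ f → ¬ f ∣ Q := by
      intro f hf
      rw [hQd]
      exact hnd f hf
    obtain ⟨N, hN1, hN2, hcnt⟩ := hne z (by omega) Q (r + t₀) hQ0 hQz (by omega) hco (by
      intro χ hχ σ hσ hσL
      rw [← hzL] at hσL ⊢
      exact hgood Q hQ0 hQ16L hndQ χ hχ σ hσ hσL)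
    have hbN : r + t₀ ≤ N * Q := by
      have h1 : N ≤ N * Q := Nat.le_mul_of_pos_right N hQ0
      have h2 : 2 * z ≤ z ^ 4 := by
        calc 2 * z ≤ z ^ 3 * z := Nat.mul_le_mul_right _ (by
              calc 2 ≤ 17 ^ 3 := by norm_num
                _ ≤ z ^ 3 := Nat.pow_le_pow_left hz17 3)
          _ = z ^ 4 := by ring
      omega
    have hzN : z ≤ N := (Nat.le_self_pow (by norm_num) z).trans hN1
    obtain ⟨Y, hY1, hY2, hY3⟩ := hrown N Q (r + t₀) (by omega) hQ0 hbN hcnt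
    have hYz : (z : ℝ) ^ 2 ≤ 3 * Y := by
      refine le_trans ?_ hY1
      apply Real.le_sqrt_of_sq_le
      calc ((z : ℝ) ^ 2) ^ 2 = (z : ℝ) ^ 4 := by ring
        _ ≤ (N : ℝ) := by exact_mod_cast hN1
    have hzY : (z : ℝ) ≤ Y := by nlinarith
    obtain ⟨k1, k2, k3, k4⟩ := Ycond hz17 hYz hQ100 hylz hty hUy hU hc₁0 hc₁c
    have hkc := hkilln Y (hYnz.trans hzY) Q (r + t₀) hQ0 k1 hco hY3 t₀ U k2 k3 k4
    exact endP U hz17 hYz hY2 (hN2.trans (Nat.pow_le_pow_right (by omega) (by omega))) hQz hr (by omega) hyz hqQ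
      hra hal hkc

end Pool.Agent.H92.R
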