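import Pool.Agent.H92.R.Core
import Pool.Agent.H92.I.NE

set_option autoImplicit false
set_option maxHeartbeats 4000000

/-! The repelling weights on the primes of a class which has many primes. -/

open Finset Filter

namespace Pool.Agent.H92.R

open Pool.Agent.H378R2
open Pool.Agent.H378R2.LSBV (TT TT_nonneg)
open Pool.Agent.H312R2.RG
open Pool.Agent.H256R2.SC (Col emb colr Lv emb_mem emb_surj colr_eq qq EE ind)
open Pool.Agent.H262R3.Lk (pc)

/-- the sum over the sets of medium primes is part of the sum over the moduli -/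
theorem part_ls {X : ℝ} (hX : 4 ≤ X) {PP : Finset ℕ} (hP : ∀ p ∈ PP, p.Prime) {Q : ℕ} (_hQ : 0 < Q)
    (hQX : (Q : ℝ) ≤ X ^ (1 / 100 : ℝ)) (hdis : ∀ p ∈ PP, ¬ p ∣ Q) (E : Finset (Fin PP.card) → ℝ) (e : ℝ)
    (hE : ∀ s, s.Nonempty → E s ≤ e) (he : 0 ≤ e) :
    ∑ s ∈ (univ : Finset (Fin PP.card)).powerset.filter
        (fun s => s.Nonempty ∧ Disjoint s (∅ : Finset (Fin PP.card)) ∧ ∏ i ∈ s, pP PP i ≤ X ^ (1 / 100 : ℝ)),
        E s * ∑ f ∈ Q.divisors, TT X (f * ∏ i ∈ s, emb PP i) ≤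
      e * ∑ n ∈ Icc 2 ⌊X ^ (1 / 50 : ℝ)⌋₊, TT X n := by
  classical
  obtain ⟨Sf, hSf⟩ : ∃ Sf : Finset (Finset (Fin PP.card)), Sf = (univ : Finset (Fin PP.card)).powerset.filter
        (fun s => s.Nonempty ∧ Disjoint s (∅ : Finset (Fin PP.card)) ∧ ∏ i ∈ s, pP PP i ≤ X ^ (1 / 100 : ℝ)) := ⟨_, rfl⟩
  have h0 : (univ : Finset (Fin PP.card)).powerset.filter
        (fun s => s.Nonempty ∧ Disjoint s (∅ : Finset (Fin PP.card)) ∧ ∏ i ∈ s, pP PP i ≤ X ^ (1 / 100 : ℝ)) = Sf := by
    rw [hSf]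
  have h1 : ∑ s ∈ Sf, E s * ∑ f ∈ Q.divisors, TT X (f * ∏ i ∈ s, emb PP i) ≤
      ∑ s ∈ Sf, e * ∑ f ∈ Q.divisors, TT X (f * ∏ i ∈ s, emb PP i) := by
    apply sum_le_sum
    intro s hs
    rw [hSf, mem_filter] at hs
    exact mul_le_mul_of_nonneg_right (hE s hs.2.1) (sum_nonneg fun f _ => TT_nonneg X _)
  rw [h0]
  refine h1.trans ?_
  rw [← mul_sum]
  apply mul_le_mul_of_nonneg_left _ he
  rw [← sum_product' Sf Q.divisors (fun s f => TT X (f * ∏ i ∈ s, emb PP i))]
  have hdv : ∀ f ∈ Q.divisors, ∀ s : Finset (Fin PP.card), ∀ i, (emb PP i : ℕ) ∣ f * ∏ j ∈ s, (emb PP j : ℕ) ↔ i ∈ s := by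
    intro f hf s i
    have hp := hP _ (emb_mem PP i)
    rw [hp.dvd_mul, prod_emb_primeFactors hP]
    constructor
    · rintro (h | h)
      · exact absurd (h.trans (Nat.dvd_of_mem_divisors hf)) (hdis _ (emb_mem PP i))
      · exact h
    · intro h
      exact Or.inr h
  have hinj : Set.InjOn (fun x : Finset (Fin PP.card) × ℕ => x.2 * ∏ i ∈ x.1, (emb PP i : ℕ))
      (Sf ×ˢ Q.divisors : Finset (Finset (Fin PP.card) × ℕ)) := by
    rintro ⟨s, f⟩ h2 ⟨s', f'⟩ h2' h3
    rw [mem_coe, mem_product] at h2 h2'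
    simp only at h2 h2' h3
    have h4 : s = s' := by
      ext i
      rw [← hdv f h2.2 s i, ← hdv f' h2'.2 s' i, h3]
    subst h4
    have h5 : 0 < ∏ i ∈ s, (emb PP i : ℕ) := prod_pos fun i _ => (hP _ (emb_mem PP i)).pos
    rw [Nat.eq_of_mul_eq_mul_right h5 h3]
  rw [← sum_image (f := fun n => TT X n) hinj]
  apply sum_le_sum_of_subset_of_nonneg
  · intro n hn
    rw [mem_image] at hn
    obtain ⟨⟨s, f⟩, h2, rfl⟩ := hn
    rw [mem_product] at h2
    simp only at h2 ⊢
    obtain ⟨h3, h4⟩ := h2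
    rw [hSf, mem_filter] at h3
    obtain ⟨_, ⟨i, hi⟩, _, h6⟩ := h3
    have hf0 : 0 < f := Nat.pos_of_mem_divisors h4
    have hpp : 0 < ∏ i ∈ s, (emb PP i : ℕ) := prod_pos fun i _ => (hP _ (emb_mem PP i)).pos
    rw [mem_Icc]
    refine ⟨?_, ?_⟩
    · have h7 : (emb PP i : ℕ) ≤ ∏ j ∈ s, (emb PP j : ℕ) := Nat.le_of_dvd hpp (dvd_prod_of_mem _ hi)
      have h8 := (hP _ (emb_mem PP i)).two_le
      calc 2 ≤ ∏ j ∈ s, (emb PP j : ℕ) := h8.trans h7
        _ ≤ f * ∏ j ∈ s, (emb PP j : ℕ) := Nat.le_mul_of_pos_left _ hf0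
    · apply Nat.le_floor
      rw [Nat.cast_mul, prod_emb_cast]
      have hfQ : (f : ℝ) ≤ Q := by exact_mod_cast Nat.divisor_le h4
      have h9 : (0 : ℝ) ≤ X ^ (1 / 100 : ℝ) := by positivity
      calc (f : ℝ) * ∏ i ∈ s, pP PP i ≤ X ^ (1 / 100 : ℝ) * X ^ (1 / 100 : ℝ) := by
            apply mul_le_mul (hfQ.trans hQX) h6 _ h9
            rw [← prod_emb_cast]
            exact Nat.cast_nonneg _
        _ = X ^ (1 / 50 : ℝ) := by
            rw [← Real.rpow_add (by linarith)]
            norm_num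
  · intro n _ _
    exact TT_nonneg X n

theorem Lv_le {n : ℕ} {κ : Type} [Fintype κ] [DecidableEq κ] {p : Fin n → ℝ} {Q B : ℝ} {F : Col n κ → ℝ}
    (h : Lv p Q B F) (x : Col n κ) : |F x| ≤ B := by
  obtain ⟨f, h1, h2, _⟩ := h
  rw [h1]
  refine (abs_sum_le_sum_abs _ _).trans (le_trans ?_ h2)
  apply sum_le_sum
  intro D _
  rw [abs_mul]
  have h3 : |ind D x| ≤ 1 := by
    unfold ind
    split_ifs <;> simp
  calc |f D| * |ind D x| ≤ |f D| * 1 := mul_le_mul_of_nonneg_left h3 (abs_nonneg _)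
    _ = _ := mul_one _

theorem cut_empty {n : ℕ} {κ : Type} [Fintype κ] [DecidableEq κ] (x : Col n κ) : cut ∅ x = x := by
  funext i
  unfold cut
  simp

theorem card_pf (Q : ℕ) (hQ : 0 < Q) : (Q.primeFactors.card : ℝ) * (1 / 2) ≤ Real.log Q := by
  have h1 : 2 ^ Q.primeFactors.card ≤ Q := by
    calc 2 ^ Q.primeFactors.card ≤ ∏ p ∈ Q.primeFactors, p := by
          apply pow_card_le_prod
          intro p hp
          exact (Nat.prime_of_mem_primeFactors hp).two_le
      _ ≤ Q := Nat.le_of_dvd hQ (Nat.prod_primeFactors_dvd Q)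
  have h2 := Real.log_le_log (by positivity) (show ((2 : ℝ) ^ Q.primeFactors.card) ≤ Q by exact_mod_cast h1)
  rw [Real.log_pow] at h2
  have h3 := Real.log_two_gt_d9
  have h4 : (0 : ℝ) ≤ Q.primeFactors.card := Nat.cast_nonneg _
  nlinarith

theorem pc_kill (c5 : ℝ) (hc5 : 0 < c5) : ∃ c₃ Y0 : ℝ, 0 < c₃ ∧ ∀ Y : ℝ, Y0 ≤ Y → ∀ Q b : ℕ, 0 < Q →
    (Q : ℝ) ≤ Y ^ (1 / 100 : ℝ) → b.Coprime Q → c5 / (Q.totient : ℝ) ≤ pc Y Q b / Y →
    ∀ (t₀ : ℕ) (U : Finset ℕ), (t₀ : ℝ) ≤ (Real.log Y) ^ 2 → (∀ k ∈ U, (k : ℝ) ≤ (Real.log Y) ^ 2) →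
    (U.card : ℝ) ≤ c₃ * Real.log Y →
    Real.sqrt Y ≤ (((Icc 1 ⌊3 * Y⌋₊).filter (fun n : ℕ => Y < n ∧ n.Prime ∧ n ≡ b [MOD Q] ∧
      ∀ k ∈ U, k ≠ t₀ → ¬ (n + k - t₀).Prime)).card : ℝ) := by
  classical
  obtain ⟨A, c₃, hA4, hc₃, hc₃1, hcore⟩ := core 40
  obtain ⟨C, X0, hls⟩ := ls_sum
  have h9 : ∀ᶠ X : ℝ in atTop, Real.log X ≤ X ^ (1 / 100 : ℝ) := by
    have h1 := (isLittleO_log_rpow_atTop (r := (1 / 100 : ℝ)) (by norm_num)).bound (show (0 : ℝ) < 1 by norm_num)
    filter_upwards [h1, eventually_ge_atTop 1] with X h2 h3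
    rw [Real.norm_of_nonneg (Real.log_nonneg h3), Real.norm_of_nonneg (by positivity)] at h2
    linarith
  obtain ⟨Y0, hY0⟩ := eventually_atTop.1 (hcore.and (h9.and ((eventually_ge_atTop (max X0 4)).and
    ((Real.tendsto_log_atTop.eventually_ge_atTop (max 100 (max (2 / c₃) (64 * (|C| + 1) / c5)))).and
      ((tendsto_rpow_atTop (show (0 : ℝ) < 1 / 100 by norm_num)).eventually_ge_atTop (max 2 (200 / c5)))))))
  refine ⟨c₃ / 2, Y0, by positivity, ?_⟩
  intro Y hY Q b hQ hQY hb hpc t₀ U ht₀ hU hUc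
  obtain ⟨hc, hlt, hX4, hLL, htt⟩ := hY0 Y hY
  have hYX0 : X0 ≤ Y := (le_max_left _ _).trans hX4
  have hY4 : 4 ≤ Y := (le_max_right _ _).trans hX4
  have hYp : 0 < Y := by linarith
  obtain ⟨L, hLd⟩ : ∃ L : ℝ, L = Real.log Y := ⟨_, rfl⟩
  rw [← hLd] at hlt hLL ht₀ hU hUc
  have hL100 : 100 ≤ L := (le_max_left _ _).trans hLL
  have hLc : 2 / c₃ ≤ L := (le_max_left _ _).trans ((le_max_right _ _).trans hLL)
  have hLC : 64 * (|C| + 1) / c5 ≤ L := (le_max_right _ _).trans ((le_max_right _ _).trans hLL)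
  have hL0 : 0 < L := by linarith
  obtain ⟨t, ht⟩ : ∃ t : ℝ, t = Y ^ (1 / 100 : ℝ) := ⟨_, rfl⟩
  have ht2 : 2 ≤ t := by rw [ht]; exact (le_max_left _ _).trans htt
  have htc : 200 / c5 ≤ t := by rw [ht]; exact (le_max_right _ _).trans htt
  have ht0 : 0 < t := by linarith
  have hYt : Y = t ^ 100 := by
    rw [ht, ← Real.rpow_natCast, ← Real.rpow_mul hYp.le]
    norm_num
  have hLt : L ≤ t := by rw [ht]; exact hlt
  -- the shifts
  obtain ⟨U', hU'⟩ : ∃ U' : Finset ℕ, U' = insert (t₀ + 1) (U.erase t₀) := ⟨_, rfl⟩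
  have hU'ne : U'.Nonempty := by rw [hU']; exact insert_nonempty _ _
  have hU'c : (U'.card : ℝ) ≤ c₃ * L := by
    have h1 : U'.card ≤ U.card + 1 := by
      rw [hU']
      exact (card_insert_le _ _).trans (Nat.add_le_add_right (card_le_card (erase_subset _ _)) 1)
    have h2 : (U'.card : ℝ) ≤ U.card + 1 := by exact_mod_cast h1
    have h3 : 1 ≤ c₃ / 2 * L := by
      rw [div_le_iff₀ hc₃] at hLc
      linarith
    linarith
  have hU'm : ∀ k ∈ U', k ≠ t₀ ∧ (k : ℝ) ≤ L ^ 2 + 1 := by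
    intro k hk
    rw [hU', mem_insert, mem_erase] at hk
    rcases hk with h | ⟨h1, h2⟩
    · rw [h]
      push_cast
      exact ⟨by omega, by linarith⟩
    · exact ⟨h1, by linarith [hU k h2]⟩
  have hpf : 2 * (Q.primeFactors.card : ℝ) ≤ (Real.log Y) ^ 4 := by
    have h1 := card_pf Q hQ
    have hQ0 : (0 : ℝ) < Q := by exact_mod_cast hQ
    have h2 : Real.log Q ≤ L := by
      rw [hLd]
      apply Real.log_le_log hQ0
      refine hQY.trans ?_
      calc Y ^ (1 / 100 : ℝ) ≤ Y ^ (1 : ℝ) := Real.rpow_le_rpow_of_exponent_le (by linarith) (by norm_num)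
        _ = Y := Real.rpow_one Y
    rw [← hLd]
    have h3 : 4 * L ≤ L ^ 4 := by
      have : L ^ 4 = L * L ^ 3 := by ring
      rw [this, mul_comm]
      apply mul_le_mul_of_nonneg_left _ hL0.le
      calc (4 : ℝ) ≤ L := by linarith
        _ ≤ L ^ 3 := le_self_pow₀ (by linarith) (by norm_num)
    linarith
  obtain ⟨PP, V, T, Z, hW, hdis⟩ := hc Q.primeFactors U' hpf hU'ne (by rw [← hLd]; exact hU'c)
  have hP : ∀ p ∈ PP, p.Prime := fun p hp => (hW.pr p hp).1
  have hdis' : ∀ p ∈ PP, ¬ p ∣ Q := fun p hp h =>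
    hdis p hp (Nat.mem_primeFactors.2 ⟨hP p hp, h, hQ.ne'⟩)
  have hPbig : ∀ p ∈ PP, L ^ 2 + 1 < (p : ℝ) := by
    intro p hp
    have h1 := (hW.pr p hp).2.1
    rw [← hLd] at h1
    have h2 : L ^ 4 ≤ L ^ A := pow_le_pow_right₀ (by linarith) hA4
    have h3 : L ^ 2 + 1 ≤ L ^ 4 := by
      have : L ^ 4 = L ^ 2 * L ^ 2 := by ring
      have h4 : 100 ≤ L ^ 2 := by nlinarith
      nlinarith
    linarith
  obtain ⟨res, hres⟩ : ∃ res : ℕ → ↥U' → ℤ, res = fun (_ : ℕ) (k : ↥U') => (t₀ : ℤ) - (((k : ℕ)) : ℤ) := ⟨_, rfl⟩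
  have hinj : ∀ p ∈ PP, ∀ k l, k ≠ l → ¬ ((p : ℤ) ∣ res p k - res p l) := by
    intro p hp k l hkl hd
    rw [hres] at hd
    simp only at hd
    have hk := hU'm k k.2
    have hl := hU'm l l.2
    have hpb := hPbig p hp
    have h1 : (t₀ : ℤ) - ((k : ℕ) : ℤ) - ((t₀ : ℤ) - ((l : ℕ) : ℤ)) = ((l : ℕ) : ℤ) - ((k : ℕ) : ℤ) := by ring
    rw [h1] at hd
    have hkp : (k : ℕ) < p := by
      have : ((k : ℕ) : ℝ) < p := lt_of_le_of_lt hk.2 hpb
      exact_mod_cast this
    have hlp : (l : ℕ) < p := by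
      have : ((l : ℕ) : ℝ) < p := lt_of_le_of_lt hl.2 hpb
      exact_mod_cast this
    have h2 : ((l : ℕ) : ℤ) - ((k : ℕ) : ℤ) = 0 := by
      apply Int.eq_zero_of_abs_lt_dvd hd
      rw [abs_lt]
      constructor <;> omega
    apply hkl
    apply Subtype.ext
    omega
  have hres0 : ∀ i, i ∉ (∅ : Finset (Fin PP.card)) → ∀ k, ¬ (((emb PP i : ℕ) : ℤ) ∣ res (emb PP i) k) := by
    intro i _ k hd
    rw [hres] at hd
    simp only at hd
    have hk := hU'm k k.2
    have hpb := hPbig _ (emb_mem PP i)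
    have hkp : (k : ℕ) < (emb PP i : ℕ) := by
      have : ((k : ℕ) : ℝ) < (emb PP i : ℕ) := lt_of_le_of_lt hk.2 hpb
      exact_mod_cast this
    have htp : t₀ < (emb PP i : ℕ) := by
      have : (t₀ : ℝ) < (emb PP i : ℕ) := by linarith
      exact_mod_cast this
    have h2 : (t₀ : ℤ) - ((k : ℕ) : ℤ) = 0 := by
      apply Int.eq_zero_of_abs_lt_dvd hd
      rw [abs_lt]
      constructor <;> omega
    apply hk.1
    omega
  have hm : ∀ i, i ∈ (∅ : Finset (Fin PP.card)) ↔ (emb PP i : ℕ) ∣ Q := by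
    intro i
    constructor
    · intro h; exact absurd h (notMem_empty i)
    · intro h; exact absurd h (hdis' _ (emb_mem PP i))
  have hb' : ∀ i ∈ (∅ : Finset (Fin PP.card)), ∀ k, ¬ (((emb PP i : ℕ) : ℤ) ∣ (b : ℤ) - res (emb PP i) k) := by
    intro i hi
    exact absurd hi (notMem_empty i)
  have hPu : ∀ i, (Fintype.card ↥U' : ℝ) * gQ PP i < 1 := by
    intro i
    have h1 := hW.ug i
    have h2 : (2 : ℝ) ≤ ((emb PP i : ℕ) : ℝ) := by exact_mod_cast (hP _ (emb_mem PP i)).two_le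
    have h3 : gQ PP i ≤ 2 * gP PP i := by
      unfold gQ gP
      rw [mul_one_div, div_le_div_iff₀ (by linarith) (by linarith)]
      linarith
    have h4 : (0 : ℝ) ≤ U'.card := Nat.cast_nonneg _
    rw [Fintype.card_coe]
    have h5 := mul_le_mul_of_nonneg_left h3 h4
    have h6 : (U'.card : ℝ) * (2 * gP PP i) = 2 * ((U'.card : ℝ) * gP PP i) := by ring
    rw [h6] at h5
    linarith
  have hQr : (1 : ℝ) ≤ Q := by exact_mod_cast hQ
  have hQ0 : (0 : ℝ) < Q := by linarith
  have hφ0 : (0 : ℝ) < Q.totient := by exact_mod_cast Nat.totient_pos.2 hQ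
  have hφQ : (Q.totient : ℝ) ≤ Q := by exact_mod_cast Nat.totient_le Q
  have hQt : (Q : ℝ) ≤ t := by rw [ht]; exact hQY
  have hsize : (Q : ℝ) * Y ^ (1 / 100 : ℝ) ≤ Y := by
    rw [← ht]
    calc (Q : ℝ) * t ≤ t * t := mul_le_mul_of_nonneg_right hQt ht0.le
      _ = t ^ 2 := by ring
      _ ≤ t ^ 100 := pow_le_pow_right₀ (by linarith) (by norm_num)
      _ = Y := hYt.symm
  have h1 := class_lam Y hY4 PP hP res hinj Q b hQ hb hPu ∅ hm hb' hres0 V _ _ hW.LvV hsize
  have h2 := class_phi Y hY4 PP hP res hinj Q b hQ ∅ hm hb' (fun x => V x * T x) _ _ hW.LvT hsize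
  simp only [cut_empty] at h1 h2
  have h3 := part_ls hY4 hP hQ hQY hdis' (fun s => EE (gQ PP) (fun x => |V x| * fw (gQ PP) s x)) (Z / L ^ 40)
    (fun s hs => by rw [hLd]; exact hW.fwb s hs) (by have := hW.Z1; positivity)
  have h4 : ∑ n ∈ Icc 2 ⌊Y ^ (1 / 50 : ℝ)⌋₊, TT Y n ≤ C * Y * L ^ 8 := by
    rw [hLd]
    exact hls Y hYX0
  have hZ1 := hW.Z1
  have hlowQ := hW.lowQ
  have hupT := hW.upT
  rw [← hLd] at hupT
  -- names
  obtain ⟨SV, hSV⟩ : ∃ SV : ℝ, SV = ∑ n ∈ (Icc 1 ⌊3 * Y⌋₊).filter (fun n => n ≡ b [MOD Q]),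
        Phi (n / Y) * ArithmeticFunction.vonMangoldt n * V (colr PP res (n : ℤ)) := ⟨_, rfl⟩
  obtain ⟨ST, hST⟩ : ∃ ST : ℝ, ST = ∑ n ∈ (Icc 1 ⌊3 * Y⌋₊).filter (fun n => n ≡ b [MOD Q]),
        Phi (n / Y) * (V (colr PP res (n : ℤ)) * T (colr PP res (n : ℤ))) := ⟨_, rfl⟩
  rw [← hSV] at h1
  rw [← hST] at h2
  have hpcd : ∑ n ∈ (Icc 1 ⌊3 * Y⌋₊).filter (fun n => n ≡ b [MOD Q]),
        Phi (n / Y) * ArithmeticFunction.vonMangoldt n = pc Y Q b := rfl
  rw [hpcd] at h1
  obtain ⟨EV, hEV⟩ : ∃ EV : ℝ, EV = EE (gQ PP) V := ⟨_, rfl⟩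
  obtain ⟨ET, hET⟩ : ∃ ET : ℝ, ET = EE (gP PP) (fun x => V x * T x) := ⟨_, rfl⟩
  have hEV' : EE (gQ PP) (fun x => V x) = EV := hEV.symm
  rw [hEV'] at h1
  rw [← hEV] at hlowQ
  rw [← hET] at h2 hupT
  have hl3 : Real.log (3 * Y) ≤ 2 * L := by
    rw [Real.log_mul (by norm_num) hYp.ne', ← hLd]
    have : Real.log 3 ≤ L := by rw [hLd]; exact Real.log_le_log (by norm_num) (by linarith)
    linarith
  have hl30 : 0 < Real.log (3 * Y) := Real.log_pos (by linarith)
  obtain ⟨l3, hl3d⟩ : ∃ l3 : ℝ, l3 = Real.log (3 * Y) := ⟨_, rfl⟩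
  rw [← hl3d] at h1 hl3 hl30
  rw [← ht] at h1 h2 h3
  -- lower bound of the weighted count of primes
  have e1 : c5 * (9 / 16) * Z * (Y / Q.totient) - Z * (Y / Q.totient) * (c5 / 64) - 32 * t ^ 3 ≤ SV := by
    have g1 := (abs_le.1 h1).1
    have g2 : c5 * (Y / Q.totient) ≤ pc Y Q b := by
      rw [le_div_iff₀ hYp] at hpc
      calc c5 * (Y / Q.totient) = c5 / Q.totient * Y := by ring
        _ ≤ _ := hpc
    have g3 : c5 * (9 / 16) * Z * (Y / Q.totient) ≤ pc Y Q b * EV := by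
      calc c5 * (9 / 16) * Z * (Y / Q.totient) = (c5 * (Y / Q.totient)) * (9 / 16 * Z) := by ring
        _ ≤ pc Y Q b * EV := mul_le_mul g2 hlowQ (by positivity) (le_trans (by positivity) g2)
    have g4 : 1 / (Q.totient : ℝ) * (Z / L ^ 40 * (C * Y * L ^ 8)) ≤ Z * (Y / Q.totient) * (c5 / 64) := by
      have g5 : C * L ^ 8 / L ^ 40 ≤ c5 / 64 := by
        rw [div_le_iff₀ (by positivity)]
        have g6 : L ^ 40 = L ^ 8 * (L * L ^ 31) := by ring
        rw [g6]
        have g7 : (1 : ℝ) ≤ L ^ 31 := one_le_pow₀ (by linarith)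
        have g8 : C ≤ c5 / 64 * L := by
          rw [div_le_iff₀ hc5] at hLC
          have := le_abs_self C
          linarith
        have g9 : C ≤ c5 / 64 * (L * L ^ 31) := by
          refine g8.trans ?_
          apply mul_le_mul_of_nonneg_left _ (by positivity)
          exact le_mul_of_one_le_right hL0.le g7
        calc C * L ^ 8 ≤ (c5 / 64 * (L * L ^ 31)) * L ^ 8 := mul_le_mul_of_nonneg_right g9 (by positivity)
          _ = _ := by ring
      calc 1 / (Q.totient : ℝ) * (Z / L ^ 40 * (C * Y * L ^ 8)) = Z * (Y / Q.totient) * (C * L ^ 8 / L ^ 40) := by ring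
        _ ≤ _ := mul_le_mul_of_nonneg_left g5 (by positivity)
    have g5 : t * (8 * l3 ^ 2) ≤ 32 * t ^ 3 := by
      have : l3 ^ 2 ≤ (2 * t) ^ 2 := pow_le_pow_left₀ hl30.le (by linarith) 2
      calc t * (8 * l3 ^ 2) ≤ t * (8 * (2 * t) ^ 2) := by gcongr
        _ = _ := by ring
    have g6 : Z / L ^ 40 * ∑ n ∈ Icc 2 ⌊Y ^ (1 / 50 : ℝ)⌋₊, TT Y n ≤ Z / L ^ 40 * (C * Y * L ^ 8) :=
      mul_le_mul_of_nonneg_left h4 (by positivity)
    have g7 := mul_le_mul_of_nonneg_left (h3.trans g6) (show 0 ≤ 1 / (Q.totient : ℝ) by positivity)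
    linarith
  have e2 : l3 * ST ≤ Z * (Y / Q.totient) * (c5 / 64) + 10 * t ^ 2 := by
    have g1 := (abs_le.1 h2).2
    have g2 : MPhi Y * (1 / (Q : ℝ)) * ET ≤ 2 * Y * (1 / (Q.totient : ℝ)) * (Z / L ^ 40) := by
      have g3 := MPhi_le Y hY4
      have g4 : 0 ≤ MPhi Y := by
        unfold MPhi
        apply sum_nonneg
        intro n _
        exact le_max_left _ _
      have g5 : (1 : ℝ) / Q ≤ 1 / Q.totient := one_div_le_one_div_of_le hφ0 hφQ
      have g7 : (0 : ℝ) ≤ Z / L ^ 40 := by positivity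
      calc MPhi Y * (1 / (Q : ℝ)) * ET ≤ MPhi Y * (1 / (Q : ℝ)) * (Z / L ^ 40) :=
            mul_le_mul_of_nonneg_left hupT (by positivity)
        _ ≤ _ := by gcongr
    have g3 : ST ≤ 2 * Y * (1 / (Q.totient : ℝ)) * (Z / L ^ 40) + 5 * t := by linarith
    calc l3 * ST ≤ l3 * (2 * Y * (1 / (Q.totient : ℝ)) * (Z / L ^ 40) + 5 * t) :=
          mul_le_mul_of_nonneg_left g3 hl30.le
      _ ≤ (2 * L) * (2 * Y * (1 / (Q.totient : ℝ)) * (Z / L ^ 40) + 5 * t) :=
          mul_le_mul_of_nonneg_right hl3 (by positivity)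
      _ = Z * (Y / Q.totient) * (4 * L / L ^ 40) + 10 * L * t := by ring
      _ ≤ Z * (Y / Q.totient) * (c5 / 64) + 10 * t ^ 2 := by
          apply add_le_add
          · apply mul_le_mul_of_nonneg_left _ (by positivity)
            rw [div_le_iff₀ (by positivity)]
            have g6 : L ^ 40 = L * (L * L ^ 38) := by ring
            rw [g6]
            have g7 : (4 : ℝ) ≤ L ^ 38 := by
              calc (4 : ℝ) ≤ L := by linarith
                _ ≤ L ^ 38 := le_self_pow₀ (by linarith) (by norm_num)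
            have g8 : 1 ≤ c5 / 64 * L := by
              rw [div_le_iff₀ hc5] at hLC
              have := abs_nonneg C
              linarith
            calc 4 * L = (1 * 4) * L := by ring
              _ ≤ (c5 / 64 * L * L ^ 38) * L := by
                  apply mul_le_mul_of_nonneg_right _ hL0.le
                  apply mul_le_mul g8 g7 (by norm_num) (by positivity)
              _ = _ := by ring
          · have : L * t ≤ t * t := mul_le_mul_of_nonneg_right hLt ht0.le
            nlinarith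
  -- upper bound by the count
  obtain ⟨S, hS⟩ : ∃ S : Finset ℕ, S = (Icc 1 ⌊3 * Y⌋₊).filter (fun n : ℕ => Y < n ∧ n.Prime ∧ n ≡ b [MOD Q] ∧
      ∀ k ∈ U, k ≠ t₀ → ¬ (n + k - t₀).Prime) := ⟨_, rfl⟩
  rw [← hS]
  have hVt : ∀ x, V x ≤ t := by
    intro x
    have := Lv_le hW.LvV x
    rw [← ht] at this
    exact (le_abs_self _).trans this
  have e3 : SV - l3 * ST ≤ t * (S.card * l3 + 2 * Real.sqrt (3 * Y) * l3) := by
    have g1 : SV - l3 * ST ≤ ∑ n ∈ Icc 1 ⌊3 * Y⌋₊, t * ((if n ∈ S then l3 else 0) +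
        (if ¬ n.Prime then ArithmeticFunction.vonMangoldt n else 0)) := by
      rw [hSV, hST, mul_sum, ← sum_sub_distrib, sum_filter]
      apply sum_le_sum
      intro n hn
      have hnI := hn
      rw [mem_Icc] at hn
      have hn0 : (0 : ℝ) < n := by exact_mod_cast hn.1
      have hn3 : (n : ℝ) ≤ 3 * Y := (Nat.le_floor_iff (by positivity)).1 hn.2
      have hL : (0 : ℝ) ≤ ArithmeticFunction.vonMangoldt n := ArithmeticFunction.vonMangoldt_nonneg
      have hLle : ArithmeticFunction.vonMangoldt n ≤ l3 := by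
        rw [hl3d]
        exact ArithmeticFunction.vonMangoldt_le_log.trans (Real.log_le_log hn0 hn3)
      have hP0 : 0 ≤ Phi (n / Y) := le_max_left _ _
      have hP1 : Phi (n / Y) ≤ 1 := by
        unfold Phi
        apply max_le (by norm_num)
        have := abs_nonneg (Real.log (n / Y) - 1 / 2)
        linarith
      have e1 : (0 : ℝ) ≤ (if n ∈ S then l3 else 0) := by split_ifs; exact hl30.le; exact le_rfl
      have e2 : (0 : ℝ) ≤ (if ¬ n.Prime then ArithmeticFunction.vonMangoldt n else 0) := by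
        split_ifs <;> first | exact le_rfl | exact hL
      obtain ⟨x, hx⟩ : ∃ x, x = colr PP res (n : ℤ) := ⟨_, rfl⟩
      rw [← hx]
      have hV0 := hW.V0 x
      have hT0 := hW.T0 x
      have hVx := hVt x
      by_cases hmb : n ≡ b [MOD Q]
      · rw [if_pos hmb]
        have k1 : Phi (n / Y) * ArithmeticFunction.vonMangoldt n * V x - l3 * (Phi (n / Y) * (V x * T x)) ≤
            Phi (n / Y) * ArithmeticFunction.vonMangoldt n * V x * (1 - T x) := by
          have k2 : Phi (n / Y) * ArithmeticFunction.vonMangoldt n * V x * T x ≤ l3 * (Phi (n / Y) * (V x * T x)) := by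
            calc Phi (n / Y) * ArithmeticFunction.vonMangoldt n * V x * T x =
                ArithmeticFunction.vonMangoldt n * (Phi (n / Y) * (V x * T x)) := by ring
              _ ≤ _ := mul_le_mul_of_nonneg_right hLle (by positivity)
          linarith
        refine k1.trans ?_
        by_cases hT1 : T x < 1
        · have k3 : Phi (n / Y) * ArithmeticFunction.vonMangoldt n * V x * (1 - T x) ≤
              Phi (n / Y) * ArithmeticFunction.vonMangoldt n * t := by
            calc Phi (n / Y) * ArithmeticFunction.vonMangoldt n * V x * (1 - T x) ≤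
                Phi (n / Y) * ArithmeticFunction.vonMangoldt n * V x * 1 := by
                  apply mul_le_mul_of_nonneg_left (by linarith) (by positivity)
              _ = Phi (n / Y) * ArithmeticFunction.vonMangoldt n * V x := mul_one _
              _ ≤ _ := mul_le_mul_of_nonneg_left hVx (by positivity)
          refine k3.trans ?_
          by_cases hp : n.Prime
          · by_cases hYn : Y < n
            · have hmem : n ∈ S := by
                rw [hS, mem_filter]
                refine ⟨hnI, hYn, hp, hmb, fun k hk hkt hpr => ?_⟩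
                have hkU : k ∈ U' := by
                  rw [hU', mem_insert, mem_erase]
                  exact Or.inr ⟨hkt, hk⟩
                obtain ⟨i, hi⟩ := hW.kill x hT1 ⟨k, hkU⟩
                rw [hx, colr_eq hinj, hres] at hi
                simp only at hi
                have ht₀n : t₀ < n := by
                  have q1 : (t₀ : ℝ) < n := by
                    have q2 : L ^ 2 ≤ t ^ 2 := pow_le_pow_left₀ hL0.le hLt 2
                    have q3 : t ^ 2 ≤ t ^ 100 := pow_le_pow_right₀ (by linarith) (by norm_num)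
                    rw [← hYt] at q3
                    linarith
                  exact_mod_cast q1
                have q4 : ((n + k - t₀ : ℕ) : ℤ) = (n : ℤ) - ((t₀ : ℤ) - (k : ℤ)) := by
                  rw [Nat.cast_sub (by omega)]
                  push_cast
                  ring
                rw [← q4] at hi
                have q5 : (emb PP i : ℕ) ∣ n + k - t₀ := by exact_mod_cast hi
                have q6 := (Nat.prime_dvd_prime_iff_eq (hP _ (emb_mem PP i)) hpr).1 q5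
                have q7 : ((emb PP i : ℕ) : ℝ) ≤ t := by
                  have q8 := (hW.pr _ (emb_mem PP i)).2.2
                  rw [ht]
                  exact q8.trans (Real.rpow_le_rpow_of_exponent_le (by linarith) (by norm_num))
                have q9 : t * 2 ≤ Y := by
                  rw [hYt]
                  calc t * 2 ≤ t * t := mul_le_mul_of_nonneg_left ht2 ht0.le
                    _ = t ^ 2 := by ring
                    _ ≤ _ := pow_le_pow_right₀ (by linarith) (by norm_num)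
                have q10 : (t₀ : ℝ) ≤ Y / 2 := by
                  have q2 : L ^ 2 ≤ t ^ 2 := pow_le_pow_left₀ hL0.le hLt 2
                  have q3 : t ^ 2 * 2 ≤ t ^ 100 := by
                    calc t ^ 2 * 2 ≤ t ^ 2 * t := mul_le_mul_of_nonneg_left ht2 (by positivity)
                      _ = t ^ 3 := by ring
                      _ ≤ _ := pow_le_pow_right₀ (by linarith) (by norm_num)
                  rw [← hYt] at q3
                  linarith
                have q11 : ((n + k - t₀ : ℕ) : ℝ) = (n : ℝ) + k - t₀ := by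
                  rw [Nat.cast_sub (by omega)]
                  push_cast
                  ring
                have q12 : ((emb PP i : ℕ) : ℝ) = ((n + k - t₀ : ℕ) : ℝ) := by exact_mod_cast q6
                rw [q11] at q12
                have q13 : (0 : ℝ) ≤ k := Nat.cast_nonneg k
                have q14 : Y / 2 < n + k - t₀ := by linarith
                linarith
              rw [if_pos hmem]
              calc Phi (n / Y) * ArithmeticFunction.vonMangoldt n * t ≤ 1 * l3 * t := by gcongr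
                _ = t * l3 := by ring
                _ ≤ _ := mul_le_mul_of_nonneg_left (by linarith) ht0.le
            · push Not at hYn
              rw [Pool.Agent.H92.I.phi_zero (by positivity) (by rw [div_le_one hYp]; exact hYn), zero_mul, zero_mul]
              positivity
          · rw [if_pos hp]
            calc Phi (n / Y) * ArithmeticFunction.vonMangoldt n * t ≤ 1 * ArithmeticFunction.vonMangoldt n * t := by
                  gcongr
              _ = t * ArithmeticFunction.vonMangoldt n := by ring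
              _ ≤ _ := mul_le_mul_of_nonneg_left (by linarith) ht0.le
        · push Not at hT1
          have k3 : Phi (n / Y) * ArithmeticFunction.vonMangoldt n * V x * (1 - T x) ≤ 0 := by
            apply mul_nonpos_of_nonneg_of_nonpos (by positivity)
            linarith
          have k4 : 0 ≤ t * ((if n ∈ S then l3 else 0) +
            (if ¬ n.Prime then ArithmeticFunction.vonMangoldt n else 0)) := mul_nonneg ht0.le (by linarith)
          linarith
      · rw [if_neg hmb]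
        exact mul_nonneg ht0.le (by linarith)
    rw [← mul_sum, sum_add_distrib] at g1
    have h4 : ∑ n ∈ Icc 1 ⌊3 * Y⌋₊, (if n ∈ S then l3 else 0) = S.card * l3 := by
      rw [sum_ite_mem, sum_const, nsmul_eq_mul, inter_eq_right.2]
      rw [hS]
      exact filter_subset _ _
    have h5 : ∑ n ∈ Icc 1 ⌊3 * Y⌋₊, (if ¬ n.Prime then ArithmeticFunction.vonMangoldt n else 0) ≤
        2 * Real.sqrt (3 * Y) * l3 := by
      have h6 := Chebyshev.psi_sub_theta_le (x := 3 * Y) (by linarith)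
      rw [Chebyshev.psi_sub_theta_eq_sum_not_prime, sum_filter] at h6
      rw [hl3d]
      exact h6
    refine g1.trans (mul_le_mul_of_nonneg_left ?_ ht0.le)
    linarith
  -- conclusion
  have hsq : Real.sqrt Y = t ^ 50 := by
    rw [hYt, show t ^ 100 = (t ^ 50) ^ 2 by ring]
    exact Real.sqrt_sq (by positivity)
  have hs3 : Real.sqrt (3 * Y) ≤ 2 * t ^ 50 := by
    rw [← hsq, show (2 : ℝ) * Real.sqrt Y = Real.sqrt 4 * Real.sqrt Y by
      rw [show (4 : ℝ) = 2 ^ 2 by norm_num, Real.sqrt_sq (by norm_num)], ← Real.sqrt_mul (by norm_num)]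
    apply Real.sqrt_le_sqrt
    linarith
  rw [hsq]
  by_contra hcon
  push Not at hcon
  have hZY : c5 / 2 * t ^ 99 ≤ c5 * (9 / 16) * Z * (Y / Q.totient) - Z * (Y / Q.totient) * (c5 / 64) -
      Z * (Y / Q.totient) * (c5 / 64) := by
    have g1 : t ^ 99 ≤ Y / Q.totient := by
      rw [le_div_iff₀ hφ0, hYt]
      calc t ^ 99 * Q.totient ≤ t ^ 99 * t := mul_le_mul_of_nonneg_left (hφQ.trans hQt) (by positivity)
        _ = t ^ 100 := by ring
    have g2 : t ^ 99 ≤ Z * (Y / Q.totient) := by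
      refine g1.trans ?_
      exact le_mul_of_one_le_left (by positivity) hZ1
    have g3 : c5 * (9 / 16) * Z * (Y / Q.totient) - Z * (Y / Q.totient) * (c5 / 64) -
      Z * (Y / Q.totient) * (c5 / 64) = c5 * (17 / 32) * (Z * (Y / Q.totient)) := by ring
    rw [g3]
    have g4 : c5 * (17 / 32) * t ^ 99 ≤ c5 * (17 / 32) * (Z * (Y / Q.totient)) :=
      mul_le_mul_of_nonneg_left g2 (by positivity)
    have g5 : 0 < c5 * t ^ 99 := by positivity
    linarith
  have hR : t * (S.card * l3 + 2 * Real.sqrt (3 * Y) * l3) ≤ 10 * t ^ 52 := by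
    have g1 : (S.card : ℝ) * l3 ≤ t ^ 50 * (2 * t) := by
      apply mul_le_mul hcon.le (by linarith) hl30.le (by positivity)
    have g2 : 2 * Real.sqrt (3 * Y) * l3 ≤ 2 * (2 * t ^ 50) * (2 * t) := by
      apply mul_le_mul (by linarith) (by linarith) hl30.le (by positivity)
    calc t * (S.card * l3 + 2 * Real.sqrt (3 * Y) * l3) ≤ t * (t ^ 50 * (2 * t) + 2 * (2 * t ^ 50) * (2 * t)) :=
          mul_le_mul_of_nonneg_left (add_le_add g1 g2) ht0.le
      _ = _ := by ring
  have hfin : 10 * t ^ 52 + 32 * t ^ 3 + 10 * t ^ 2 < c5 / 2 * t ^ 99 := by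
    have g1 : t ^ 3 ≤ t ^ 52 := pow_le_pow_right₀ (by linarith) (by norm_num)
    have g2 : t ^ 2 ≤ t ^ 52 := pow_le_pow_right₀ (by linarith) (by norm_num)
    have g3 : 100 * t ^ 98 ≤ c5 / 2 * t ^ 99 := by
      rw [div_le_iff₀ hc5] at htc
      calc 100 * t ^ 98 = (200 / 2) * t ^ 98 := by ring
        _ ≤ (t * c5) / 2 * t ^ 98 := by
            apply mul_le_mul_of_nonneg_right _ (by positivity)
            linarith
        _ = _ := by ring
    have g4 : t ^ 52 ≤ t ^ 98 := pow_le_pow_right₀ (by linarith) (by norm_num)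
    have g5 : 0 < t ^ 52 := by positivity
    linarith
  linarith

end Pool.Agent.H92.R
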