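import Pool.Agent.H92.R.SvV
import Pool.Agent.H92.R.Core

set_option autoImplicit false
set_option maxHeartbeats 4000000

/-! Auxiliary facts for the exceptional case with `χ b = 1`. -/

open Finset Filter Topology

namespace Pool.Agent.H92.R

open Pool.Agent.H92.G
open Pool.Agent.H312R2.RG (gQ gP pP)
open Pool.Agent.H256R2.SC (Col emb colr Lv emb_mem emb_surj colr_eq qq EE ind wt nu nu1 supp mem_supp ind_eq_prod)

variable {f : ℕ} {χ : ℕ → ℝ}

section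
variable {κ : Type} [Fintype κ] [DecidableEq κ]

/-- the weights with a function of the colouring, without sieve -/
theorem apV0 (h : Chr f χ) {L : ℝ} (hL : Tends χ L) {a b : ℕ} (ha : 0 < a)
    (hfa : f ∣ a) (hab : a.Coprime b) (hba : b ≤ a) (hχb : χ b = 1) (ZW : Finset ℕ)
    (hZW : ∀ p ∈ ZW, p.Prime) (ν N : ℕ)
    (hν : ∀ p ∈ ZW, ¬ p ∣ a * ν + b) (PP : Finset ℕ) (hP : ∀ p ∈ PP, p.Prime ∧ ¬ p ∣ a) (hdP : Disjoint ZW PP)
    (res : ℕ → κ → ℤ) (hinj : ∀ p ∈ PP, ∀ k l, k ≠ l → ¬ ((p : ℤ) ∣ res p k - res p l))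
    (hroot : ∀ p ∈ PP, ∀ k, ¬ ((p : ℤ) ∣ a * res p k + b)) (G : Col PP.card κ → ℝ) (Q B : ℝ) (hG : Lv (pP PP) Q B G) :
    |∑ n ∈ (Icc 1 N).filter (fun n => n ≡ ν [MOD ∏ p ∈ ZW, p]), lam χ (a * n + b) * G (colr PP res (n : ℤ)) -
      2 * ((N : ℝ) / (∏ p ∈ ZW, p : ℕ)) * (L * ∏ p ∈ ZW ∪ a.primeFactors, (1 - χ p / p)) *
        EE (fun i => gL χ (emb PP i)) G| ≤ B * (17 * (a : ℝ) ^ 2 * ((Nat.sqrt (a * N + b) : ℝ) + 1)) := by
  classical
  obtain ⟨fD, hf1, hf2, _⟩ := hG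
  obtain ⟨E, hE⟩ : ∃ E : ℝ, E = 17 * (a : ℝ) ^ 2 * ((Nat.sqrt (a * N + b) : ℝ) + 1) := ⟨_, rfl⟩
  have hE0 : 0 ≤ E := by rw [hE]; positivity
  obtain ⟨A, hA⟩ : ∃ A : ℝ, A = 2 * ((N : ℝ) / (∏ p ∈ ZW, p : ℕ)) * (L * ∏ p ∈ ZW ∪ a.primeFactors, (1 - χ p / p)) :=
    ⟨_, rfl⟩
  rw [← hA, ← hE]
  have h1 : ∑ n ∈ (Icc 1 N).filter (fun n => n ≡ ν [MOD ∏ p ∈ ZW, p]), lam χ (a * n + b) * G (colr PP res (n : ℤ)) =
      ∑ D, fD D * ∑ n ∈ (Icc 1 N).filter (fun n => n ≡ ν [MOD ∏ p ∈ ZW, p] ∧ ∀ p ∈ (∅ : Finset ℕ), n % p ∈ (∅ : Finset ℕ)),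
        lam χ (a * n + b) * ind D (colr PP res (n : ℤ)) := by
    have e : (Icc 1 N).filter (fun n => n ≡ ν [MOD ∏ p ∈ ZW, p] ∧ ∀ p ∈ (∅ : Finset ℕ), n % p ∈ (∅ : Finset ℕ)) =
        (Icc 1 N).filter (fun n => n ≡ ν [MOD ∏ p ∈ ZW, p]) := by
      apply filter_congr
      intro n _
      simp
    rw [e]
    simp_rw [mul_sum]
    rw [sum_comm]
    apply sum_congr rfl
    intro m _
    rw [hf1, mul_sum]
    apply sum_congr rfl
    intro D _
    ring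
  have h2 : A * EE (fun i => gL χ (emb PP i)) G = ∑ D, fD D * (A * (∏ p ∈ (∅ : Finset ℕ), gg χ a b (fun _ => ∅) p) *
      ∏ i, (if emb PP i ∈ (∅ : Finset ℕ) then (if D i = none then (1 : ℝ) else 0) else nu1 (gL χ (emb PP i)) (D i))) := by
    have e : EE (fun i => gL χ (emb PP i)) G = ∑ D, fD D * EE (fun i => gL χ (emb PP i)) (fun x => ind D x) := by
      unfold Pool.Agent.H256R2.SC.EE
      simp_rw [mul_sum]
      rw [sum_comm]
      apply sum_congr rfl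
      intro x _
      rw [hf1, mul_sum]
      apply sum_congr rfl
      intro D _
      ring
    rw [e, mul_sum]
    apply sum_congr rfl
    intro D _
    rw [Pool.Agent.H256R2.SC.EE_ind]
    simp only [notMem_empty, if_false, prod_empty, mul_one]
    unfold Pool.Agent.H256R2.SC.nu
    ring
  rw [h1, h2, ← sum_sub_distrib]
  refine (abs_sum_le_sum_abs _ _).trans ?_
  calc ∑ D, |fD D * ∑ n ∈ (Icc 1 N).filter (fun n => n ≡ ν [MOD ∏ p ∈ ZW, p] ∧ ∀ p ∈ (∅ : Finset ℕ), n % p ∈ (∅ : Finset ℕ)),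
          lam χ (a * n + b) * ind D (colr PP res (n : ℤ)) -
          fD D * (A * (∏ p ∈ (∅ : Finset ℕ), gg χ a b (fun _ => ∅) p) *
            ∏ i, (if emb PP i ∈ (∅ : Finset ℕ) then (if D i = none then (1 : ℝ) else 0) else nu1 (gL χ (emb PP i)) (D i)))| ≤
        ∑ D, |fD D| * E := by
          apply sum_le_sum
          intro D _
          rw [← mul_sub, abs_mul]
          apply mul_le_mul_of_nonneg_left _ (abs_nonneg _)
          have h2 := apD h hL ha hfa hab hba hχb ZW ∅ hZW (fun p hp => absurd hp (notMem_empty p))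
            (disjoint_empty_right _) (fun _ => ∅) (fun p hp => absurd hp (notMem_empty p)) ν N hν PP
            hP hdP res hinj hroot D
          rw [← hA, ← hE] at h2
          exact h2
    _ = (∑ D, |fD D|) * E := by rw [sum_mul]
    _ ≤ B * E := mul_le_mul_of_nonneg_right hf2 hE0

omit [DecidableEq κ] in
/-- comparison of the two models -/
theorem EE_ratio (h : Chr f χ) {PP : Finset ℕ} (hP : ∀ p ∈ PP, p.Prime)
    (hu : ∀ i, (Fintype.card κ : ℝ) * gP PP i ≤ 1 / 100) (F : Col PP.card κ → ℝ) (hF : ∀ x, 0 ≤ F x) :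
    EE (fun i => gL χ (emb PP i)) F ≤ Real.exp (∑ i, gP PP i) * EE (gP PP) F := by
  unfold Pool.Agent.H256R2.SC.EE
  rw [mul_sum]
  apply sum_le_sum
  intro x _
  rw [← mul_assoc]
  apply mul_le_mul_of_nonneg_right _ (hF x)
  have hκ0 : (0 : ℝ) ≤ Fintype.card κ := Nat.cast_nonneg _
  have hg0 : ∀ i, 0 < gP PP i := by
    intro i
    unfold Pool.Agent.H312R2.RG.gP
    have : (0 : ℝ) < ((emb PP i : ℕ) : ℝ) := by exact_mod_cast (hP _ (emb_mem PP i)).pos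
    positivity
  have h1 : ∀ i, 0 ≤ wt (gL χ (emb PP i)) (x i) ∧ wt (gL χ (emb PP i)) (x i) ≤ Real.exp (gP PP i) * wt (gP PP i) (x i) := by
    intro i
    have hp2 : (2 : ℝ) ≤ ((emb PP i : ℕ) : ℝ) := by exact_mod_cast (hP _ (emb_mem PP i)).two_le
    have h4 := abs_le.1 (h.abs_le (emb PP i))
    obtain ⟨g, hg⟩ : ∃ g : ℝ, g = gP PP i := ⟨_, rfl⟩
    have hgd : g = 1 / ((emb PP i : ℕ) : ℝ) := by rw [hg]; rfl
    have hgp : 0 < g := by rw [hg]; exact hg0 i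
    have hui := hu i
    rw [← hg] at hui ⊢
    have hgL : gL χ (emb PP i) = (1 - χ (emb PP i) * g) * g := by
      unfold gL
      rw [hgd]
      ring
    have hg1 : g ≤ 1 / 2 := by
      rw [hgd]
      exact one_div_le_one_div_of_le (by norm_num) hp2
    have hlow : (1 - g) * g ≤ gL χ (emb PP i) := by
      rw [hgL]
      apply mul_le_mul_of_nonneg_right _ hgp.le
      nlinarith
    have hup : gL χ (emb PP i) ≤ (1 + g) * g := by
      rw [hgL]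
      apply mul_le_mul_of_nonneg_right _ hgp.le
      nlinarith
    have hexp : 1 + g ≤ Real.exp g := by
      have := Real.add_one_le_exp g
      linarith
    have hgg : (1 - g) * g = g - g * g := by ring
    have hgg' : (1 + g) * g = g + g * g := by ring
    unfold Pool.Agent.H256R2.SC.wt
    rcases h5 : x i with _ | k
    · simp only []
      have h6 : (Fintype.card κ : ℝ) * gL χ (emb PP i) ≤ (Fintype.card κ : ℝ) * ((1 + g) * g) :=
        mul_le_mul_of_nonneg_left hup hκ0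
      have h7 : (Fintype.card κ : ℝ) * ((1 + g) * g) ≤ 1 := by
        have : (Fintype.card κ : ℝ) * ((1 + g) * g) = ((Fintype.card κ : ℝ) * g) * (1 + g) := by ring
        rw [this]
        nlinarith [mul_nonneg hκ0 hgp.le]
      have h8 : (Fintype.card κ : ℝ) * ((1 - g) * g) ≤ (Fintype.card κ : ℝ) * gL χ (emb PP i) :=
        mul_le_mul_of_nonneg_left hlow hκ0
      refine ⟨by linarith, ?_⟩
      have h9 : 0 ≤ 1 - (Fintype.card κ : ℝ) * g := by linarith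
      have h10 : 1 - (Fintype.card κ : ℝ) * gL χ (emb PP i) ≤ (1 + g) * (1 - (Fintype.card κ : ℝ) * g) := by
        have h11 : (Fintype.card κ : ℝ) * ((1 - g) * g) = (Fintype.card κ : ℝ) * g - ((Fintype.card κ : ℝ) * g) * g := by ring
        have h12 : ((Fintype.card κ : ℝ) * g) * g ≤ 1 / 100 * g := mul_le_mul_of_nonneg_right hui hgp.le
        have h13 : (1 + g) * (1 - (Fintype.card κ : ℝ) * g) = 1 - (Fintype.card κ : ℝ) * g + g - ((Fintype.card κ : ℝ) * g) * g := by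
          ring
        rw [h13]
        linarith
      exact h10.trans (mul_le_mul_of_nonneg_right hexp h9)
    · simp only []
      refine ⟨le_trans (by rw [hgg]; nlinarith) hlow, hup.trans (mul_le_mul_of_nonneg_right hexp hgp.le)⟩
  rw [Real.exp_sum, ← prod_mul_distrib]
  exact prod_le_prod (fun i _ => (h1 i).1) (fun i _ => (h1 i).2)

/-- change of the variable in the colouring -/
theorem colr_tr {PP : Finset ℕ} {res res' : ℕ → κ → ℤ}
    (hinj : ∀ p ∈ PP, ∀ k l, k ≠ l → ¬ ((p : ℤ) ∣ res p k - res p l))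
    (hinj' : ∀ p ∈ PP, ∀ k l, k ≠ l → ¬ ((p : ℤ) ∣ res' p k - res' p l)) {a a' : ℤ}
    (h : ∀ p ∈ PP, ∀ k, (p : ℤ) ∣ a - res p k ↔ (p : ℤ) ∣ a' - res' p k) : colr PP res a = colr PP res' a' := by
  funext i
  apply Option.ext
  intro k
  have h1 := colr_eq hinj a i k
  have h2 := colr_eq hinj' a' i k
  have h3 := h _ (emb_mem PP i) k
  constructor
  · intro h4
    exact (h2.2 (h3.1 (h1.1 h4)))
  · intro h4
    exact (h1.2 (h3.2 (h2.1 h4)))

/-- inverses -/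
theorem inv_ex {PP : Finset ℕ} (r : ℕ) (hr : ∀ p ∈ PP, r.Coprime p) :
    ∃ v : ℕ → ℤ, ∀ p ∈ PP, (p : ℤ) ∣ r * v p - 1 := by
  have h1 : ∀ p : ℕ, ∃ v : ℤ, p ∈ PP → (p : ℤ) ∣ r * v - 1 := by
    intro p
    by_cases hp : p ∈ PP
    · have h2 : IsCoprime (r : ℤ) (p : ℤ) := Nat.isCoprime_iff_coprime.2 (hr p hp)
      obtain ⟨u, v, huv⟩ := h2
      refine ⟨u, fun _ => ⟨-v, ?_⟩⟩
      linear_combination huv
    · exact ⟨0, fun h => absurd h hp⟩
  choose v hv using h1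
  exact ⟨v, fun p hp => hv p hp⟩

end

/-- the classes of the colours for the values `Q n + b` -/
theorem resdata {Q b t₀ : ℕ} {PP : Finset ℕ} (hP : ∀ p ∈ PP, p.Prime ∧ ¬ p ∣ Q) (U : Finset ℕ) (ht : t₀ ∉ U)
    (hbig : ∀ p ∈ PP, t₀ < p ∧ ∀ k ∈ U, k < p) : ∃ res : ℕ → ↥U → ℤ,
    (∀ p ∈ PP, ∀ k l, k ≠ l → ¬ ((p : ℤ) ∣ res p k - res p l)) ∧
    (∀ p ∈ PP, ∀ k, ¬ ((p : ℤ) ∣ Q * res p k + b)) ∧
    ∀ p ∈ PP, ∀ (k : ↥U) (n : ℤ), (p : ℤ) ∣ n - res p k → (p : ℤ) ∣ Q * n + b + (k : ℕ) - t₀ := by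
  obtain ⟨v, hv⟩ := inv_ex (PP := PP) Q (fun p hp => by
    rw [Nat.coprime_comm, Nat.Prime.coprime_iff_not_dvd (hP p hp).1]
    exact (hP p hp).2)
  have hval : ∀ p ∈ PP, ∀ k : ↥U, (p : ℤ) ∣ Q * (v p * ((t₀ : ℤ) - ((k : ℕ) : ℤ) - b)) - ((t₀ : ℤ) - ((k : ℕ) : ℤ) - b) := by
    intro p hp k
    have h1 := (hv p hp).mul_right ((t₀ : ℤ) - ((k : ℕ) : ℤ) - b)
    have h2 : ((Q : ℤ) * v p - 1) * ((t₀ : ℤ) - ((k : ℕ) : ℤ) - b) =
      Q * (v p * ((t₀ : ℤ) - ((k : ℕ) : ℤ) - b)) - ((t₀ : ℤ) - ((k : ℕ) : ℤ) - b) := by ring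
    rwa [h2] at h1
  refine ⟨fun p k => v p * ((t₀ : ℤ) - ((k : ℕ) : ℤ) - b), ?_, ?_, ?_⟩
  · intro p hp k l hkl hd
    have h1 := dvd_sub (hval p hp k) (hval p hp l)
    have h2 := hd.mul_left (Q : ℤ)
    have h3 := dvd_sub h2 h1
    have h4 : (Q : ℤ) * (v p * ((t₀ : ℤ) - ((k : ℕ) : ℤ) - b) - v p * ((t₀ : ℤ) - ((l : ℕ) : ℤ) - b)) -
      (Q * (v p * ((t₀ : ℤ) - ((k : ℕ) : ℤ) - b)) - ((t₀ : ℤ) - ((k : ℕ) : ℤ) - b) -
        (Q * (v p * ((t₀ : ℤ) - ((l : ℕ) : ℤ) - b)) - ((t₀ : ℤ) - ((l : ℕ) : ℤ) - b))) =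
      ((l : ℕ) : ℤ) - ((k : ℕ) : ℤ) := by ring
    rw [h4] at h3
    have hk := (hbig p hp).2 k k.2
    have hl := (hbig p hp).2 l l.2
    have h5 : ((l : ℕ) : ℤ) - ((k : ℕ) : ℤ) = 0 := by
      apply Int.eq_zero_of_abs_lt_dvd h3
      rw [abs_lt]
      constructor <;> omega
    apply hkl
    apply Subtype.ext
    omega
  · intro p hp k hd
    have h1 := dvd_sub hd (hval p hp k)
    have h2 : (Q : ℤ) * (v p * ((t₀ : ℤ) - ((k : ℕ) : ℤ) - b)) + b -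
      (Q * (v p * ((t₀ : ℤ) - ((k : ℕ) : ℤ) - b)) - ((t₀ : ℤ) - ((k : ℕ) : ℤ) - b)) = (t₀ : ℤ) - ((k : ℕ) : ℤ) := by ring
    rw [h2] at h1
    have hk := (hbig p hp).2 k k.2
    have ht' := (hbig p hp).1
    have h3 : (t₀ : ℤ) - ((k : ℕ) : ℤ) = 0 := by
      apply Int.eq_zero_of_abs_lt_dvd h1
      rw [abs_lt]
      constructor <;> omega
    apply ht
    have h4 : t₀ = (k : ℕ) := by omega
    rw [h4]
    exact k.2
  · intro p hp k n hd
    have h1 := dvd_add (hd.mul_left (Q : ℤ)) (hval p hp k)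
    have h2 : (Q : ℤ) * (n - v p * ((t₀ : ℤ) - ((k : ℕ) : ℤ) - b)) +
      (Q * (v p * ((t₀ : ℤ) - ((k : ℕ) : ℤ) - b)) - ((t₀ : ℤ) - ((k : ℕ) : ℤ) - b)) =
      Q * n + b + (k : ℕ) - t₀ := by ring
    rwa [h2] at h1

/-- the classes of the colours on the progression `s + r t` -/
theorem restr {κ : Type} {PP : Finset ℕ} (hP : ∀ p ∈ PP, p.Prime) {r : ℕ} (hr : ∀ p ∈ PP, r.Coprime p) (s : ℕ)
    (res : ℕ → κ → ℤ) (hinj : ∀ p ∈ PP, ∀ k l, k ≠ l → ¬ ((p : ℤ) ∣ res p k - res p l)) :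
    ∃ res' : ℕ → κ → ℤ, (∀ p ∈ PP, ∀ k l, k ≠ l → ¬ ((p : ℤ) ∣ res' p k - res' p l)) ∧
    (∀ p ∈ PP, ∀ k (t : ℤ), (p : ℤ) ∣ ((s : ℤ) + r * t) - res p k ↔ (p : ℤ) ∣ t - res' p k) ∧
    ∀ p ∈ PP, ∀ k, (p : ℤ) ∣ (s : ℤ) + r * res' p k - res p k := by
  obtain ⟨v, hv⟩ := inv_ex (PP := PP) r hr
  have hval : ∀ p ∈ PP, ∀ k : κ, (p : ℤ) ∣ (s : ℤ) + r * (v p * (res p k - s)) - res p k := by
    intro p hp k
    have h1 := (hv p hp).mul_right (res p k - s)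
    have h2 : ((r : ℤ) * v p - 1) * (res p k - s) = (s : ℤ) + r * (v p * (res p k - s)) - res p k := by ring
    rwa [h2] at h1
  refine ⟨fun p k => v p * (res p k - s), ?_, ?_, hval⟩
  · intro p hp k l hkl hd
    apply hinj p hp k l hkl
    have h1 := dvd_sub (hd.mul_left (r : ℤ)) (dvd_sub (hval p hp k) (hval p hp l))
    have h2 : (r : ℤ) * (v p * (res p k - s) - v p * (res p l - s)) -
      ((s : ℤ) + r * (v p * (res p k - s)) - res p k - ((s : ℤ) + r * (v p * (res p l - s)) - res p l)) =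
      res p k - res p l := by ring
    rwa [h2] at h1
  · intro p hp k t
    have hpi : Prime (p : ℤ) := Nat.prime_iff_prime_int.1 (hP p hp)
    constructor
    · intro h1
      have h2 := dvd_sub h1 (hval p hp k)
      have h3 : (s : ℤ) + r * t - res p k - ((s : ℤ) + r * (v p * (res p k - s)) - res p k) =
        r * (t - v p * (res p k - s)) := by ring
      rw [h3] at h2
      rcases hpi.dvd_or_dvd h2 with h4 | h4
      · exfalso
        have h5 : p ∣ r := by exact_mod_cast h4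
        have h6 := (Nat.Prime.coprime_iff_not_dvd (hP p hp)).1 (Nat.coprime_comm.1 (hr p hp))
        exact h6 h5
      · exact h4
    · intro h1
      have h2 := dvd_add (h1.mul_left (r : ℤ)) (hval p hp k)
      have h3 : (r : ℤ) * (t - v p * (res p k - s)) + ((s : ℤ) + r * (v p * (res p k - s)) - res p k) =
        (s : ℤ) + r * t - res p k := by ring
      rwa [h3] at h2

end Pool.Agent.H92.R
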