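import Pool.Agent.H92.R.PlA
import Pool.Agent.H92.R.RemW
import Pool.Agent.H92.R.PcK
import Pool.Agent.H92.I.Plus

set_option autoImplicit false
set_option maxHeartbeats 8000000

/-! The exceptional case with `χ b = 1`, at the record scale. -/

open Finset Filter Topology

namespace Pool.Agent.H92.R

open Pool.Agent.H92.G
open Pool.Agent.H92.I (lam_prime Ri_empty)
open Pool.Agent.H262R2.UM Pool.Agent.H262R2.UP
open Pool.Agent.H312R2.RG (gQ gP pP)
open Pool.Agent.H256R2.SC (Col emb colr Lv emb_mem emb_surj colr_eq qq EE)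

/-- growth -/
theorem ev_plus (c6 : ℝ) (hc6 : 0 < c6) : ∀ᶠ s : ℕ in atTop, 100 ≤ Real.log s ∧
    16 ^ 6 * 64 * (Real.log s) ^ 8 ≤ c6 * (Real.log s) ^ 40 ∧ (Real.log s) ^ 4 ≤ s := by
  have ht : Tendsto (fun s : ℕ => Real.log s) atTop atTop :=
    Real.tendsto_log_atTop.comp (tendsto_natCast_atTop_atTop (R := ℝ))
  have h2 := (Real.isLittleO_pow_log_id_atTop (n := 4)).bound (show (0 : ℝ) < 1 by norm_num)
  have hs := tendsto_natCast_atTop_atTop (R := ℝ)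
  filter_upwards [ht.eventually_ge_atTop 100, ht.eventually_ge_atTop (16 ^ 6 * 64 / c6), hs.eventually h2,
    eventually_ge_atTop 2] with s h3 h4 h5 h6
  have hsr : (2 : ℝ) ≤ s := by exact_mod_cast h6
  rw [id, Real.norm_of_nonneg (by positivity), Real.norm_of_nonneg (by linarith), one_mul] at h5
  refine ⟨h3, ?_, h5⟩
  rw [div_le_iff₀ hc6] at h4
  have h7 : (1 : ℝ) ≤ (Real.log s) ^ 31 := one_le_pow₀ (by linarith)
  have h8 : (0 : ℝ) ≤ (Real.log s) ^ 8 := by positivity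
  calc 16 ^ 6 * 64 * (Real.log s) ^ 8 ≤ (Real.log s * c6) * (Real.log s) ^ 8 := mul_le_mul_of_nonneg_right h4 h8
    _ = (Real.log s * c6 * (Real.log s) ^ 8) * 1 := by ring
    _ ≤ (Real.log s * c6 * (Real.log s) ^ 8) * (Real.log s) ^ 31 := by
        apply mul_le_mul_of_nonneg_left h7
        have : 0 < Real.log s := by linarith
        positivity
    _ = _ := by ring

theorem plus_isoR : ∃ (u s0 : ℕ) (c₃ : ℝ), 3 ≤ u ∧ 0 < c₃ ∧ ∀ s : ℕ, s0 ≤ s → ∀ (f : ℕ) (χ : ℕ → ℝ) (L : ℝ), Chr f χ →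
    Tends χ L → 1 / (s : ℝ) ≤ L → ∀ Q b : ℕ, 0 < Q → Q ≤ s → 1 ≤ b → b ≤ Q → b.Coprime Q → f ∣ Q → χ b = 1 →
    ∑ r ∈ (Ioc (s ^ 16) (s ^ (16 * (u + 1)))).filter (fun r => r.Prime ∧ χ r = 1), 1 / (r : ℝ) ≤ 1 / 8 →
    ∀ y : ℕ, s0 ≤ y → (∀ p : ℕ, p.Prime → p ≤ y → p ∣ Q) →
    ∀ (t₀ : ℕ) (U : Finset ℕ), (t₀ : ℝ) ≤ (Real.log s) ^ 2 → (∀ k ∈ U, (k : ℝ) ≤ (Real.log s) ^ 2) →
    (U.card : ℝ) ≤ c₃ * Real.log s →
    (s : ℝ) ^ (8 * u) ≤ (((Icc 1 (s ^ (16 * u))).filter (fun n => s ^ (16 * u) < n * n ∧ (Q * n + b).Prime ∧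
      ∀ k ∈ U, k ≠ t₀ → ¬ (Q * n + b + k - t₀).Prime)).card : ℝ) := by
  classical
  obtain ⟨C, hC1, hF⟩ := flmc
  obtain ⟨Ac, c₃, hAc4, hc₃, hc₃1, hcore⟩ := core 40
  obtain ⟨bb, hbb⟩ : ∃ bb : ℕ, bb = C * 5 := ⟨_, rfl⟩
  have hbb1 : 1 ≤ bb := by rw [hbb]; omega
  obtain ⟨z0, hz0⟩ : ∃ z0 : ℕ, z0 = C * 5 + 16 := ⟨_, rfl⟩
  obtain ⟨ZW, hZWd⟩ : ∃ ZW : Finset ℕ, ZW = Pz z0 := ⟨_, rfl⟩
  have hZWp : ∀ p ∈ ZW, p.Prime := fun p hp => by rw [hZWd] at hp; exact (mem_Pz.1 hp).2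
  obtain ⟨W, hW⟩ : ∃ W : ℕ, W = ∏ p ∈ ZW, p := ⟨_, rfl⟩
  have hW0 : 0 < W := by rw [hW]; exact prod_pos fun p hp => (hZWp p hp).pos
  obtain ⟨c6, hc6, hVl⟩ := V_low 1
  obtain ⟨e, he⟩ : ∃ e : ℕ, e = 32 * (C * bb) := ⟨_, rfl⟩
  have he32 : 32 ≤ e := by
    rw [he]
    have : 1 ≤ C * bb := Nat.mul_pos hC1 hbb1
    omega
  obtain ⟨u, hu⟩ : ∃ u : ℕ, u = e + 3 := ⟨_, rfl⟩
  have hcoreN := (tendsto_natCast_atTop_atTop (R := ℝ)).eventually hcore
  have hlogt : ∀ᶠ s : ℕ in atTop, 2 / c₃ ≤ Real.log s :=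
    (Real.tendsto_log_atTop.comp (tendsto_natCast_atTop_atTop (R := ℝ))).eventually_ge_atTop _
  obtain ⟨s1, hs1⟩ := eventually_atTop.1 ((ev_s (4 * W * 2 ^ ZW.card / c6) (4 * 1 + 2) (100 + 2 ^ u + z0)).and
    ((ev_plus c6 hc6).and (hcoreN.and hlogt)))
  refine ⟨u, s1 + z0 + 100, c₃ / 2, by omega, by positivity, ?_⟩
  intro s hs f χ L h hL hLs Q b hQ hQs hb1 hbQ hcop hfa hχ hsum y hys hall t₀ U ht0 hUy hU
  obtain ⟨⟨ev1, ev2, ev3⟩, ⟨hlog100, hlog40, hlog4⟩, hcr, hlogc⟩ := hs1 s (by omega)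
  have h2u : 0 < 2 ^ u := by positivity
  have hs17 : 100 ≤ s := by omega
  have hsr : (100 : ℝ) ≤ s := by exact_mod_cast hs17
  have hs0 : (0 : ℝ) < s := by linarith
  have hs1' : (1 : ℝ) ≤ s := by linarith
  obtain ⟨lg, hlg⟩ : ∃ lg : ℝ, lg = Real.log s := ⟨_, rfl⟩
  have hlg0 : 0 < lg := by rw [hlg]; linarith
  have hlg100 : 100 ≤ lg := by rw [hlg]; exact hlog100
  -- the shifts and the weights on the colourings
  obtain ⟨U', hU'⟩ : ∃ U' : Finset ℕ, U' = insert (t₀ + 1) (U.erase t₀) := ⟨_, rfl⟩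
  have hU'ne : U'.Nonempty := by rw [hU']; exact insert_nonempty _ _
  have hU'c : (U'.card : ℝ) ≤ c₃ * lg := by
    have h1 : U'.card ≤ U.card + 1 := by
      rw [hU']
      exact (card_insert_le _ _).trans (Nat.add_le_add_right (card_le_card (erase_subset _ _)) 1)
    have h2 : (U'.card : ℝ) ≤ U.card + 1 := by exact_mod_cast h1
    have h3 : 1 ≤ c₃ / 2 * lg := by
      rw [div_le_iff₀ hc₃, ← hlg] at hlogc
      linarith
    rw [← hlg] at hU
    linarith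
  have hU'm : ∀ k ∈ U', k ≠ t₀ ∧ (k : ℝ) ≤ lg ^ 2 + 1 := by
    intro k hk
    rw [hU', mem_insert, mem_erase] at hk
    rw [← hlg] at ht0 hUy
    rcases hk with h | ⟨h1, h2⟩
    · rw [h]
      push_cast
      exact ⟨by omega, by linarith⟩
    · exact ⟨h1, by linarith [hUy k h2]⟩
  have hQr1 : (1 : ℝ) ≤ Q := by exact_mod_cast hQ
  have hpf : 2 * (Q.primeFactors.card : ℝ) ≤ (Real.log s) ^ 4 := by
    have h1 := card_pf Q hQ
    have h2 : Real.log Q ≤ lg := by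
      rw [hlg]
      exact Real.log_le_log (by linarith) (by exact_mod_cast hQs)
    rw [← hlg]
    have h3 : 4 * lg ≤ lg ^ 4 := by
      have : lg ^ 4 = lg * lg ^ 3 := by ring
      rw [this, mul_comm]
      apply mul_le_mul_of_nonneg_left _ hlg0.le
      calc (4 : ℝ) ≤ lg := by linarith
        _ ≤ lg ^ 3 := le_self_pow₀ (by linarith) (by norm_num)
    linarith
  obtain ⟨PP, VV, TT, Z, hWD, hdis⟩ := hcr Q.primeFactors U' hpf hU'ne (by rw [← hlg]; exact hU'c)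
  have hPPp : ∀ p ∈ PP, p.Prime := fun p hp => (hWD.pr p hp).1
  have hPPa : ∀ p ∈ PP, ¬ p ∣ Q := fun p hp h1 =>
    hdis p hp (Nat.mem_primeFactors.2 ⟨hPPp p hp, h1, hQ.ne'⟩)
  have hPbig : ∀ p ∈ PP, lg ^ 2 + 1 < (p : ℝ) ∧ lg ^ 4 < p := by
    intro p hp
    have h1 := (hWD.pr p hp).2.1
    rw [← hlg] at h1
    have h2 : lg ^ 4 ≤ lg ^ Ac := pow_le_pow_right₀ (by linarith) hAc4
    have h3 : lg ^ 2 + 1 ≤ lg ^ 4 := by
      have : lg ^ 4 = lg ^ 2 * lg ^ 2 := by ring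
      have h4 : 100 ≤ lg ^ 2 := by
        calc (100 : ℝ) ≤ 100 ^ 2 := by norm_num
          _ ≤ lg ^ 2 := pow_le_pow_left₀ (by norm_num) (by linarith) 2
      have h5 : lg ^ 2 * 100 ≤ lg ^ 2 * lg ^ 2 := mul_le_mul_of_nonneg_left h4 (sq_nonneg lg)
      linarith
    exact ⟨by linarith, by linarith⟩
  obtain ⟨B, hB⟩ : ∃ B : ℝ, B = (s : ℝ) ^ (1 / 100 : ℝ) := ⟨_, rfl⟩
  have hB0 : 0 < B := by rw [hB]; positivity
  have hB1 : 1 ≤ B := by rw [hB]; exact Real.one_le_rpow hs1' (by norm_num)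
  have hBs : B ≤ s := by
    rw [hB]
    calc (s : ℝ) ^ (1 / 100 : ℝ) ≤ (s : ℝ) ^ (1 : ℝ) := Real.rpow_le_rpow_of_exponent_le hs1' (by norm_num)
      _ = s := Real.rpow_one _
  have hLvV : Lv (pP PP) B B VV := by rw [hB]; exact hWD.LvV
  have hLvT : Lv (pP PP) B B (fun x => VV x * TT x) := by rw [hB]; exact hWD.LvT
  have hPs : ∀ p ∈ PP, p ≤ s := by
    intro p hp
    have h1 := (hWD.pr p hp).2.2
    have h2 : (p : ℝ) ≤ s := by
      refine h1.trans ?_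
      calc (s : ℝ) ^ (1 / 1000 : ℝ) ≤ (s : ℝ) ^ (1 : ℝ) := Real.rpow_le_rpow_of_exponent_le hs1' (by norm_num)
        _ = s := Real.rpow_one _
    exact_mod_cast h2
  obtain ⟨w, hw⟩ : ∃ w : ℕ, w = s ^ 16 := ⟨_, rfl⟩
  have hsw : s ≤ w := by rw [hw]; exact Nat.le_self_pow (by norm_num) s
  have hwr : (w : ℝ) = (s : ℝ) ^ 16 := by rw [hw]; push_cast; rfl
  obtain ⟨P, hPd⟩ : ∃ P : Finset ℕ, P = Pz w \ Pz z0 := ⟨_, rfl⟩
  have hPiff : ∀ p, p ∈ P ↔ p.Prime ∧ z0 < p ∧ p ≤ w := by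
    intro p
    rw [hPd, Finset.mem_sdiff, mem_Pz, mem_Pz]
    constructor
    · rintro ⟨⟨h1, h2⟩, h3⟩
      refine ⟨h2, ?_, h1⟩
      by_contra hcon
      exact h3 ⟨not_lt.1 hcon, h2⟩
    · rintro ⟨h1, h2, h3⟩
      exact ⟨⟨h3, h1⟩, fun h4 => by omega⟩
  have hPm : ∀ p ∈ P, p.Prime ∧ z0 < p ∧ p ≤ w := fun p hp => (hPiff p).1 hp
  have hPPP : PP ⊆ P := by
    intro p hp
    rw [hPiff]
    refine ⟨hPPp p hp, ?_, (hPs p hp).trans hsw⟩
    by_contra hcon
    push Not at hcon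
    exact hPPa p hp (hall p (hPPp p hp) (by omega))
  obtain ⟨J, hJ1, hJ2⟩ := J_ex w (by omega)
  have hJs : (J : ℝ) + 2 ≤ s := by
    refine (J_le (s := s) (by omega) ?_).trans ev2
    calc 2 ^ 2 ^ J ≤ w ^ 2 := hJ2
      _ = s ^ 32 := by rw [hw, ← pow_mul]
  have hlev : (((2 ^ 2 ^ J) ^ (C * bb) : ℕ) : ℝ) ≤ (s : ℝ) ^ e := by
    have h1 : (2 ^ 2 ^ J) ^ (C * bb) ≤ s ^ e := by
      calc (2 ^ 2 ^ J) ^ (C * bb) ≤ (w ^ 2) ^ (C * bb) := Nat.pow_le_pow_left hJ2 _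
        _ = s ^ e := by
            rw [hw, he, ← pow_mul, ← pow_mul]
            congr 1
            ring
    exact_mod_cast h1
  have hdisj : Disjoint ZW P := by
    rw [hZWd, hPd]
    exact disjoint_sdiff
  have hν : ∀ p ∈ ZW, ¬ p ∣ Q * 0 + b := by
    intro p hp hd
    rw [mul_zero, zero_add] at hd
    have hpp := hZWp p hp
    rw [hZWd, mem_Pz] at hp
    have h1 := Nat.dvd_gcd hd (hall p hpp (by omega))
    rw [hcop] at h1
    exact hpp.one_lt.ne' (Nat.dvd_one.1 h1)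
  obtain ⟨N, hN⟩ : ∃ N : ℕ, N = s ^ (16 * u) := ⟨_, rfl⟩
  have hNr : (N : ℝ) = (s : ℝ) ^ (16 * u) := by rw [hN]; push_cast; rfl
  rw [← hN]
  obtain ⟨D, hD⟩ : ∃ D : ℕ, D = Nat.sqrt (Q * N + b) := ⟨_, rfl⟩
  have hval : Q * N + b ≤ 2 * s ^ (16 * u + 1) := by
    have h1 : Q * N ≤ s * N := Nat.mul_le_mul_right N hQs
    have h2 : b ≤ s := hbQ.trans hQs
    have h3 : s * N = s ^ (16 * u + 1) := by rw [hN, pow_succ, mul_comm]
    have h4 : s ≤ s ^ (16 * u + 1) := Nat.le_self_pow (by omega) s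
    omega
  have hval2 : Q * N + b ≤ s ^ (16 * u + 2) := by
    refine hval.trans ?_
    calc 2 * s ^ (16 * u + 1) ≤ s * s ^ (16 * u + 1) := Nat.mul_le_mul_right _ (by omega)
      _ = s ^ (16 * u + 2) := by ring
  have hvaly : Q * N + b < w ^ (u + 1) := by
    refine lt_of_le_of_lt hval2 ?_
    rw [hw, ← pow_mul]
    exact Nat.pow_lt_pow_right (by omega) (by omega)
  have hDs : D ≤ s ^ (8 * u + 1) := by
    rw [hD]
    have h1 : Q * N + b ≤ s ^ (8 * u + 1) * s ^ (8 * u + 1) := by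
      refine hval2.trans (le_of_eq ?_)
      rw [← pow_add]
      congr 1
      ring
    calc Nat.sqrt (Q * N + b) ≤ Nat.sqrt (s ^ (8 * u + 1) * s ^ (8 * u + 1)) := Nat.sqrt_le_sqrt h1
      _ = _ := Nat.sqrt_eq _
  have hDN : D ≤ N := by
    refine hDs.trans ?_
    rw [hN]
    exact Nat.pow_le_pow_right (by omega) (by omega)
  have hDr : (D : ℝ) ≤ (s : ℝ) ^ (8 * u + 1) := by exact_mod_cast hDs
  -- the colouring of the rows
  have htU' : t₀ ∉ U' := fun h1 => (hU'm t₀ h1).1 rfl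
  obtain ⟨res, hinj, hroot, hcol⟩ := resdata (Q := Q) (b := b) (t₀ := t₀) (PP := PP)
    (fun p hp => ⟨hPPp p hp, hPPa p hp⟩) U' htU' (by
      intro p hp
      have h1 := (hPbig p hp).1
      rw [← hlg] at ht0
      refine ⟨?_, fun k hk => ?_⟩
      · have : (t₀ : ℝ) < p := by linarith
        exact_mod_cast this
      · have : (k : ℝ) < p := lt_of_le_of_lt (hU'm k hk).2 h1
        exact_mod_cast this)
  obtain ⟨om, hom⟩ : ∃ om : ℕ → ℝ, om = fun n : ℕ => VV (colr PP res (n : ℤ)) := ⟨_, rfl⟩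
  have hom0 : ∀ n, 0 ≤ om n := fun n => by rw [hom]; exact hWD.V0 _
  have homB : ∀ n, om n ≤ B := fun n => by
    rw [hom]
    exact (le_abs_self _).trans (Lv_le hLvV _)
  obtain ⟨EV, hEV⟩ : ∃ EV : ℝ, EV = EE (gQ PP) VV := ⟨_, rfl⟩
  have hZ1 := hWD.Z1
  have hEVlow : 9 / 16 * Z ≤ EV := by rw [hEV]; exact hWD.lowQ
  have hEV0 : 0 < EV := by linarith
  have hEVhalf : 9 / 16 ≤ EV := by linarith
  have hκc : (Fintype.card ↥U' : ℝ) = U'.card := by rw [Fintype.card_coe]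
  have hu4 : ∀ p ∈ PP, (Fintype.card ↥U' : ℝ) * (4 / p) ≤ 1 := by
    intro p hp
    have h1 := (hPbig p hp).2
    have h2 : (U'.card : ℝ) ≤ lg := by
      refine hU'c.trans ?_
      calc c₃ * lg ≤ 1 * lg := mul_le_mul_of_nonneg_right hc₃1 hlg0.le
        _ = lg := one_mul _
    have hp0 : (0 : ℝ) < p := lt_trans (by positivity) h1
    rw [hκc, mul_div_assoc', div_le_one hp0]
    have h3 : 4 * lg ≤ lg ^ 4 := by
      have : lg ^ 4 = lg * lg ^ 3 := by ring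
      rw [this, mul_comm]
      apply mul_le_mul_of_nonneg_left _ hlg0.le
      calc (4 : ℝ) ≤ lg := by linarith
        _ ≤ lg ^ 3 := le_self_pow₀ (by linarith) (by norm_num)
    linarith
  -- the sets
  obtain ⟨G1, hG1⟩ : ∃ G1 : Finset ℕ, G1 = GS W 0 N P (Ri Q b) := ⟨_, rfl⟩
  obtain ⟨Gc, hGc⟩ : ∃ Gc : Finset ℕ, Gc = G1.filter (fun n => ¬ (Q * n + b).Prime) := ⟨_, rfl⟩
  obtain ⟨Gp, hGp⟩ : ∃ Gp : Finset ℕ, Gp = G1.filter (fun n => (Q * n + b).Prime) := ⟨_, rfl⟩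
  -- the data of the primes
  have hrd := root_data (a := Q) (b := b) (W := W) (ν := 0) (y := w) hQ (hQs.trans hsw) (ZW := ZW)
    (fun p hp => ⟨hZWp p hp, by
      rw [hZWd] at hp
      have := (mem_Pz.1 hp).1
      omega⟩) hW
  have hrd' : ∀ r : ℕ, ∃ t : ℕ × ℕ × ℕ, r.Prime → w < r → t.1 < r ∧ r * t.2.1 = Q * t.1 + b ∧
      t.1 + r * t.2.2 ≡ 0 [MOD W] := by
    intro r
    by_cases h1 : r.Prime ∧ w < r
    · obtain ⟨x1, x2, x3, h2⟩ := hrd r h1.1 h1.2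
      exact ⟨(x1, x2, x3), fun _ _ => h2⟩
    · exact ⟨(0, 0, 0), fun h2 h3 => absurd ⟨h2, h3⟩ h1⟩
  choose tt htt using hrd'
  have hall' : ∀ p : ℕ, p.Prime → p ≤ w → p ∈ ZW ∨ p ∈ P := by
    intro p hp hpy
    by_cases h1 : p ∈ ZW
    · exact Or.inl h1
    · right
      rw [hPd, Finset.mem_sdiff, mem_Pz]
      refine ⟨⟨hpy, hp⟩, ?_⟩
      rw [← hZWd]
      exact h1
  have hhit : ∀ p ∈ P, ∀ n, p ∣ Q * n + b → n % p ∈ Ri Q b p := by
    intro p hp n hpd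
    unfold Ri
    rw [mem_filter, mem_range]
    refine ⟨Nat.mod_lt _ (hPm p hp).1.pos, ?_⟩
    have h1 : Q * (n % p) + b ≡ Q * n + b [MOD p] := ((Nat.mod_modEq n p).mul_left _).add_right _
    exact (h1.dvd_iff dvd_rfl).2 hpd
  have hrem := rem_plusW h hQ hfa hcop.symm hb1 hbQ (y := w) (by omega) (hQs.trans hsw)
    (ZW := ZW) (P := P) (fun p hp => ⟨hZWp p hp, by
      rw [hZWd] at hp
      have := (mem_Pz.1 hp).1
      omega⟩) hW hall' (Ri Q b) hhit 0 N u hν hvaly Gc (by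
        rw [hGc, ← hG1]; exact filter_subset _ _) (by
        intro n hn
        rw [hGc, mem_filter] at hn
        exact hn.2)
    (fun r => (tt r).1) (fun r => (tt r).2.1) (fun r => (tt r).2.2) htt om hom0 B homB
  rw [← hD] at hrem
  -- the lower bound
  have hRtk : ∀ p ∈ P, (Ri Q b p).card ≤ 1 ∧ ∀ c ∈ Ri Q b p, c < p ∧ p ∣ Q * c + b := by
    intro p hp
    refine ⟨?_, fun c hc => ?_⟩
    · by_cases h1 : p ∣ Q
      · rw [Ri_empty (hPm p hp).1 hcop h1, card_empty]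
        omega
      · rw [Ri_card (hPm p hp).1 ((Nat.coprime_comm).1 ((Nat.Prime.coprime_iff_not_dvd (hPm p hp).1).2 h1))]
    · unfold Ri at hc
      rw [mem_filter, mem_range] at hc
      exact hc
  have hRt1 : ∀ p ∈ PP, (Ri Q b p).card = 1 := fun p hp =>
    Ri_card (hPPp p hp) ((Nat.coprime_comm).1 ((Nat.Prime.coprime_iff_not_dvd (hPPp p hp)).2 (hPPa p hp)))
  have hPJ : ∀ p ∈ P, p.Prime ∧ z0 < p ∧ p ≤ 2 ^ 2 ^ J := fun p hp =>
    ⟨(hPm p hp).1, (hPm p hp).2.1, (hPm p hp).2.2.trans hJ1⟩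
  have hL0 : 0 ≤ L := le_trans (by positivity) hLs
  have hlow := svV hF h hL hL0 hQ hfa hcop.symm hbQ hχ bb J z0 ZW P hZWp hPJ hdisj (Ri Q b) hRtk
    (by omega) (by omega) 0 N hν PP hPPP hPPa hRt1 hu4 res hinj hroot VV hWD.V0 _ _ hLvV
  have htp := apV0 h hL hQ hfa hcop.symm hbQ hχ ZW hZWp 0 N hν PP (fun p hp => ⟨hPPp p hp, hPPa p hp⟩)
    (Finset.disjoint_of_subset_right hPPP hdisj) res hinj hroot (fun x => VV x * TT x) _ _ hLvT
  rw [← hW, ← hD, ← hEV] at hlow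
  rw [← hW, ← hD] at htp
  obtain ⟨V, hV⟩ : ∃ V : ℝ, V = ∏ p ∈ P, (1 - gg χ Q b (Ri Q b) p) := ⟨_, rfl⟩
  obtain ⟨LP, hLP⟩ : ∃ LP : ℝ, LP = L * ∏ p ∈ ZW ∪ Q.primeFactors, (1 - χ p / p) := ⟨_, rfl⟩
  obtain ⟨F, hFd⟩ : ∃ F : ℝ, F = ((J : ℝ) + 2) * ((((2 ^ 2 ^ J) ^ (C * bb) : ℕ) : ℝ) * (((2 ^ 2 ^ J) ^ (C * bb) : ℕ) : ℝ) *
        (B * (17 * (Q : ℝ) ^ 2))) := ⟨_, rfl⟩
  have hF0 : 0 ≤ F := by rw [hFd]; positivity
  have har : (Q : ℝ) ≤ s := by exact_mod_cast hQs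
  have hFs : F ≤ (s : ℝ) ^ (2 * e + 5) := by
    rw [hFd]
    calc ((J : ℝ) + 2) * ((((2 ^ 2 ^ J) ^ (C * bb) : ℕ) : ℝ) * (((2 ^ 2 ^ J) ^ (C * bb) : ℕ) : ℝ) *
        (B * (17 * (Q : ℝ) ^ 2))) ≤
        s * ((s : ℝ) ^ e * (s : ℝ) ^ e * (s * (s * (s : ℝ) ^ 2))) := by
          gcongr
          linarith
      _ = _ := by ring
  rw [← hV, ← hLP] at hlow
  rw [← hLP] at htp
  have hV0 : c6 / (Real.log w) ^ (4 * 1 + 2) ≤ V := by
    rw [hV]
    apply hVl f χ h Q b w P (Ri Q b) (by omega)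
    intro p hp
    exact ⟨(hPm p hp).1, by have := (hPm p hp).2.1; omega, (hPm p hp).2.2, (hRtk p hp).1⟩
  have hlogw : Real.log w = 16 * lg := by
    rw [hwr, Real.log_pow, hlg]; norm_num
  rw [hlogw] at hV0
  have hVpos : 0 < V := lt_of_lt_of_le (by positivity) hV0
  have hZc : 1 / ((2 : ℝ) ^ ZW.card * Q) ≤ ∏ p ∈ ZW ∪ Q.primeFactors, (1 - χ p / p) :=
    prod_low h hQ ZW hZWp
  have hprod0 : 0 ≤ ∏ p ∈ ZW ∪ Q.primeFactors, (1 - χ p / p) := le_trans (by positivity) hZc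
  have hLP0 : 0 ≤ LP := by rw [hLP]; exact mul_nonneg hL0 hprod0
  have hai0 : (0 : ℝ) < Q := by exact_mod_cast hQ
  have hWr : (0 : ℝ) < W := by exact_mod_cast hW0
  have hNpos : (0 : ℝ) < N := by rw [hNr]; positivity
  obtain ⟨AV, hAV⟩ : ∃ AV : ℝ, AV = 2 * ((N : ℝ) / W) * LP * V * EV := ⟨_, rfl⟩
  have hAV0 : 0 ≤ AV := by rw [hAV]; positivity
  have hhalf : (1 / 2 : ℝ) ^ bb ≤ 1 / 2 := by
    calc (1 / 2 : ℝ) ^ bb ≤ (1 / 2 : ℝ) ^ 1 := pow_le_pow_of_le_one (by norm_num) (by norm_num) hbb1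
      _ = 1 / 2 := pow_one _
  have e0 : 1 / 2 * AV - F * ((D : ℝ) + 1) ≤ ∑ n ∈ G1, lam χ (Q * n + b) * om n := by
    have h1 := (abs_le.1 hlow).1
    have h2 : (1 / 2 : ℝ) ^ bb * AV ≤ 1 / 2 * AV := mul_le_mul_of_nonneg_right hhalf hAV0
    have h3 : ((J : ℝ) + 2) * ((((2 ^ 2 ^ J) ^ (C * bb) : ℕ) : ℝ) * (((2 ^ 2 ^ J) ^ (C * bb) : ℕ) : ℝ) *
        (B * (17 * (Q : ℝ) ^ 2 * ((D : ℝ) + 1)))) = F * ((D : ℝ) + 1) := by rw [hFd]; ring
    rw [h3, ← hAV] at h1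
    rw [hG1, hom]
    linarith
  -- the part of `T`
  have e0T : ∑ n ∈ G1, lam χ (Q * n + b) * (VV (colr PP res (n : ℤ)) * TT (colr PP res (n : ℤ))) ≤
      1 / 32 * AV + F * ((D : ℝ) + 1) := by
    have h1 := (abs_le.1 htp).2
    have h2 : ∑ n ∈ G1, lam χ (Q * n + b) * (VV (colr PP res (n : ℤ)) * TT (colr PP res (n : ℤ))) ≤
        ∑ n ∈ (Icc 1 N).filter (fun n => n ≡ 0 [MOD W]), lam χ (Q * n + b) *
          (VV (colr PP res (n : ℤ)) * TT (colr PP res (n : ℤ))) := by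
      apply sum_le_sum_of_subset_of_nonneg
      · intro n hn
        rw [hG1, mem_GS] at hn
        rw [mem_filter, mem_Icc]
        exact ⟨hn.1, hn.2.1⟩
      · intro n _ _
        exact mul_nonneg (lam_nonneg h _) (mul_nonneg (hWD.V0 _) (hWD.T0 _))
    have h3 := EE_ratio h hPPp (κ := ↥U') (fun i => by rw [hκc]; exact hWD.ug i) (fun x => VV x * TT x)
      (fun x => mul_nonneg (hWD.V0 _) (hWD.T0 _))
    have h4 : Real.exp (∑ i, gP PP i) ≤ lg := by
      have h5 := Real.exp_le_exp.2 hWD.sg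
      rw [← hlg, Real.exp_log hlg0] at h5
      exact h5
    have h5 := hWD.upT
    rw [← hlg] at h5
    have h6 : 0 ≤ EE (gP PP) (fun x => VV x * TT x) := by
      unfold Pool.Agent.H256R2.SC.EE
      apply sum_nonneg
      intro x _
      apply mul_nonneg (prod_nonneg fun i _ => ?_) (mul_nonneg (hWD.V0 _) (hWD.T0 _))
      have h7 := hWD.ug i
      have h8 : 0 ≤ gP PP i := by
        unfold Pool.Agent.H312R2.RG.gP
        positivity
      unfold Pool.Agent.H256R2.SC.wt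
      split
      · rw [hκc]; linarith
      · exact h8
    have h7 : EE (fun i => gL χ (emb PP i)) (fun x => VV x * TT x) ≤ lg * (Z / lg ^ 40) :=
      h3.trans (mul_le_mul h4 h5 h6 hlg0.le)
    have h8 : 2 * ((N : ℝ) / W) * LP * (lg * (Z / lg ^ 40)) ≤ 1 / 32 * AV := by
      have h9 : lg * (Z / lg ^ 40) ≤ 1 / 32 * (V * EV) := by
        have h10 : c6 / (16 * lg) ^ (4 * 1 + 2) * (9 / 16 * Z) ≤ V * EV :=
          mul_le_mul hV0 hEVlow (by positivity) hVpos.le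
        have h11 : lg * (Z / lg ^ 40) ≤ 1 / 32 * (c6 / (16 * lg) ^ (4 * 1 + 2) * (9 / 16 * Z)) := by
          have h12 : lg / lg ^ 40 ≤ 1 / 32 * (c6 / (16 * lg) ^ (4 * 1 + 2) * (9 / 16)) := by
            rw [← hlg] at hlog40
            have h13 : 1 / 32 * (c6 / (16 * lg) ^ (4 * 1 + 2) * (9 / 16)) = (9 * c6) / (512 * (16 * lg) ^ (4 * 1 + 2)) := by
              field_simp
              ring
            rw [h13, div_le_div_iff₀ (by positivity) (by positivity)]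
            have h14 : lg * (512 * (16 * lg) ^ (4 * 1 + 2)) = 8 * (16 ^ 6 * 64 * lg ^ 7) := by ring
            rw [h14]
            have h15 : 16 ^ 6 * 64 * lg ^ 7 ≤ 16 ^ 6 * 64 * lg ^ 8 := by
              apply mul_le_mul_of_nonneg_left _ (by positivity)
              exact pow_le_pow_right₀ (by linarith) (by norm_num)
            have h16 : 0 < c6 * lg ^ 40 := by positivity
            linarith
          calc lg * (Z / lg ^ 40) = (lg / lg ^ 40) * Z := by ring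
            _ ≤ (1 / 32 * (c6 / (16 * lg) ^ (4 * 1 + 2) * (9 / 16))) * Z := mul_le_mul_of_nonneg_right h12 (by linarith)
            _ = _ := by ring
        linarith
      calc 2 * ((N : ℝ) / W) * LP * (lg * (Z / lg ^ 40)) ≤ 2 * ((N : ℝ) / W) * LP * (1 / 32 * (V * EV)) :=
            mul_le_mul_of_nonneg_left h9 (by positivity)
        _ = _ := by rw [hAV]; ring
    have h9 : 2 * ((N : ℝ) / W) * LP * EE (fun i => gL χ (emb PP i)) (fun x => VV x * TT x) ≤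
        2 * ((N : ℝ) / W) * LP * (lg * (Z / lg ^ 40)) := mul_le_mul_of_nonneg_left h7 (by positivity)
    have h10 : B * (17 * (Q : ℝ) ^ 2 * ((D : ℝ) + 1)) ≤ F * ((D : ℝ) + 1) := by
      have h11 : B * (17 * (Q : ℝ) ^ 2) ≤ F := by
        rw [hFd]
        have h12 : (1 : ℝ) ≤ ((J : ℝ) + 2) * ((((2 ^ 2 ^ J) ^ (C * bb) : ℕ) : ℝ) * (((2 ^ 2 ^ J) ^ (C * bb) : ℕ) : ℝ)) := by
          have h13 : (1 : ℝ) ≤ (((2 ^ 2 ^ J) ^ (C * bb) : ℕ) : ℝ) := by
            have : 1 ≤ (2 ^ 2 ^ J) ^ (C * bb) := Nat.one_le_pow _ _ (by positivity)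
            exact_mod_cast this
          have h14 : (0 : ℝ) ≤ J := Nat.cast_nonneg J
          have h15 : (1 : ℝ) ≤ (((2 ^ 2 ^ J) ^ (C * bb) : ℕ) : ℝ) * (((2 ^ 2 ^ J) ^ (C * bb) : ℕ) : ℝ) :=
            one_le_mul_of_one_le_of_one_le h13 h13
          exact one_le_mul_of_one_le_of_one_le (by linarith) h15
        calc B * (17 * (Q : ℝ) ^ 2) = 1 * (B * (17 * (Q : ℝ) ^ 2)) := (one_mul _).symm
          _ ≤ (((J : ℝ) + 2) * ((((2 ^ 2 ^ J) ^ (C * bb) : ℕ) : ℝ) * (((2 ^ 2 ^ J) ^ (C * bb) : ℕ) : ℝ))) *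
              (B * (17 * (Q : ℝ) ^ 2)) := mul_le_mul_of_nonneg_right h12 (by positivity)
          _ = _ := by ring
      calc B * (17 * (Q : ℝ) ^ 2 * ((D : ℝ) + 1)) = (B * (17 * (Q : ℝ) ^ 2)) * ((D : ℝ) + 1) := by ring
        _ ≤ _ := mul_le_mul_of_nonneg_right h11 (by positivity)
    linarith
  -- the upper bounds
  obtain ⟨X2, hX2⟩ : ∃ X2 : ℝ, X2 = 2 * Q * N := ⟨_, rfl⟩
  have hX20 : 0 ≤ X2 := by rw [hX2]; positivity
  have e1 : ∀ r ∈ (Ioc w D).filter (fun r => r.Prime ∧ χ r = 1),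
      2 * ∑ t ∈ GS W (tt r).2.2 (N / r) P (RtR (Ri Q b) r (tt r).1), lam χ (Q * t + (tt r).2.1) * om ((tt r).1 + r * t) ≤
      3 * AV * (1 / r) + 2 * (F * (Real.sqrt X2 * (1 / Real.sqrt r) + 1)) := by
    intro r hr
    rw [mem_filter, mem_Ioc] at hr
    obtain ⟨⟨hyr', hrD⟩, hrp, hχr⟩ := hr
    obtain ⟨d1, d2, d3⟩ := htt r hrp hyr'
    have hr0 : (0 : ℝ) < r := by exact_mod_cast hrp.pos
    have hrP : ∀ p ∈ P, r.Coprime p := by
      intro p hp
      rw [Nat.coprime_primes hrp (hPm p hp).1]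
      have := (hPm p hp).2.2
      omega
    have hb' : (tt r).2.1 ≤ Q := by
      have h1 : r * (tt r).2.1 ≤ r * Q := by
        rw [d2]
        have h2 : Q * (tt r).1 ≤ Q * (r - 1) := Nat.mul_le_mul_left _ (by omega)
        have h3 : Q * (r - 1) + Q = r * Q := by
          have : r - 1 + 1 = r := by omega
          calc Q * (r - 1) + Q = Q * (r - 1 + 1) := by ring
            _ = r * Q := by rw [this, mul_comm]
        omega
      exact Nat.le_of_mul_le_mul_left h1 hrp.pos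
    have hcop' : Q.Coprime (tt r).2.1 := by
      have h1 : Q.Coprime (r * (tt r).2.1) := by
        rw [d2]
        have := hcop.symm
        rw [Nat.coprime_iff_gcd_eq_one] at this ⊢
        rw [add_comm, Nat.gcd_add_mul_left_right]
        exact this
      exact Nat.Coprime.coprime_mul_left_right h1
    have hχ' : χ (tt r).2.1 = 1 := by
      have h1 : χ (r * (tt r).2.1) = 1 := by
        rw [d2, ← hχ]
        apply h.per
        have h3 : Q * (tt r).1 ≡ 0 [MOD f] := Nat.modEq_zero_iff_dvd.2 (hfa.mul_right _)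
        have := h3.add_right b
        rwa [zero_add] at this
      rw [h.mul, hχr, one_mul] at h1
      exact h1
    have hν' : ∀ p ∈ ZW, ¬ p ∣ Q * (tt r).2.2 + (tt r).2.1 := by
      intro p hp hd
      apply hν p hp
      have h1 : p ∣ r * (Q * (tt r).2.2 + (tt r).2.1) := hd.mul_left r
      have h2 : r * (Q * (tt r).2.2 + (tt r).2.1) = Q * ((tt r).1 + r * (tt r).2.2) + b := by
        have : r * (Q * (tt r).2.2 + (tt r).2.1) = Q * (r * (tt r).2.2) + r * (tt r).2.1 := by ring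
        rw [this, d2]; ring
      rw [h2] at h1
      have h3 : p ∣ W := by rw [hW]; exact dvd_prod_of_mem _ hp
      have h4 : Q * ((tt r).1 + r * (tt r).2.2) + b ≡ Q * 0 + b [MOD p] :=
        ((d3.of_dvd h3).mul_left _).add_right _
      exact (h4.dvd_iff dvd_rfl).1 h1
    -- the colouring of the progression
    obtain ⟨res', hinj', hiff', hval'⟩ := restr hPPp (r := r) (fun p hp => hrP p (hPPP hp)) (tt r).1 res hinj
    have hroot' : ∀ p ∈ PP, ∀ k, ¬ ((p : ℤ) ∣ Q * res' p k + ((tt r).2.1 : ℕ)) := by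
      intro p hp k hd
      apply hroot p hp k
      have h1 := dvd_sub (hd.mul_left (r : ℤ)) ((hval' p hp k).mul_left (Q : ℤ))
      have h2 : (r : ℤ) * (Q * res' p k + ((tt r).2.1 : ℕ)) - Q * (((tt r).1 : ℤ) + r * res' p k - res p k) =
          Q * res p k + b := by
        have h3 : (r : ℤ) * ((tt r).2.1 : ℕ) = Q * ((tt r).1 : ℕ) + b := by exact_mod_cast d2
        linear_combination h3
      rwa [h2] at h1
    have hRtr : ∀ p ∈ P, (RtR (Ri Q b) r (tt r).1 p).card ≤ 1 ∧ ∀ c ∈ RtR (Ri Q b) r (tt r).1 p, c < p ∧ p ∣ Q * c + (tt r).2.1 := by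
      intro p hp
      have h1 := RtR_card (s := (tt r).1) (hrP p hp) (hRtk p hp).1
      refine ⟨h1.1, fun c hc => ⟨h1.2 c hc, ?_⟩⟩
      unfold RtR at hc
      rw [mem_filter] at hc
      have h2 := ((hRtk p hp).2 _ hc.2).2
      have h3 : Q * (((tt r).1 + r * c) % p) + b ≡ Q * ((tt r).1 + r * c) + b [MOD p] :=
        ((Nat.mod_modEq _ p).mul_left Q).add_right b
      have h4 : p ∣ Q * ((tt r).1 + r * c) + b := (h3.dvd_iff dvd_rfl).1 h2
      have h5 : Q * ((tt r).1 + r * c) + b = r * (Q * c + (tt r).2.1) := by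
        have : r * (Q * c + (tt r).2.1) = Q * (r * c) + r * (tt r).2.1 := by ring
        rw [this, d2]
        ring
      rw [h5] at h4
      exact ((hPm p hp).1.coprime_iff_not_dvd.2 (fun h6 => by
        have h7 := (Nat.prime_dvd_prime_iff_eq (hPm p hp).1 hrp).1 h6
        have := (hPm p hp).2.2
        omega)).dvd_of_dvd_mul_left h4
    have hRtr1 : ∀ p ∈ PP, (RtR (Ri Q b) r (tt r).1 p).card = 1 := by
      intro p hp
      rw [RtR_card_eq (hPPp p hp).pos (hrP p (hPPP hp)) (fun c hc => ((hRtk p (hPPP hp)).2 c hc).1)]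
      exact hRt1 p hp
    have hup := svV hF h hL hL0 hQ hfa hcop' hb' hχ' bb J z0 ZW P hZWp hPJ hdisj (RtR (Ri Q b) r (tt r).1) hRtr
      (by omega) (by omega) (tt r).2.2 (N / r) hν' PP hPPP hPPa hRtr1 hu4 res' hinj' hroot' VV hWD.V0 _ _ hLvV
    have hVr : ∏ p ∈ P, (1 - gg χ Q (tt r).2.1 (RtR (Ri Q b) r (tt r).1) p) = V := by
      rw [hV]
      apply prod_congr rfl
      intro p hp
      rw [gg_tr (hPm p hp).1 (hrP p hp) d2 (fun c hc => ((hRtk p hp).2 c hc).1)]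
    have homr : ∀ t : ℕ, om ((tt r).1 + r * t) = VV (colr PP res' (t : ℤ)) := by
      intro t
      rw [hom]
      simp only []
      congr 1
      apply colr_tr hinj hinj'
      intro p hp k
      have := hiff' p hp k (t : ℤ)
      push_cast
      exact this
    rw [sum_congr rfl (fun t _ => by rw [homr t] : ∀ t ∈ GS W (tt r).2.2 (N / r) P (RtR (Ri Q b) r (tt r).1),
      lam χ (Q * t + (tt r).2.1) * om ((tt r).1 + r * t) = lam χ (Q * t + (tt r).2.1) * VV (colr PP res' (t : ℤ)))]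
    rw [← hW, hVr, ← hLP, ← hEV] at hup
    have h1 := (abs_le.1 hup).2
    have h2 : ((N / r : ℕ) : ℝ) ≤ (N : ℝ) / r := Nat.cast_div_le
    have h3 : 2 * (((N / r : ℕ) : ℝ) / W) * LP * V * EV ≤ AV * (1 / r) := by
      rw [hAV]
      calc 2 * (((N / r : ℕ) : ℝ) / W) * LP * V * EV ≤ 2 * (((N : ℝ) / r) / W) * LP * V * EV := by gcongr
        _ = _ := by ring
    have h30 : 0 ≤ 2 * (((N / r : ℕ) : ℝ) / W) * LP * V * EV := by positivity
    have h4 : (1 / 2 : ℝ) ^ bb * (2 * (((N / r : ℕ) : ℝ) / W) * LP * V * EV) ≤ 1 / 2 * (AV * (1 / r)) := by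
      calc _ ≤ 1 / 2 * (2 * (((N / r : ℕ) : ℝ) / W) * LP * V * EV) := mul_le_mul_of_nonneg_right hhalf h30
        _ ≤ _ := mul_le_mul_of_nonneg_left h3 (by norm_num)
    have h5 : (Nat.sqrt (Q * (N / r) + (tt r).2.1) : ℝ) ≤ Real.sqrt X2 * (1 / Real.sqrt r) := by
      refine Real.nat_sqrt_le_real_sqrt.trans ?_
      rw [mul_one_div, ← Real.sqrt_div hX20]
      apply Real.sqrt_le_sqrt
      push_cast
      have h6 : (Q : ℝ) * ((N / r : ℕ) : ℝ) ≤ Q * (N / r) := mul_le_mul_of_nonneg_left h2 hai0.le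
      have h7 : ((tt r).2.1 : ℝ) ≤ Q := by exact_mod_cast hb'
      have h8 : (1 : ℝ) ≤ N / r := by
        rw [le_div_iff₀ hr0, one_mul]
        exact_mod_cast hrD.trans hDN
      have h9 : (Q : ℝ) * 1 ≤ Q * (N / r) := mul_le_mul_of_nonneg_left h8 hai0.le
      rw [hX2]
      have e : 2 * (Q : ℝ) * N / r = Q * (N / r) + Q * (N / r) := by ring
      rw [e]
      linarith
    have h6 : ((J : ℝ) + 2) * ((((2 ^ 2 ^ J) ^ (C * bb) : ℕ) : ℝ) * (((2 ^ 2 ^ J) ^ (C * bb) : ℕ) : ℝ) *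
        (B * (17 * (Q : ℝ) ^ 2 * ((Nat.sqrt (Q * (N / r) + (tt r).2.1) : ℝ) + 1)))) ≤
        F * (Real.sqrt X2 * (1 / Real.sqrt r) + 1) := by
      have e : ((J : ℝ) + 2) * ((((2 ^ 2 ^ J) ^ (C * bb) : ℕ) : ℝ) * (((2 ^ 2 ^ J) ^ (C * bb) : ℕ) : ℝ) *
        (B * (17 * (Q : ℝ) ^ 2 * ((Nat.sqrt (Q * (N / r) + (tt r).2.1) : ℝ) + 1)))) =
        F * ((Nat.sqrt (Q * (N / r) + (tt r).2.1) : ℝ) + 1) := by rw [hFd]; ring
      rw [e]
      apply mul_le_mul_of_nonneg_left _ hF0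
      linarith
    linarith
  have e2 : ∑ r ∈ (Ioc w D).filter (fun r => r.Prime ∧ χ r = 1), (1 / r : ℝ) ≤ 1 / 8 := by
    refine le_trans ?_ hsum
    apply sum_le_sum_of_subset_of_nonneg
    · intro r hr
      rw [mem_filter, mem_Ioc] at hr ⊢
      refine ⟨⟨by rw [← hw]; exact hr.1.1, hr.1.2.trans (hDs.trans ?_)⟩, hr.2⟩
      exact Nat.pow_le_pow_right (by omega) (by omega)
    · intro r _ _
      positivity
  have e3 : ∑ r ∈ (Ioc w D).filter (fun r => r.Prime ∧ χ r = 1), (F * (Real.sqrt X2 * (1 / Real.sqrt r) + 1)) ≤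
      F * (Real.sqrt X2 * (2 * Real.sqrt D) + D) := by
    calc _ ≤ ∑ r ∈ Icc 1 D, (F * (Real.sqrt X2 * (1 / Real.sqrt r) + 1)) := by
          apply sum_le_sum_of_subset_of_nonneg
          · intro r hr
            rw [mem_filter, mem_Ioc] at hr
            rw [mem_Icc]
            exact ⟨hr.2.1.one_lt.le, hr.1.2⟩
          · intro r _ _
            positivity
      _ = F * (Real.sqrt X2 * ∑ r ∈ Icc 1 D, 1 / Real.sqrt r + D) := by
          rw [← mul_sum, sum_add_distrib, ← mul_sum, sum_const, Nat.card_Icc, Nat.add_sub_cancel, nsmul_eq_mul, mul_one]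
      _ ≤ _ := by
          apply mul_le_mul_of_nonneg_left _ hF0
          apply add_le_add _ le_rfl
          exact mul_le_mul_of_nonneg_left (sum_inv_sqrt D) (Real.sqrt_nonneg _)
  have e4 : Real.sqrt X2 * (2 * Real.sqrt D) ≤ 2 * (s : ℝ) ^ (12 * u + 2) := by
    have h1 : X2 * D ≤ ((s : ℝ) ^ (12 * u + 2)) ^ 2 := by
      rw [hX2, hNr]
      calc 2 * (Q : ℝ) * (s : ℝ) ^ (16 * u) * D ≤ s * s * (s : ℝ) ^ (16 * u) * (s : ℝ) ^ (8 * u + 1) := by
            gcongr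
            linarith
        _ = (s : ℝ) ^ (24 * u + 3) := by
            rw [← sq, ← pow_add, ← pow_add]
            congr 1
            ring
        _ ≤ (s : ℝ) ^ (24 * u + 4) := pow_le_pow_right₀ hs1' (by omega)
        _ = ((s : ℝ) ^ (12 * u + 2)) ^ 2 := by
            rw [← pow_mul]
            congr 1
            ring
    have h2 : Real.sqrt X2 * Real.sqrt D ≤ (s : ℝ) ^ (12 * u + 2) := by
      rw [← Real.sqrt_mul hX20]
      calc Real.sqrt (X2 * D) ≤ Real.sqrt (((s : ℝ) ^ (12 * u + 2)) ^ 2) := Real.sqrt_le_sqrt h1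
        _ = _ := Real.sqrt_sq (by positivity)
    linarith
  have e5 : ∑ n ∈ Gc, lam χ (Q * n + b) * om n ≤
      3 * AV * ∑ r ∈ (Ioc w D).filter (fun r => r.Prime ∧ χ r = 1), (1 / r : ℝ) +
      2 * (F * (2 * (s : ℝ) ^ (12 * u + 2) + D)) + 2 ^ u * ((N : ℝ) / w + 2 * D) * B := by
    refine hrem.trans ?_
    apply add_le_add _ le_rfl
    refine (sum_le_sum e1).trans ?_
    rw [sum_add_distrib, ← mul_sum, ← mul_sum]
    apply add_le_add le_rfl
    apply mul_le_mul_of_nonneg_left _ (by norm_num)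
    refine e3.trans ?_
    apply mul_le_mul_of_nonneg_left _ hF0
    linarith
  -- the main term is large
  have hmain : 8 * (s : ℝ) ^ (16 * u - 4) ≤ 2 * AV := by
    rw [← hlg] at ev1
    have h1 : 4 * W * 2 ^ ZW.card * (16 * lg) ^ (4 * 1 + 2) ≤ s * c6 := by
      have h2 : 4 * W * 2 ^ ZW.card / c6 * (16 * lg) ^ (4 * 1 + 2) =
          4 * W * 2 ^ ZW.card * (16 * lg) ^ (4 * 1 + 2) / c6 := by ring
      rw [h2, div_le_iff₀ hc6] at ev1
      exact ev1
    have h2 : 1 / (s : ℝ) * (1 / (2 ^ ZW.card * s)) ≤ LP := by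
      rw [hLP]
      apply mul_le_mul hLs _ (by positivity) hL0
      refine le_trans ?_ hZc
      apply one_div_le_one_div_of_le (by positivity)
      exact mul_le_mul_of_nonneg_left har (by positivity)
    have h3 : 2 * ((N : ℝ) / W) * (1 / (s : ℝ) * (1 / (2 ^ ZW.card * s))) * (c6 / (16 * lg) ^ (4 * 1 + 2)) * (9 / 16) ≤ AV := by
      rw [hAV]
      gcongr
    have h4 : 8 * (s : ℝ) ^ (16 * u - 4) ≤
        2 * ((N : ℝ) / W) * (1 / (s : ℝ) * (1 / (2 ^ ZW.card * s))) * (c6 / (16 * lg) ^ (4 * 1 + 2)) := by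
      have e : 2 * ((N : ℝ) / W) * (1 / (s : ℝ) * (1 / (2 ^ ZW.card * s))) * (c6 / (16 * lg) ^ (4 * 1 + 2)) =
          2 * N * c6 / (W * 2 ^ ZW.card * (16 * lg) ^ (4 * 1 + 2) * s ^ 2) := by
        field_simp
      rw [e, le_div_iff₀ (by positivity)]
      have h5 : (N : ℝ) = (s : ℝ) ^ (16 * u - 4) * s ^ 4 := by
        rw [hNr, ← pow_add]
        congr 1
        omega
      rw [h5]
      have h6 : (0 : ℝ) ≤ (s : ℝ) ^ (16 * u - 4) * s ^ 2 := by positivity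
      have h7 := mul_le_mul_of_nonneg_left h1 h6
      have h8 : (s : ℝ) ^ (16 * u - 4) * s ^ 2 * (s * c6) ≤ (s : ℝ) ^ (16 * u - 4) * s ^ 4 * c6 := by
        have h9 : (s : ℝ) ^ 2 * s ≤ s ^ 4 := by
          have : (s : ℝ) ^ 4 = s ^ 2 * s * s := by ring
          rw [this]
          exact le_mul_of_one_le_right (by positivity) hs1'
        calc (s : ℝ) ^ (16 * u - 4) * s ^ 2 * (s * c6) = (s : ℝ) ^ (16 * u - 4) * (s ^ 2 * s) * c6 := by ring
          _ ≤ _ := by gcongr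
      linarith
    have h5 : (0 : ℝ) < (s : ℝ) ^ (16 * u - 4) := by positivity
    linarith
  have hDle : (D : ℝ) ≤ (s : ℝ) ^ (12 * u + 2) := hDr.trans (pow_le_pow_right₀ hs1' (by omega))
  have hone : (1 : ℝ) ≤ (s : ℝ) ^ (12 * u + 2) := one_le_pow₀ hs1'
  have g1 : 2 * (F * ((D : ℝ) + 1)) + 2 * (F * (2 * (s : ℝ) ^ (12 * u + 2) + D)) ≤ (s : ℝ) ^ (2 * e + 12 * u + 8) := by
    calc 2 * (F * ((D : ℝ) + 1)) + 2 * (F * (2 * (s : ℝ) ^ (12 * u + 2) + D)) =
        F * (4 * D + 2 + 4 * (s : ℝ) ^ (12 * u + 2)) := by ring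
      _ ≤ (s : ℝ) ^ (2 * e + 5) * (s * (s : ℝ) ^ (12 * u + 2)) := by
          apply mul_le_mul hFs _ (by positivity) (by positivity)
          have : 100 * (s : ℝ) ^ (12 * u + 2) ≤ s * (s : ℝ) ^ (12 * u + 2) := mul_le_mul_of_nonneg_right hsr (by positivity)
          linarith
      _ = _ := by
          rw [← pow_succ', ← pow_add]
          congr 1
          ring
  have g2 : (2 : ℝ) ^ u * ((N : ℝ) / w + 2 * D) * B ≤ 3 * (s : ℝ) ^ (16 * u - 6) := by
    have h1 : (2 : ℝ) ^ u ≤ s := by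
      have : 2 ^ u ≤ s := by omega
      exact_mod_cast this
    have h2 : (N : ℝ) / w = (s : ℝ) ^ (16 * u - 16) := by
      rw [hNr, hwr, div_eq_iff (by positivity), ← pow_add]
      congr 1
      omega
    rw [h2]
    have h3 : (s : ℝ) ^ (16 * u - 16) ≤ (s : ℝ) ^ (16 * u - 8) := pow_le_pow_right₀ hs1' (by omega)
    have h4 : (D : ℝ) ≤ (s : ℝ) ^ (16 * u - 8) := hDr.trans (pow_le_pow_right₀ hs1' (by omega))
    calc (2 : ℝ) ^ u * ((s : ℝ) ^ (16 * u - 16) + 2 * D) * B ≤ s * (3 * (s : ℝ) ^ (16 * u - 8)) * s := by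
          apply mul_le_mul _ hBs hB0.le (by positivity)
          apply mul_le_mul h1 _ (by positivity) hs0.le
          linarith
      _ = 3 * ((s : ℝ) ^ (16 * u - 8) * s ^ 2) := by ring
      _ = _ := by
          rw [← pow_add]
          congr 2
          omega
  have g3 : (s : ℝ) ^ (2 * e + 12 * u + 8) ≤ (s : ℝ) ^ (16 * u - 6) := pow_le_pow_right₀ hs1' (by omega)
  have g4 : 100 * (s : ℝ) ^ (16 * u - 6) ≤ (s : ℝ) ^ (16 * u - 5) := by
    have h1 : (s : ℝ) ^ (16 * u - 5) = (s : ℝ) ^ (16 * u - 6) * s := by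
      rw [← pow_succ]
      congr 1
      omega
    rw [h1, mul_comm]
    exact mul_le_mul_of_nonneg_left hsr (by positivity)
  have g5 : 100 * (s : ℝ) ^ (16 * u - 5) ≤ (s : ℝ) ^ (16 * u - 4) := by
    have h1 : (s : ℝ) ^ (16 * u - 4) = (s : ℝ) ^ (16 * u - 5) * s := by
      rw [← pow_succ]
      congr 1
      omega
    rw [h1, mul_comm]
    exact mul_le_mul_of_nonneg_left hsr (by positivity)
  -- the good rows
  obtain ⟨Gg, hGg⟩ : ∃ Gg : Finset ℕ, Gg = Gp.filter (fun n => N < n * n ∧ ∀ k ∈ U, k ≠ t₀ → ¬ (Q * n + b + k - t₀).Prime) :=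
    ⟨_, rfl⟩
  obtain ⟨Gs, hGs⟩ : ∃ Gs : Finset ℕ, Gs = Gp.filter (fun n => ¬ N < n * n) := ⟨_, rfl⟩
  have hGpp : ∀ n ∈ Gp, (Q * n + b).Prime ∧ 1 ≤ n ∧ n ≤ N := by
    intro n hn
    rw [hGp, mem_filter, hG1, mem_GS] at hn
    exact ⟨hn.2, hn.1.1⟩
  have hpt : ∀ n ∈ Gp, lam χ (Q * n + b) * om n - lam χ (Q * n + b) *
      (VV (colr PP res (n : ℤ)) * TT (colr PP res (n : ℤ))) ≤
      (if n ∈ Gg then 2 * B else 0) + (if n ∈ Gs then 2 * B else 0) := by
    intro n hn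
    obtain ⟨n1, n2, n3⟩ := hGpp n hn
    obtain ⟨x, hx⟩ : ∃ x, x = colr PP res (n : ℤ) := ⟨_, rfl⟩
    have hox : om n = VV x := by rw [hom, hx]
    rw [← hx, hox]
    have hV0x := hWD.V0 x
    have hT0x := hWD.T0 x
    have hVB : VV x ≤ B := (le_abs_self _).trans (Lv_le hLvV x)
    have hl0 := lam_nonneg h (Q * n + b)
    have hl2 := lam_prime h n1
    have k1 : lam χ (Q * n + b) * VV x - lam χ (Q * n + b) * (VV x * TT x) = lam χ (Q * n + b) * VV x * (1 - TT x) := by ring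
    rw [k1]
    have i1 : (0 : ℝ) ≤ (if n ∈ Gg then 2 * B else 0) := by split_ifs <;> positivity
    have i2 : (0 : ℝ) ≤ (if n ∈ Gs then 2 * B else 0) := by split_ifs <;> positivity
    have k2 : lam χ (Q * n + b) * VV x ≤ 2 * B := mul_le_mul hl2 hVB hV0x (by norm_num)
    have k3 : 0 ≤ lam χ (Q * n + b) * VV x := mul_nonneg hl0 hV0x
    by_cases hT1 : TT x < 1
    · have k4 : lam χ (Q * n + b) * VV x * (1 - TT x) ≤ 2 * B := by
        calc lam χ (Q * n + b) * VV x * (1 - TT x) ≤ lam χ (Q * n + b) * VV x * 1 :=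
              mul_le_mul_of_nonneg_left (by linarith) k3
          _ ≤ 2 * B := by rw [mul_one]; exact k2
      by_cases hsm : N < n * n
      · have hmem : n ∈ Gg := by
          rw [hGg, mem_filter]
          refine ⟨hn, hsm, fun k hk hkt hpr => ?_⟩
          have hkU : k ∈ U' := by
            rw [hU', mem_insert, mem_erase]
            exact Or.inr ⟨hkt, hk⟩
          obtain ⟨i, hi⟩ := hWD.kill x hT1 ⟨k, hkU⟩
          rw [hx, colr_eq hinj] at hi
          have hi2 := hcol _ (emb_mem PP i) ⟨k, hkU⟩ (n : ℤ) hi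
          simp only at hi2
          have hst : s < n := by
            by_contra hcon
            have q1 : n * n ≤ s * s := Nat.mul_le_mul (not_lt.1 hcon) (not_lt.1 hcon)
            have q2 : s * s ≤ N := by
              rw [hN, ← sq]
              exact Nat.pow_le_pow_right (by omega) (by omega)
            omega
          have ht₀s : 2 * t₀ ≤ s := by
            have q1 : 2 * (t₀ : ℝ) ≤ s := by
              rw [← hlg] at ht0 hlog4
              have q2 : 2 * lg ^ 2 ≤ lg ^ 4 := by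
                have : lg ^ 4 = lg ^ 2 * lg ^ 2 := by ring
                have q3 : 2 ≤ lg ^ 2 := by
                  calc (2 : ℝ) ≤ 100 ^ 2 := by norm_num
                    _ ≤ lg ^ 2 := pow_le_pow_left₀ (by norm_num) (by linarith) 2
                rw [this]
                exact mul_le_mul_of_nonneg_right q3 (sq_nonneg lg)
              linarith
            exact_mod_cast q1
          have hnQ : n ≤ Q * n := Nat.le_mul_of_pos_left n hQ
          have hcast : ((Q * n + b + k - t₀ : ℕ) : ℤ) = Q * (n : ℤ) + b + (k : ℕ) - t₀ := by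
            rw [Nat.cast_sub (by omega)]
            push_cast
            ring
          rw [← hcast] at hi2
          have q5 : (emb PP i : ℕ) ∣ Q * n + b + k - t₀ := by exact_mod_cast hi2
          have q6 := (Nat.prime_dvd_prime_iff_eq (hPPp _ (emb_mem PP i)) hpr).1 q5
          have q7 := hPs _ (emb_mem PP i)
          have q8 : ((emb PP i : ℕ) : ℝ) ≤ (s : ℝ) ^ (1 / 1000 : ℝ) := (hWD.pr _ (emb_mem PP i)).2.2
          have q9 : (s : ℝ) ^ (1 / 1000 : ℝ) ≤ (s : ℝ) ^ (1 / 2 : ℝ) :=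
            Real.rpow_le_rpow_of_exponent_le hs1' (by norm_num)
          rw [← Real.sqrt_eq_rpow] at q9
          have q10 : Real.sqrt s ≤ s / 2 := by
            rw [Real.sqrt_le_left (by positivity)]
            have q18 : (s : ℝ) * 1 ≤ s * (s / 4) := mul_le_mul_of_nonneg_left (by linarith) (Nat.cast_nonneg s)
            calc (s : ℝ) = s * 1 := (mul_one _).symm
              _ ≤ s * (s / 4) := q18
              _ = (s / 2) ^ 2 := by ring
          have q11 : ((Q * n + b + k - t₀ : ℕ) : ℝ) ≥ (s : ℝ) / 2 := by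
            have q12 : s ≤ 2 * (Q * n + b + k - t₀) := by omega
            have q13 : (s : ℝ) ≤ 2 * ((Q * n + b + k - t₀ : ℕ) : ℝ) := by exact_mod_cast q12
            linarith
          have q14 : ((emb PP i : ℕ) : ℝ) = ((Q * n + b + k - t₀ : ℕ) : ℝ) := by exact_mod_cast q6
          have q15 : 2 * (emb PP i : ℕ) = 2 * (Q * n + b + k - t₀) := by rw [q6]
          have q16 : s + 1 ≤ 2 * (Q * n + b + k - t₀) := by omega
          have q17 : (s : ℝ) + 1 ≤ 2 * ((Q * n + b + k - t₀ : ℕ) : ℝ) := by exact_mod_cast q16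
          linarith
        rw [if_pos hmem]
        linarith
      · have hmem : n ∈ Gs := by
          rw [hGs, mem_filter]
          exact ⟨hn, hsm⟩
        rw [if_pos hmem]
        linarith
    · push Not at hT1
      have k4 : lam χ (Q * n + b) * VV x * (1 - TT x) ≤ 0 :=
        mul_nonpos_of_nonneg_of_nonpos k3 (by linarith)
      linarith
  have hgp : ∑ n ∈ Gp, (lam χ (Q * n + b) * om n - lam χ (Q * n + b) *
      (VV (colr PP res (n : ℤ)) * TT (colr PP res (n : ℤ)))) ≤ 2 * B * Gg.card + 2 * B * Gs.card := by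
    refine (sum_le_sum hpt).trans ?_
    rw [sum_add_distrib]
    have h1 : ∑ n ∈ Gp, (if n ∈ Gg then 2 * B else 0) = 2 * B * Gg.card := by
      rw [sum_ite_mem, sum_const, nsmul_eq_mul, inter_eq_right.2 (by rw [hGg]; exact filter_subset _ _)]
      ring
    have h2 : ∑ n ∈ Gp, (if n ∈ Gs then 2 * B else 0) = 2 * B * Gs.card := by
      rw [sum_ite_mem, sum_const, nsmul_eq_mul, inter_eq_right.2 (by rw [hGs]; exact filter_subset _ _)]
      ring
    rw [h1, h2]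
  have hgs : (Gs.card : ℝ) ≤ (s : ℝ) ^ (8 * u) := by
    have h2 : Gs.card ≤ s ^ (8 * u) := by
      have h3 : Gs ⊆ Icc 1 (s ^ (8 * u)) := by
        intro n hn
        rw [hGs, mem_filter, not_lt] at hn
        rw [mem_Icc]
        refine ⟨(hGpp n hn.1).2.1, ?_⟩
        have h4 : N = s ^ (8 * u) * s ^ (8 * u) := by
          rw [hN, ← pow_add]
          congr 1
          ring
        rw [h4] at hn
        exact Nat.mul_self_le_mul_self_iff.1 hn.2
      have h4 := card_le_card h3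
      rwa [Nat.card_Icc, Nat.add_sub_cancel] at h4
    exact_mod_cast h2
  have hsplit : ∑ n ∈ G1, (lam χ (Q * n + b) * om n - lam χ (Q * n + b) *
      (VV (colr PP res (n : ℤ)) * TT (colr PP res (n : ℤ)))) = ∑ n ∈ Gp, (lam χ (Q * n + b) * om n - lam χ (Q * n + b) *
      (VV (colr PP res (n : ℤ)) * TT (colr PP res (n : ℤ)))) + ∑ n ∈ Gc, (lam χ (Q * n + b) * om n - lam χ (Q * n + b) *
      (VV (colr PP res (n : ℤ)) * TT (colr PP res (n : ℤ)))) := by
    rw [hGp, hGc]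
    exact (sum_filter_add_sum_filter_not _ _ _).symm
  have hgc : ∑ n ∈ Gc, (lam χ (Q * n + b) * om n - lam χ (Q * n + b) *
      (VV (colr PP res (n : ℤ)) * TT (colr PP res (n : ℤ)))) ≤ ∑ n ∈ Gc, lam χ (Q * n + b) * om n := by
    apply sum_le_sum
    intro n _
    have := mul_nonneg (lam_nonneg h (Q * n + b)) (mul_nonneg (hWD.V0 (colr PP res (n : ℤ))) (hWD.T0 (colr PP res (n : ℤ))))
    linarith
  rw [sum_sub_distrib] at hsplit
  have hGgle : (Gg.card : ℝ) ≤ (((Icc 1 N).filter (fun n => N < n * n ∧ (Q * n + b).Prime ∧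
      ∀ k ∈ U, k ≠ t₀ → ¬ (Q * n + b + k - t₀).Prime)).card : ℝ) := by
    refine Nat.cast_le.2 (card_le_card fun n hn => ?_)
    rw [hGg, mem_filter] at hn
    have h1 := hGpp n hn.1
    rw [mem_filter, mem_Icc]
    exact ⟨h1.2, hn.2.1, h1.1, hn.2.2⟩
  refine le_trans ?_ hGgle
  have h8 : AV * ∑ r ∈ (Ioc w D).filter (fun r => r.Prime ∧ χ r = 1), (1 / r : ℝ) ≤ AV * (1 / 8) :=
    mul_le_mul_of_nonneg_left e2 hAV0
  have h9 : (s : ℝ) ^ (16 * u - 5) ≤ 2 * B * Gg.card + 2 * B * Gs.card := by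
    linarith
  have h10 : 2 * B * Gs.card ≤ 2 * (s * (s : ℝ) ^ (8 * u)) := by
    have := mul_le_mul hBs hgs (Nat.cast_nonneg _) hs0.le
    linarith
  have h11 : s * (s : ℝ) ^ (8 * u) ≤ (s : ℝ) ^ (16 * u - 6) := by
    rw [← pow_succ']
    exact pow_le_pow_right₀ hs1' (by omega)
  have h12 : 2 * B * Gg.card ≤ 2 * (s * Gg.card) := by
    have := mul_le_mul_of_nonneg_right hBs (Nat.cast_nonneg (α := ℝ) Gg.card)
    linarith
  have h13 : s * (s : ℝ) ^ (8 * u) ≤ s * Gg.card := by linarith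
  exact le_of_mul_le_mul_left h13 hs0

end Pool.Agent.H92.R
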