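import Pool.Agent.H92.G.RemP
import Pool.Agent.H92.G.SvP
import Pool.Graph.R_seed8.H312R2.RG.V1

set_option autoImplicit false

/-! The weights `1 * χ` in the classes of the sieving primes and of the colours. -/

open Finset Filter Topology

namespace Pool.Agent.H92.R

open Pool.Agent.H92.G
open Pool.Agent.H256R2.SC (Col emb colr Lv emb_mem emb_surj colr_eq qq EE ind wt nu nu1 supp mem_supp)

variable {f : ℕ} {χ : ℕ → ℝ}

/-- the weights in a combination of classes -/
theorem apT (h : Chr f χ) {L : ℝ} (hL : Tends χ L) {a b : ℕ} (ha : 0 < a)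
    (hfa : f ∣ a) (hab : a.Coprime b) (hba : b ≤ a) (hχb : χ b = 1) (ZW T : Finset ℕ)
    (hZW : ∀ p ∈ ZW, p.Prime) (hTp : ∀ p ∈ T, p.Prime) (hdT : Disjoint ZW T)
    (Rt : ℕ → Finset ℕ) (hRt : ∀ p ∈ T, (Rt p).card ≤ 1 ∧ ∀ c ∈ Rt p, c < p) (ν N : ℕ)
    (hν : ∀ p ∈ ZW, ¬ p ∣ a * ν + b) :
    |∑ n ∈ (Icc 1 N).filter (fun n => n ≡ ν [MOD ∏ p ∈ ZW, p] ∧ ∀ p ∈ T, n % p ∈ Rt p), lam χ (a * n + b) -
      2 * ((N : ℝ) / (∏ p ∈ ZW, p : ℕ)) * (L * ∏ p ∈ ZW ∪ a.primeFactors, (1 - χ p / p)) *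
        ∏ p ∈ T, gg χ a b Rt p| ≤ 17 * (a : ℝ) ^ 2 * ((Nat.sqrt (a * N + b) : ℝ) + 1) := by
  classical
  obtain ⟨W, hW⟩ : ∃ W : ℕ, W = ∏ p ∈ ZW, p := ⟨_, rfl⟩
  obtain ⟨E, hE⟩ : ∃ E : ℝ, E = 17 * (a : ℝ) ^ 2 * ((Nat.sqrt (a * N + b) : ℝ) + 1) := ⟨_, rfl⟩
  have hE0 : 0 ≤ E := by rw [hE]; positivity
  rw [← hE]
  have hWp : ∀ p ∈ T, ¬ p ∣ W := by
    intro p hp hdv
    rw [hW] at hdv
    have h1 := pf_prod_mem hZW (hTp p hp) hdv
    exact Finset.disjoint_left.1 hdT h1 hp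
  by_cases hem : ∃ p ∈ T, Rt p = ∅
  · obtain ⟨p, hp, hpe⟩ := hem
    have h1 : (Icc 1 N).filter (fun n => n ≡ ν [MOD ∏ p ∈ ZW, p] ∧ ∀ p ∈ T, n % p ∈ Rt p) = ∅ := by
      rw [filter_eq_empty_iff]
      rintro n _ ⟨_, h2⟩
      have := h2 p hp
      rw [hpe] at this
      exact absurd this (notMem_empty _)
    have h2 : ∏ p ∈ T, gg χ a b Rt p = 0 := by
      apply prod_eq_zero hp
      unfold gg
      rw [hpe, sum_empty]
    rw [h1, sum_empty, h2, mul_zero, sub_zero, abs_zero]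
    exact hE0
  · push Not at hem
    have hone : ∀ p ∈ T, ∃ c, Rt p = {c} := by
      intro p hp
      have h1 : (Rt p).card = 1 := by
        have h2 := (hRt p hp).1
        have h3 : 0 < (Rt p).card := card_pos.2 (hem p hp)
        omega
      exact card_eq_one.1 h1
    choose! c hc using hone
    obtain ⟨γ, hγ⟩ := Pool.Agent.H92.F.crt W ν c T (fun p hp => ⟨hTp p hp, hWp p hp⟩)
      (fun p hp => (hRt p hp).2 _ (by rw [hc p hp]; exact mem_singleton_self _))
    have hγ1 := (hγ γ).2 rfl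
    have hZT : ∏ p ∈ ZW ∪ T, p = W * ∏ p ∈ T, p := by
      rw [prod_union hdT, hW]
    have hmain := lam_ap h hL ha hfa hab hba hχb (ZW ∪ T) (fun p hp => by
      rcases mem_union.1 hp with h1 | h1
      · exact hZW p h1
      · exact hTp p h1) γ N
    have hν' : ∀ p ∈ ZW, ¬ p ∣ a * γ + b := by
      intro p hp hdv
      apply hν p hp
      have h1 : p ∣ W := by rw [hW]; exact dvd_prod_of_mem _ hp
      have h2 : a * γ + b ≡ a * ν + b [MOD p] := ((hγ1.1.of_dvd h1).mul_left a).add_right b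
      exact (h2.dvd_iff dvd_rfl).1 hdv
    rw [main_term ha hab ZW T hdT hTp γ c hν' hγ1.2, hZT, ← hE] at hmain
    have e1 : (Icc 1 N).filter (fun n => n ≡ ν [MOD ∏ p ∈ ZW, p] ∧ ∀ p ∈ T, n % p ∈ Rt p) =
        (Icc 1 N).filter (fun n => n ≡ γ [MOD W * ∏ p ∈ T, p]) := by
      apply filter_congr
      intro n _
      rw [← hγ n, ← hW]
      constructor
      · rintro ⟨h1, h2⟩
        refine ⟨h1, fun p hp => ?_⟩
        have := h2 p hp
        rw [hc p hp, mem_singleton] at this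
        exact this
      · rintro ⟨h1, h2⟩
        refine ⟨h1, fun p hp => ?_⟩
        rw [hc p hp, mem_singleton]
        exact h2 p hp
    have e2 : ∏ p ∈ T, gg χ a b Rt p = ∏ p ∈ T, (ep χ a b p (c p) / p) := by
      apply prod_congr rfl
      intro p hp
      unfold gg
      rw [hc p hp, sum_singleton]
    rw [e1, e2]
    refine le_trans (le_of_eq ?_) hmain
    congr 2
    rw [← hW, prod_div_distrib]
    push_cast
    have hW0 : (W : ℝ) ≠ 0 := by
      have : 0 < W := by rw [hW]; exact prod_pos fun p hp => (hZW p hp).pos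
      exact_mod_cast this.ne'
    have hT0 : (∏ p ∈ T, (p : ℝ)) ≠ 0 := by
      apply prod_ne_zero_iff.2
      intro p hp
      exact_mod_cast (hTp p hp).ne_zero
    field_simp

/-- the density of a colour -/
noncomputable def gL (χ : ℕ → ℝ) (p : ℕ) : ℝ := (1 - χ p / p) / p

section
variable {κ : Type} [Fintype κ] [DecidableEq κ]

open Classical in
/-- the classes of the colours of `D` -/
noncomputable def RtD (PP : Finset ℕ) (res : ℕ → κ → ℤ) (D : Col PP.card κ) (p : ℕ) : Finset ℕ :=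
  (range p).filter (fun c => ∃ i k, emb PP i = p ∧ D i = some k ∧ (p : ℤ) ∣ (c : ℤ) - res p k)

theorem mem_RtD {PP : Finset ℕ} {res : ℕ → κ → ℤ} {D : Col PP.card κ} {i : Fin PP.card} {k : κ} (hik : D i = some k)
    {c : ℕ} : c ∈ RtD PP res D (emb PP i) ↔ c < emb PP i ∧ ((emb PP i : ℕ) : ℤ) ∣ (c : ℤ) - res (emb PP i) k := by
  classical
  unfold RtD
  rw [mem_filter, mem_range]
  constructor
  · rintro ⟨h1, i', k', h2, h3, h4⟩
    have h5 : i' = i := (emb PP).injective h2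
    rw [h5, hik] at h3
    have h6 : k = k' := Option.some.inj h3
    rw [← h6] at h4
    exact ⟨h1, h4⟩
  · rintro ⟨h1, h2⟩
    exact ⟨h1, i, k, rfl, hik, h2⟩

theorem RtD_single {PP : Finset ℕ} (hP : ∀ p ∈ PP, p.Prime) {res : ℕ → κ → ℤ} {D : Col PP.card κ} {i : Fin PP.card}
    {k : κ} (hik : D i = some k) : ∃ c, c < emb PP i ∧ ((emb PP i : ℕ) : ℤ) ∣ (c : ℤ) - res (emb PP i) k ∧
      RtD PP res D (emb PP i) = {c} := by
  classical
  have hp := (hP _ (emb_mem PP i)).pos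
  obtain ⟨p, hpd⟩ : ∃ p, p = emb PP i := ⟨_, rfl⟩
  rw [← hpd] at hp
  have hp' : ((p : ℕ) : ℤ) ≠ 0 := by exact_mod_cast hp.ne'
  obtain ⟨c, hc⟩ : ∃ c : ℕ, c = (res p k % (p : ℤ)).toNat := ⟨_, rfl⟩
  have hc' : (c : ℤ) = res p k % (p : ℤ) := by
    rw [hc]
    exact Int.toNat_of_nonneg (Int.emod_nonneg _ hp')
  have hcp : c < p := by
    have : (c : ℤ) < p := by
      rw [hc']
      exact Int.emod_lt_of_pos _ (by exact_mod_cast hp)
    exact_mod_cast this
  have hcd : (p : ℤ) ∣ (c : ℤ) - res p k := by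
    rw [hc', ← dvd_neg, neg_sub]
    exact Int.dvd_self_sub_emod
  refine ⟨c, by rw [← hpd]; exact hcp, by rw [← hpd]; exact hcd, ?_⟩
  ext c'
  rw [mem_RtD hik, mem_singleton, ← hpd]
  constructor
  · rintro ⟨h1, h2⟩
    have h3 := dvd_sub h2 hcd
    have h4 : (c' : ℤ) - res p k - ((c : ℤ) - res p k) = (c' : ℤ) - c := by ring
    rw [h4] at h3
    have h5 : (c' : ℤ) - c = 0 := by
      apply Int.eq_zero_of_abs_lt_dvd h3
      rw [abs_lt]
      constructor <;> omega
    omega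
  · rintro rfl
    exact ⟨hcp, hcd⟩

theorem nu_supp {PP : Finset ℕ} (g : Fin PP.card → ℝ) (D : Col PP.card κ) : nu g D = ∏ i ∈ supp D, g i := by
  unfold Pool.Agent.H256R2.SC.nu
  exact Pool.Agent.H256R2.SC.prod_nu1 _ _

/-- the weights in a combination of classes and of colours -/
theorem apD (h : Chr f χ) {L : ℝ} (hL : Tends χ L) {a b : ℕ} (ha : 0 < a)
    (hfa : f ∣ a) (hab : a.Coprime b) (hba : b ≤ a) (hχb : χ b = 1) (ZW T : Finset ℕ)
    (hZW : ∀ p ∈ ZW, p.Prime) (hTp : ∀ p ∈ T, p.Prime) (hdT : Disjoint ZW T)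
    (Rt : ℕ → Finset ℕ) (hRt : ∀ p ∈ T, (Rt p).card ≤ 1 ∧ ∀ c ∈ Rt p, c < p ∧ p ∣ a * c + b) (ν N : ℕ)
    (hν : ∀ p ∈ ZW, ¬ p ∣ a * ν + b) (PP : Finset ℕ) (hP : ∀ p ∈ PP, p.Prime ∧ ¬ p ∣ a) (hdP : Disjoint ZW PP)
    (res : ℕ → κ → ℤ) (hinj : ∀ p ∈ PP, ∀ k l, k ≠ l → ¬ ((p : ℤ) ∣ res p k - res p l))
    (hroot : ∀ p ∈ PP, ∀ k, ¬ ((p : ℤ) ∣ a * res p k + b)) (D : Col PP.card κ) :
    |∑ n ∈ (Icc 1 N).filter (fun n => n ≡ ν [MOD ∏ p ∈ ZW, p] ∧ ∀ p ∈ T, n % p ∈ Rt p),
        lam χ (a * n + b) * ind D (colr PP res (n : ℤ)) -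
      2 * ((N : ℝ) / (∏ p ∈ ZW, p : ℕ)) * (L * ∏ p ∈ ZW ∪ a.primeFactors, (1 - χ p / p)) *
        (∏ p ∈ T, gg χ a b Rt p) *
        ∏ i, (if emb PP i ∈ T then (if D i = none then (1 : ℝ) else 0) else nu1 (gL χ (emb PP i)) (D i))| ≤
      17 * (a : ℝ) ^ 2 * ((Nat.sqrt (a * N + b) : ℝ) + 1) := by
  classical
  have hPP : ∀ p ∈ PP, p.Prime := fun p hp => (hP p hp).1
  by_cases hD : ∀ i, emb PP i ∈ T → D i = none
  · obtain ⟨S, hS⟩ : ∃ S : Finset ℕ, S = (supp D).map (emb PP) := ⟨_, rfl⟩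
    have hmS : ∀ p, p ∈ S ↔ ∃ i, D i ≠ none ∧ emb PP i = p := by
      intro p
      rw [hS, Finset.mem_map]
      constructor
      · rintro ⟨i, h1, h2⟩
        exact ⟨i, mem_supp.1 h1, h2⟩
      · rintro ⟨i, h1, h2⟩
        exact ⟨i, mem_supp.2 h1, h2⟩
    have hST : Disjoint T S := by
      rw [Finset.disjoint_left]
      intro p hp hpS
      obtain ⟨i, h1, h2⟩ := (hmS p).1 hpS
      rw [← h2] at hp
      exact h1 (hD i hp)
    have hSP : ∀ p ∈ S, p ∈ PP := by
      intro p hp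
      obtain ⟨i, _, h2⟩ := (hmS p).1 hp
      rw [← h2]
      exact emb_mem PP i
    obtain ⟨Rt', hRt'⟩ : ∃ Rt' : ℕ → Finset ℕ, Rt' = fun p => if p ∈ T then Rt p else RtD PP res D p := ⟨_, rfl⟩
    have hR1 : ∀ p ∈ T, Rt' p = Rt p := by
      intro p hp
      rw [hRt']
      simp only [if_pos hp]
    have hR2 : ∀ p ∈ S, Rt' p = RtD PP res D p := by
      intro p hp
      rw [hRt']
      simp only [if_neg (fun h => Finset.disjoint_left.1 hST h hp)]
    have key := apT h hL ha hfa hab hba hχb ZW (T ∪ S) hZW (fun p hp => by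
        rcases mem_union.1 hp with h1 | h1
        · exact hTp p h1
        · exact hPP p (hSP p h1)) (by
        rw [Finset.disjoint_union_right]
        exact ⟨hdT, Finset.disjoint_of_subset_right hSP hdP⟩) Rt' (fun p hp => by
        rcases mem_union.1 hp with h1 | h1
        · rw [hR1 p h1]
          exact ⟨(hRt p h1).1, fun c hc => ((hRt p h1).2 c hc).1⟩
        · rw [hR2 p h1]
          obtain ⟨i, h2, h3⟩ := (hmS p).1 h1
          obtain ⟨k, hk⟩ := Option.ne_none_iff_exists'.mp h2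
          obtain ⟨c, h4, h5, h6⟩ := RtD_single hPP (res := res) hk
          rw [← h3, h6, card_singleton]
          refine ⟨le_rfl, fun c' hc' => ?_⟩
          rw [mem_singleton.1 hc']
          exact h4) ν N hν
    have e1 : ∑ n ∈ (Icc 1 N).filter (fun n => n ≡ ν [MOD ∏ p ∈ ZW, p] ∧ ∀ p ∈ T, n % p ∈ Rt p),
        lam χ (a * n + b) * ind D (colr PP res (n : ℤ)) =
        ∑ n ∈ (Icc 1 N).filter (fun n => n ≡ ν [MOD ∏ p ∈ ZW, p] ∧ ∀ p ∈ T ∪ S, n % p ∈ Rt' p), lam χ (a * n + b) := by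
      rw [sum_filter, sum_filter]
      apply sum_congr rfl
      intro n _
      have h1 : (∀ p ∈ T ∪ S, n % p ∈ Rt' p) ↔ (∀ p ∈ T, n % p ∈ Rt p) ∧
          (∀ i, D i ≠ none → colr PP res (n : ℤ) i = D i) := by
        constructor
        · intro h1
          refine ⟨fun p hp => ?_, fun i hi => ?_⟩
          · have := h1 p (mem_union_left _ hp)
            rwa [hR1 p hp] at this
          · have hiS : emb PP i ∈ S := (hmS _).2 ⟨i, hi, rfl⟩
            have h2 := h1 _ (mem_union_right _ hiS)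
            rw [hR2 _ hiS] at h2
            obtain ⟨k, hk⟩ := Option.ne_none_iff_exists'.mp hi
            rw [mem_RtD hk] at h2
            rw [hk, colr_eq hinj]
            have h3 : ((emb PP i : ℕ) : ℤ) ∣ (n : ℤ) - ((n % emb PP i : ℕ) : ℤ) := by
              rw [Int.natCast_mod]
              exact Int.dvd_self_sub_emod
            have h4 := dvd_add h3 h2.2
            have h5 : (n : ℤ) - ((n % emb PP i : ℕ) : ℤ) + (((n % emb PP i : ℕ) : ℤ) - res (emb PP i) k) =
              (n : ℤ) - res (emb PP i) k := by ring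
            rwa [h5] at h4
        · rintro ⟨h1, h2⟩ p hp
          by_cases hpT : p ∈ T
          · rw [hR1 p hpT]
            exact h1 p hpT
          · have hpS : p ∈ S := by
              rcases mem_union.1 hp with h3 | h3
              · exact absurd h3 hpT
              · exact h3
            rw [hR2 p hpS]
            obtain ⟨i, hi, h3⟩ := (hmS p).1 hpS
            obtain ⟨k, hk⟩ := Option.ne_none_iff_exists'.mp hi
            have h4 := h2 i hi
            rw [hk, colr_eq hinj] at h4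
            rw [← h3, mem_RtD hk]
            refine ⟨Nat.mod_lt _ (hPP _ (emb_mem PP i)).pos, ?_⟩
            have h5 : ((emb PP i : ℕ) : ℤ) ∣ (n : ℤ) - ((n % emb PP i : ℕ) : ℤ) := by
              rw [Int.natCast_mod]
              exact Int.dvd_self_sub_emod
            have h6 := dvd_sub h4 h5
            have h7 : (n : ℤ) - res (emb PP i) k - ((n : ℤ) - ((n % emb PP i : ℕ) : ℤ)) =
              ((n % emb PP i : ℕ) : ℤ) - res (emb PP i) k := by ring
            rwa [h7] at h6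
      unfold Pool.Agent.H256R2.SC.ind
      by_cases h2 : n ≡ ν [MOD ∏ p ∈ ZW, p]
      · by_cases h3 : ∀ p ∈ T, n % p ∈ Rt p
        · by_cases h4 : ∀ i, D i ≠ none → colr PP res (n : ℤ) i = D i
          · rw [if_pos ⟨h2, h3⟩, if_pos h4, if_pos ⟨h2, h1.2 ⟨h3, h4⟩⟩, mul_one]
          · rw [if_pos ⟨h2, h3⟩, if_neg h4, if_neg (fun h5 => h4 (h1.1 h5.2).2), mul_zero]
        · rw [if_neg (fun h5 => h3 h5.2), if_neg (fun h5 => h3 (h1.1 h5.2).1)]
      · rw [if_neg (fun h5 => h2 h5.1), if_neg (fun h5 => h2 h5.1)]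
    have e2 : ∏ p ∈ T ∪ S, gg χ a b Rt' p = (∏ p ∈ T, gg χ a b Rt p) *
        ∏ i, (if emb PP i ∈ T then (if D i = none then (1 : ℝ) else 0) else nu1 (gL χ (emb PP i)) (D i)) := by
      rw [prod_union hST]
      congr 1
      · apply prod_congr rfl
        intro p hp
        unfold gg
        rw [hR1 p hp]
      · have h1 : ∏ i, (if emb PP i ∈ T then (if D i = none then (1 : ℝ) else 0) else nu1 (gL χ (emb PP i)) (D i)) =
            ∏ i, nu1 (gL χ (emb PP i)) (D i) := by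
          apply prod_congr rfl
          intro i _
          split_ifs with h2 h3
          · rw [h3]; rfl
          · exact absurd (hD i h2) h3
          · rfl
        rw [h1, Pool.Agent.H256R2.SC.prod_nu1, hS, prod_map]
        apply prod_congr rfl
        intro i hi
        have hi' := mem_supp.1 hi
        obtain ⟨k, hk⟩ := Option.ne_none_iff_exists'.mp hi'
        obtain ⟨c, h4, h5, h6⟩ := RtD_single hPP (res := res) hk
        have hiS : emb PP i ∈ S := (hmS _).2 ⟨i, hi', rfl⟩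
        unfold gg gL
        rw [hR2 _ hiS, h6, sum_singleton]
        congr 1
        unfold ep
        rw [if_neg (hP _ (emb_mem PP i)).2]
        have h7 : ¬ (emb PP i : ℕ) ∣ a * c + b := by
          intro h8
          apply hroot _ (emb_mem PP i) k
          have h9 : ((emb PP i : ℕ) : ℤ) ∣ (a : ℤ) * c + b := by exact_mod_cast h8
          have h10 := dvd_sub h9 (h5.mul_left (a : ℤ))
          have h11 : (a : ℤ) * c + b - (a : ℤ) * ((c : ℤ) - res (emb PP i) k) = a * res (emb PP i) k + b := by ring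
          rwa [h11] at h10
        unfold cc
        rw [if_neg h7]
        ring
    rw [e1]
    rw [e2] at key
    refine le_trans (le_of_eq ?_) key
    congr 1
    ring
  · push Not at hD
    obtain ⟨i, hiT, hi⟩ := hD
    obtain ⟨k, hk⟩ := Option.ne_none_iff_exists'.mp hi
    have h1 : ∑ n ∈ (Icc 1 N).filter (fun n => n ≡ ν [MOD ∏ p ∈ ZW, p] ∧ ∀ p ∈ T, n % p ∈ Rt p),
        lam χ (a * n + b) * ind D (colr PP res (n : ℤ)) = 0 := by
      apply sum_eq_zero
      intro n hn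
      rw [mem_filter] at hn
      unfold Pool.Agent.H256R2.SC.ind
      rw [if_neg, mul_zero]
      intro h2
      have h3 := h2 i hi
      rw [hk, colr_eq hinj] at h3
      have h4 := ((hRt _ hiT).2 _ (hn.2.2 _ hiT)).2
      apply hroot _ (emb_mem PP i) k
      have h5 : (emb PP i : ℕ) ∣ a * n + b := by
        have h6 : a * (n % emb PP i) + b ≡ a * n + b [MOD emb PP i] := ((Nat.mod_modEq n _).mul_left a).add_right b
        exact (h6.dvd_iff dvd_rfl).1 h4
      have h6 : ((emb PP i : ℕ) : ℤ) ∣ (a : ℤ) * n + b := by exact_mod_cast h5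
      have h7 := dvd_sub h6 (h3.mul_left (a : ℤ))
      have h8 : (a : ℤ) * n + b - (a : ℤ) * ((n : ℤ) - res (emb PP i) k) = a * res (emb PP i) k + b := by ring
      rwa [h8] at h7
    have h2 : ∏ i, (if emb PP i ∈ T then (if D i = none then (1 : ℝ) else 0) else nu1 (gL χ (emb PP i)) (D i)) = 0 := by
      apply prod_eq_zero (mem_univ i)
      rw [if_pos hiT, if_neg hi]
    rw [h1, h2, mul_zero, sub_zero, abs_zero]
    positivity

end

end Pool.Agent.H92.R
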