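import Pool.Agent.H92.R.SvA
import Pool.Agent.H92.R.FLM

set_option autoImplicit false
set_option maxHeartbeats 4000000

/-! The weighted sieve with a function of the colouring. -/

open Finset Filter Topology

namespace Pool.Agent.H92.R

open Pool.Agent.H92.G
open Pool.Agent.H312R2.RG (gQ gP pP)
open Pool.Agent.H256R2.SC (Col emb colr Lv emb_mem emb_surj colr_eq qq EE ind wt nu nu1 supp mem_supp ind_eq_prod)

variable {f : ℕ} {χ : ℕ → ℝ}

/-- the fundamental lemma for mixtures with a given constant -/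
def FLMC (C : ℕ) : Prop := ∀ (κ b J z0 : ℕ) (P : Finset ℕ) (ι : Type) [Fintype ι] (g : ι → ℕ → ℝ),
  C * (κ + 1) ≤ b → C * (κ + 1) ≤ z0 → (∀ p ∈ P, p.Prime ∧ z0 < p ∧ p ≤ 2 ^ 2 ^ J) →
  (∀ x, ∀ p ∈ P, 0 ≤ g x p ∧ g x p ≤ κ / ((p : ℝ) - 1)) →
  ∀ (S : Finset ℕ) (w : ℕ → ℝ) (Rt : ℕ → Finset ℕ) (A : ι → ℝ) (err : Finset ℕ → ℝ),
    (∀ m ∈ S, 0 ≤ w m) → (∀ x, 0 ≤ A x) →
    (∀ T ⊆ P, ∏ p ∈ T, p ≤ (2 ^ 2 ^ J) ^ (C * b) →
      |∑ m ∈ S.filter (fun m => ∀ p ∈ T, m % p ∈ Rt p), w m - ∑ x, A x * ∏ p ∈ T, g x p| ≤ err T) →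
    |∑ m ∈ S.filter (fun m => ∀ p ∈ P, m % p ∉ Rt p), w m - ∑ x, A x * ∏ p ∈ P, (1 - g x p)| ≤
      (1 / 2 : ℝ) ^ b * (∑ x, A x * ∏ p ∈ P, (1 - g x p)) +
        ((J : ℝ) + 2) *
          ∑ T ∈ P.powerset.filter (fun T : Finset ℕ => ∏ p ∈ T, p ≤ (2 ^ 2 ^ J) ^ (C * b)),
            err T

theorem flmc : ∃ C : ℕ, 1 ≤ C ∧ FLMC C := by
  obtain ⟨C, hC, H⟩ := fLemM
  refine ⟨C, hC, ?_⟩
  intro κ b J z0 P ι _ g h1 h2 h3 h4 S w Rt A err h5 h6 h7
  have := H κ b J z0 P ι g h1 h2 h3 h4 S w (fun p m => m % p ∈ Rt p) A err h5 h6 (by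
    intro T hT hTl
    refine le_trans (le_of_eq ?_) (h7 T hT hTl)
    congr!)
  refine le_trans (le_of_eq ?_) this
  congr!

theorem prod_embT (PP T : Finset ℕ) (u : ℕ → ℝ) (h : ∀ p ∈ T, p ∉ PP → u p = 1) :
    ∏ p ∈ T, u p = ∏ i : Fin PP.card, (if emb PP i ∈ T then u (emb PP i) else 1) := by
  classical
  rw [← prod_filter]
  have h1 : ∏ i ∈ (univ : Finset (Fin PP.card)).filter (fun i => emb PP i ∈ T), u (emb PP i) =
      ∏ p ∈ ((univ : Finset (Fin PP.card)).filter (fun i => emb PP i ∈ T)).map (emb PP), u p := by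
    rw [prod_map]
  rw [h1]
  symm
  apply prod_subset
  · intro p hp
    rw [Finset.mem_map] at hp
    obtain ⟨i, h2, h3⟩ := hp
    rw [← h3]
    exact (mem_filter.1 h2).2
  · intro p hp hpn
    apply h p hp
    intro h2
    apply hpn
    obtain ⟨i, hi⟩ := emb_surj PP h2
    rw [Finset.mem_map]
    exact ⟨i, mem_filter.2 ⟨mem_univ _, by rw [hi]; exact hp⟩, hi⟩

section
variable {κ : Type} [Fintype κ] [DecidableEq κ]

open Classical in
/-- the colour of a prime -/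
noncomputable def cp (PP : Finset ℕ) (x : Col PP.card κ) (p : ℕ) : Option κ :=
  if h : ∃ i, emb PP i = p then x h.choose else none

omit [Fintype κ] [DecidableEq κ] in
theorem cp_emb (PP : Finset ℕ) (x : Col PP.card κ) (i : Fin PP.card) : cp PP x (emb PP i) = x i := by
  unfold cp
  have h : ∃ j, emb PP j = emb PP i := ⟨i, rfl⟩
  rw [dif_pos h]
  congr 1
  exact (emb PP).injective h.choose_spec

open Classical in
/-- the density at the colouring `x` -/
noncomputable def gx (χ : ℕ → ℝ) (a b : ℕ) (Rt : ℕ → Finset ℕ) (PP : Finset ℕ) (x : Col PP.card κ) (p : ℕ) : ℝ :=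
  if p ∈ PP then (if cp PP x p = none then gg χ a b Rt p / (1 - Fintype.card κ * gL χ p) else 0) else gg χ a b Rt p

open Classical in
/-- the mixture: the main terms -/
theorem mixT (a b : ℕ) (Rt : ℕ → Finset ℕ) (PP T : Finset ℕ) (D : Col PP.card κ)
    (h1 : ∀ i, (1 : ℝ) - Fintype.card κ * gL χ (emb PP i) ≠ 0) :
    ∑ x : Col PP.card κ, ((∏ i, wt (gL χ (emb PP i)) (x i)) * ind D x) * ∏ p ∈ T, gx χ a b Rt PP x p =
      (∏ p ∈ T, gg χ a b Rt p) *
        ∏ i, (if emb PP i ∈ T then (if D i = none then (1 : ℝ) else 0) else nu1 (gL χ (emb PP i)) (D i)) := by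
  have h2 : ∀ x : Col PP.card κ, ∏ p ∈ T, gx χ a b Rt PP x p = (∏ p ∈ T, gg χ a b Rt p) *
      ∏ i : Fin PP.card, (if emb PP i ∈ T then
        (if x i = none then 1 / ((1 : ℝ) - Fintype.card κ * gL χ (emb PP i)) else 0) else 1) := by
    intro x
    have h3 := prod_embT PP T (fun p => if p ∈ PP then (if cp PP x p = none then
      1 / ((1 : ℝ) - Fintype.card κ * gL χ p) else 0) else 1) (by
        intro p _ hp
        simp only [if_neg hp])
    have h4 : ∏ i : Fin PP.card, (if emb PP i ∈ T then (fun p => if p ∈ PP then (if cp PP x p = none then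
      1 / ((1 : ℝ) - Fintype.card κ * gL χ p) else 0) else 1) (emb PP i) else 1) =
      ∏ i : Fin PP.card, (if emb PP i ∈ T then
        (if x i = none then 1 / ((1 : ℝ) - Fintype.card κ * gL χ (emb PP i)) else 0) else 1) := by
      apply prod_congr rfl
      intro i _
      simp only [if_pos (emb_mem PP i), cp_emb]
    rw [← h4, ← h3, ← prod_mul_distrib]
    apply prod_congr rfl
    intro p _
    unfold gx
    by_cases h5 : p ∈ PP
    · simp only [if_pos h5]
      split_ifs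
      · ring
      · ring
    · simp only [if_neg h5, mul_one]
  have h3 : ∀ x : Col PP.card κ, ((∏ i, wt (gL χ (emb PP i)) (x i)) * ind D x) * ∏ p ∈ T, gx χ a b Rt PP x p =
      (∏ p ∈ T, gg χ a b Rt p) * ∏ i : Fin PP.card, (wt (gL χ (emb PP i)) (x i) *
        (if D i ≠ none → x i = D i then (1 : ℝ) else 0) * (if emb PP i ∈ T then
        (if x i = none then 1 / ((1 : ℝ) - Fintype.card κ * gL χ (emb PP i)) else 0) else 1)) := by
    intro x
    rw [h2, ind_eq_prod, prod_mul_distrib, prod_mul_distrib]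
    ring
  rw [sum_congr rfl (fun x _ => h3 x), ← mul_sum]
  congr 1
  have h4 := Finset.prod_univ_sum (fun _ : Fin PP.card => (Finset.univ : Finset (Option κ)))
    (fun i c => wt (gL χ (emb PP i)) c * (if D i ≠ none → c = D i then (1 : ℝ) else 0) * (if emb PP i ∈ T then
        (if c = none then 1 / ((1 : ℝ) - Fintype.card κ * gL χ (emb PP i)) else 0) else 1))
  rw [Fintype.piFinset_univ] at h4
  rw [← h4]
  apply prod_congr rfl
  intro i _
  by_cases h5 : emb PP i ∈ T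
  · simp only [if_pos h5]
    rcases h6 : D i with _ | k
    · rw [Fintype.sum_option]
      have h7 := h1 i
      simp [wt]
      exact mul_inv_cancel₀ h7
    · rw [Fintype.sum_option]
      simp [wt]
  · simp only [if_neg h5, mul_one]
    exact Pool.Agent.H256R2.SC.sum_wt_ind1 _ _

theorem gL_bd (h : Chr f χ) {p : ℕ} (hp : 2 ≤ p) : 0 ≤ gL χ p ∧ gL χ p ≤ 2 / p := by
  have hp2 : (2 : ℝ) ≤ p := by exact_mod_cast hp
  have h2 := abs_le.1 (h.abs_le p)
  have h3 : |χ p / p| ≤ 1 := by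
    rw [abs_div, abs_of_pos (show (0 : ℝ) < p by linarith), div_le_one (by linarith)]
    exact (h.abs_le p).trans (by linarith)
  have h4 := abs_le.1 h3
  unfold gL
  constructor
  · exact div_nonneg (by linarith) (by linarith)
  · exact div_le_div_of_nonneg_right (by linarith) (by linarith)

theorem gg_one {a b : ℕ} {Rt : ℕ → Finset ℕ} {p : ℕ} (hp : p.Prime) (ha : ¬ p ∣ a) (h1 : (Rt p).card = 1)
    (h2 : ∀ c ∈ Rt p, p ∣ a * c + b) : gg χ a b Rt p = 1 - (1 - 1 / (p : ℝ)) * (1 - χ p / p) := by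
  obtain ⟨c, hc⟩ := card_eq_one.1 h1
  have h3 := h2 c (by rw [hc]; exact mem_singleton_self _)
  have hp0 : (p : ℝ) ≠ 0 := by exact_mod_cast hp.ne_zero
  unfold gg
  rw [hc, sum_singleton]
  unfold ep cc
  rw [if_neg ha, if_pos h3]
  field_simp
  ring

/-- the weighted sieve with a function of the colouring -/
theorem svV {C : ℕ} (hF : FLMC C) (h : Chr f χ) {L : ℝ} (hL : Tends χ L) (hL0 : 0 ≤ L) {a b : ℕ} (ha : 0 < a)
    (hfa : f ∣ a) (hab : a.Coprime b) (hba : b ≤ a) (hχb : χ b = 1) (bb J z0 : ℕ) (ZW P : Finset ℕ)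
    (hZW : ∀ p ∈ ZW, p.Prime) (hP : ∀ p ∈ P, p.Prime ∧ z0 < p ∧ p ≤ 2 ^ 2 ^ J) (hd : Disjoint ZW P)
    (Rt : ℕ → Finset ℕ) (hRt : ∀ p ∈ P, (Rt p).card ≤ 1 ∧ ∀ c ∈ Rt p, c < p ∧ p ∣ a * c + b)
    (hbb : C * 5 ≤ bb) (hz0 : C * 5 ≤ z0) (ν N : ℕ) (hν : ∀ p ∈ ZW, ¬ p ∣ a * ν + b)
    (PP : Finset ℕ) (hPP : PP ⊆ P) (hPa : ∀ p ∈ PP, ¬ p ∣ a) (hRt1 : ∀ p ∈ PP, (Rt p).card = 1)
    (hu : ∀ p ∈ PP, (Fintype.card κ : ℝ) * (4 / p) ≤ 1)
    (res : ℕ → κ → ℤ) (hinj : ∀ p ∈ PP, ∀ k l, k ≠ l → ¬ ((p : ℤ) ∣ res p k - res p l))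
    (hroot : ∀ p ∈ PP, ∀ k, ¬ ((p : ℤ) ∣ a * res p k + b)) (V : Col PP.card κ → ℝ) (hV0 : ∀ x, 0 ≤ V x)
    (Q B : ℝ) (hV : Lv (pP PP) Q B V) :
    |∑ n ∈ GS (∏ p ∈ ZW, p) ν N P Rt, lam χ (a * n + b) * V (colr PP res (n : ℤ)) -
      2 * ((N : ℝ) / (∏ p ∈ ZW, p : ℕ)) * (L * ∏ p ∈ ZW ∪ a.primeFactors, (1 - χ p / p)) *
        (∏ p ∈ P, (1 - gg χ a b Rt p)) * EE (gQ PP) V| ≤
      (1 / 2 : ℝ) ^ bb * (2 * ((N : ℝ) / (∏ p ∈ ZW, p : ℕ)) * (L * ∏ p ∈ ZW ∪ a.primeFactors, (1 - χ p / p)) *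
        (∏ p ∈ P, (1 - gg χ a b Rt p)) * EE (gQ PP) V) +
      ((J : ℝ) + 2) * ((((2 ^ 2 ^ J) ^ (C * bb) : ℕ) : ℝ) * (((2 ^ 2 ^ J) ^ (C * bb) : ℕ) : ℝ) *
        (B * (17 * (a : ℝ) ^ 2 * ((Nat.sqrt (a * N + b) : ℝ) + 1)))) := by
  classical
  obtain ⟨fD, hf1, hf2, hf3⟩ := hV
  obtain ⟨W, hW⟩ : ∃ W : ℕ, W = ∏ p ∈ ZW, p := ⟨_, rfl⟩
  obtain ⟨E, hE⟩ : ∃ E : ℝ, E = 17 * (a : ℝ) ^ 2 * ((Nat.sqrt (a * N + b) : ℝ) + 1) := ⟨_, rfl⟩
  have hE0 : 0 ≤ E := by rw [hE]; positivity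
  obtain ⟨A, hA⟩ : ∃ A : ℝ, A = 2 * ((N : ℝ) / (∏ p ∈ ZW, p : ℕ)) * (L * ∏ p ∈ ZW ∪ a.primeFactors, (1 - χ p / p)) :=
    ⟨_, rfl⟩
  have hPPp : ∀ p ∈ PP, p.Prime := fun p hp => (hP p (hPP hp)).1
  have hfac : ∀ p ∈ ZW ∪ a.primeFactors, 0 ≤ 1 - χ p / p := by
    intro p hp
    have hpp : p.Prime := by
      rcases mem_union.1 hp with h1 | h1
      · exact hZW p h1
      · exact Nat.prime_of_mem_primeFactors h1
    have hp1 : (1 : ℝ) ≤ p := by exact_mod_cast hpp.one_lt.le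
    have h2 := abs_le.1 (h.abs_le p)
    rw [sub_nonneg, div_le_one (by linarith)]
    linarith
  have hA0 : 0 ≤ A := by
    rw [hA]
    apply mul_nonneg (by positivity)
    exact mul_nonneg hL0 (prod_nonneg hfac)
  rw [← hA, ← hE, ← hW]
  have hB0 : 0 ≤ B := le_trans (sum_nonneg fun D _ => abs_nonneg _) hf2
  -- the densities of the colours
  have hgLb : ∀ i, 0 ≤ gL χ (emb PP i) ∧ gL χ (emb PP i) ≤ 2 / ((emb PP i : ℕ) : ℝ) := fun i =>
    gL_bd h (hPPp _ (emb_mem PP i)).two_le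
  have hκ0 : (0 : ℝ) ≤ Fintype.card κ := Nat.cast_nonneg _
  have hhalf : ∀ i, (1 : ℝ) / 2 ≤ 1 - Fintype.card κ * gL χ (emb PP i) := by
    intro i
    have h1 := hu _ (emb_mem PP i)
    have h2 := mul_le_mul_of_nonneg_left (hgLb i).2 hκ0
    have h3 : (Fintype.card κ : ℝ) * (4 / ((emb PP i : ℕ) : ℝ)) =
        2 * ((Fintype.card κ : ℝ) * (2 / ((emb PP i : ℕ) : ℝ))) := by ring
    rw [h3] at h1
    linarith
  have hne : ∀ i, (1 : ℝ) - Fintype.card κ * gL χ (emb PP i) ≠ 0 := fun i => by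
    have := hhalf i
    linarith
  have hwt0 : ∀ i (c : Option κ), 0 ≤ wt (gL χ (emb PP i)) c := by
    intro i c
    unfold Pool.Agent.H256R2.SC.wt
    cases c with
    | none => simp only []; linarith [hhalf i]
    | some k => exact (hgLb i).1
  -- the weights of the mixture
  obtain ⟨Ax, hAx⟩ : ∃ Ax : Col PP.card κ → ℝ, Ax = fun x => A * ((∏ i, wt (gL χ (emb PP i)) (x i)) * V x) := ⟨_, rfl⟩
  have hAx0 : ∀ x, 0 ≤ Ax x := by
    intro x
    rw [hAx]
    exact mul_nonneg hA0 (mul_nonneg (prod_nonneg fun i _ => hwt0 i _) (hV0 x))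
  have hmix : ∀ T : Finset ℕ, ∑ x, Ax x * ∏ p ∈ T, gx χ a b Rt PP x p = ∑ D, fD D * (A * (∏ p ∈ T, gg χ a b Rt p) *
      ∏ i, (if emb PP i ∈ T then (if D i = none then (1 : ℝ) else 0) else nu1 (gL χ (emb PP i)) (D i))) := by
    intro T
    have h1 : ∀ x, Ax x * ∏ p ∈ T, gx χ a b Rt PP x p = ∑ D, fD D * (A * (((∏ i, wt (gL χ (emb PP i)) (x i)) * ind D x) *
        ∏ p ∈ T, gx χ a b Rt PP x p)) := by
      intro x
      rw [hAx]
      simp only []
      rw [hf1 x, mul_sum, mul_sum, sum_mul]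
      apply sum_congr rfl
      intro D _
      ring
    rw [sum_congr rfl (fun x _ => h1 x), sum_comm]
    apply sum_congr rfl
    intro D _
    rw [← mul_sum, ← mul_sum, mixT a b Rt PP T D hne]
    ring
  have hgx : ∀ (x : Col PP.card κ), ∀ p ∈ P, 0 ≤ gx χ a b Rt PP x p ∧ gx χ a b Rt PP x p ≤ ((4 : ℕ) : ℝ) / ((p : ℝ) - 1) := by
    intro x p hp
    have h1 := gg_bd h a b Rt (hP p hp).1 (hRt p hp).1
    have hp2 : (2 : ℝ) ≤ p := by exact_mod_cast (hP p hp).1.two_le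
    have h2 : (((2 * 1 : ℕ) : ℕ) : ℝ) / ((p : ℝ) - 1) ≤ ((4 : ℕ) : ℝ) / ((p : ℝ) - 1) := by
      apply div_le_div_of_nonneg_right _ (by linarith)
      norm_num
    unfold gx
    split_ifs with h3 h4
    · obtain ⟨i, hi⟩ := emb_surj PP h3
      have h5 := hhalf i
      rw [hi] at h5
      refine ⟨div_nonneg h1.1 (by linarith), ?_⟩
      rw [div_le_iff₀ (by linarith)]
      refine h1.2.trans ?_
      have h6 : ((4 : ℕ) : ℝ) / ((p : ℝ) - 1) = 2 * ((((2 * 1 : ℕ) : ℕ) : ℝ) / ((p : ℝ) - 1)) := by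
        push_cast
        ring
      rw [h6]
      have h7 : 0 ≤ (((2 * 1 : ℕ) : ℕ) : ℝ) / ((p : ℝ) - 1) := div_nonneg (by norm_num) (by linarith)
      nlinarith
    · exact ⟨le_rfl, div_nonneg (by norm_num) (by linarith)⟩
    · exact ⟨h1.1, h1.2.trans h2⟩
  have key := hF 4 bb J z0 P (Col PP.card κ) (fun x p => gx χ a b Rt PP x p) (by linarith) (by linarith) hP hgx
    ((Icc 1 N).filter (fun n => n ≡ ν [MOD W])) (fun n => lam χ (a * n + b) * V (colr PP res (n : ℤ))) Rt Ax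
    (fun _ => B * E) (fun n _ => mul_nonneg (lam_nonneg h _) (hV0 _)) hAx0 ?_
  · -- the main term
    have hfin : ∑ x, Ax x * ∏ p ∈ P, (1 - gx χ a b Rt PP x p) = A * (∏ p ∈ P, (1 - gg χ a b Rt p)) * EE (gQ PP) V := by
      unfold Pool.Agent.H256R2.SC.EE
      rw [mul_sum]
      apply sum_congr rfl
      intro x _
      have h1 : ∏ p ∈ P, (1 - gx χ a b Rt PP x p) = (∏ p ∈ P, (1 - gg χ a b Rt p)) *
          ∏ p ∈ P, (if p ∈ PP then (1 - gx χ a b Rt PP x p) / (1 - gg χ a b Rt p) else 1) := by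
        rw [← prod_mul_distrib]
        apply prod_congr rfl
        intro p hp
        split_ifs with h2
        · have h3 : 1 - gg χ a b Rt p ≠ 0 := by
            rw [gg_one (hPPp p h2) (hPa p h2) (hRt1 p h2) (fun c hc => ((hRt p hp).2 c hc).2)]
            have hp2 : (2 : ℝ) ≤ p := by exact_mod_cast (hPPp p h2).two_le
            have h4 := abs_le.1 (h.abs_le p)
            have h5 : 0 < 1 - 1 / (p : ℝ) := by
              rw [sub_pos, div_lt_one (by linarith)]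
              linarith
            have h6 : 0 < 1 - χ p / (p : ℝ) := by
              rw [sub_pos, div_lt_one (by linarith)]
              linarith
            have h7 := mul_pos h5 h6
            linarith
          rw [mul_div_cancel₀]
          exact h3
        · rw [mul_one]
          unfold gx
          rw [if_neg h2]
      have h2 := prod_embT PP P (fun p => if p ∈ PP then (1 - gx χ a b Rt PP x p) / (1 - gg χ a b Rt p) else 1) (by
        intro p _ hp
        simp only [if_neg hp])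
      rw [h1, h2, hAx]
      simp only []
      have h3 : (∏ i, wt (gL χ (emb PP i)) (x i)) * ∏ i : Fin PP.card, (if emb PP i ∈ P then
          (if emb PP i ∈ PP then (1 - gx χ a b Rt PP x (emb PP i)) / (1 - gg χ a b Rt (emb PP i)) else 1) else 1) =
          ∏ i, wt (gQ PP i) (x i) := by
        rw [← prod_mul_distrib]
        apply prod_congr rfl
        intro i _
        have him := emb_mem PP i
        rw [if_pos (hPP him), if_pos him]
        have hp2 : (2 : ℝ) ≤ ((emb PP i : ℕ) : ℝ) := by exact_mod_cast (hPPp _ him).two_le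
        have hgg := gg_one (χ := χ) (hPPp _ him) (hPa _ him) (hRt1 _ him) (fun c hc => ((hRt _ (hPP him)).2 c hc).2)
        have h4 := abs_le.1 (h.abs_le (emb PP i))
        obtain ⟨P0, hP0⟩ : ∃ P0 : ℝ, P0 = ((emb PP i : ℕ) : ℝ) := ⟨_, rfl⟩
        obtain ⟨X0, hX0⟩ : ∃ X0 : ℝ, X0 = χ (emb PP i) := ⟨_, rfl⟩
        have hh := hhalf i
        unfold gx
        rw [if_pos him, cp_emb]
        have hgq : gQ PP i = 1 / (P0 - 1) := by rw [hP0]; rfl
        rw [hgq, hgg]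
        unfold gL at hh ⊢
        rw [← hP0, ← hX0] at hh hgg ⊢
        rw [← hX0] at h4
        rw [← hP0] at hp2
        have hPne : P0 ≠ 0 := by linarith
        have hPne1 : P0 - 1 ≠ 0 := by
          have : 0 < P0 - 1 := by linarith
          exact this.ne'
        have h5 : (1 - 1 / P0) ≠ 0 := by
          have : 0 < 1 - 1 / P0 := by
            rw [sub_pos, div_lt_one (by linarith)]
            linarith
          exact this.ne'
        have h6 : (1 - X0 / P0) ≠ 0 := by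
          have : 0 < 1 - X0 / P0 := by
            rw [sub_pos, div_lt_one (by linarith)]
            linarith
          exact this.ne'
        have h7 : 1 - (1 - (1 - 1 / P0) * (1 - X0 / P0)) = (1 - 1 / P0) * (1 - X0 / P0) := by ring
        rw [h7]
        rcases h8 : x i with _ | k
        · simp only [Pool.Agent.H256R2.SC.wt, if_true]
          have h9 : (1 : ℝ) - Fintype.card κ * ((1 - X0 / P0) / P0) ≠ 0 := by linarith
          have h10 : (1 - Fintype.card κ * ((1 - X0 / P0) / P0)) *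
              ((1 - (1 - (1 - 1 / P0) * (1 - X0 / P0)) / (1 - Fintype.card κ * ((1 - X0 / P0) / P0))) /
                ((1 - 1 / P0) * (1 - X0 / P0))) =
              ((1 - Fintype.card κ * ((1 - X0 / P0) / P0)) - (1 - (1 - 1 / P0) * (1 - X0 / P0))) /
                ((1 - 1 / P0) * (1 - X0 / P0)) := by
            rw [mul_div_assoc', mul_sub, mul_one, mul_div_cancel₀ _ h9]
          rw [h10]
          have h11 : (1 - Fintype.card κ * ((1 - X0 / P0) / P0)) - (1 - (1 - 1 / P0) * (1 - X0 / P0)) =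
              (1 - X0 / P0) * ((1 - 1 / P0) - Fintype.card κ / P0) := by ring
          rw [h11, mul_comm (1 - 1 / P0) (1 - X0 / P0), mul_div_mul_left _ _ h6]
          field_simp
        · have h9 : (some k : Option κ) ≠ none := by simp
          simp only [Pool.Agent.H256R2.SC.wt, if_neg h9]
          rw [sub_zero]
          have hPX : P0 - X0 ≠ 0 := by
            have : 0 < P0 - X0 := by linarith
            exact this.ne'
          field_simp
      rw [← h3]
      ring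
    rw [filter_filter] at key
    rw [hfin] at key
    unfold GS
    refine key.trans ?_
    apply add_le_add le_rfl
    apply mul_le_mul_of_nonneg_left _ (by positivity)
    have h1 := Pool.Agent.H92.F.err_up 1 ((2 ^ 2 ^ J) ^ (C * bb)) P (fun p hp => ⟨(hP p hp).1, by
      have h2 := (hP p hp).1.two_le
      omega⟩)
    calc ∑ T ∈ P.powerset.filter (fun T : Finset ℕ => ∏ p ∈ T, p ≤ (2 ^ 2 ^ J) ^ (C * bb)), B * E =
        (∑ T ∈ P.powerset.filter (fun T : Finset ℕ => ∏ p ∈ T, p ≤ (2 ^ 2 ^ J) ^ (C * bb)),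
          ((1 : ℕ) : ℝ) ^ T.card * 1) * (B * E) := by
          rw [sum_mul]
          apply sum_congr rfl
          intro T _
          simp
      _ ≤ _ := mul_le_mul_of_nonneg_right h1 (mul_nonneg hB0 hE0)
  · intro T hTP _
    rw [hmix T]
    have h1 : ∑ m ∈ ((Icc 1 N).filter (fun n => n ≡ ν [MOD W])).filter (fun m => ∀ p ∈ T, m % p ∈ Rt p),
        lam χ (a * m + b) * V (colr PP res (m : ℤ)) =
        ∑ D, fD D * ∑ m ∈ (Icc 1 N).filter (fun n => n ≡ ν [MOD ∏ p ∈ ZW, p] ∧ ∀ p ∈ T, n % p ∈ Rt p),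
          lam χ (a * m + b) * ind D (colr PP res (m : ℤ)) := by
      rw [filter_filter, hW]
      simp_rw [mul_sum]
      rw [sum_comm]
      apply sum_congr rfl
      intro m _
      rw [hf1, mul_sum]
      apply sum_congr rfl
      intro D _
      ring
    rw [h1, ← sum_sub_distrib]
    refine (abs_sum_le_sum_abs _ _).trans ?_
    calc ∑ D, |fD D * ∑ m ∈ (Icc 1 N).filter (fun n => n ≡ ν [MOD ∏ p ∈ ZW, p] ∧ ∀ p ∈ T, n % p ∈ Rt p),
          lam χ (a * m + b) * ind D (colr PP res (m : ℤ)) - fD D * (A * (∏ p ∈ T, gg χ a b Rt p) *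
            ∏ i, (if emb PP i ∈ T then (if D i = none then (1 : ℝ) else 0) else nu1 (gL χ (emb PP i)) (D i)))| ≤
        ∑ D, |fD D| * E := by
          apply sum_le_sum
          intro D _
          rw [← mul_sub, abs_mul]
          apply mul_le_mul_of_nonneg_left _ (abs_nonneg _)
          have h2 := apD h hL ha hfa hab hba hχb ZW T hZW (fun p hp => (hP p (hTP hp)).1)
            (Finset.disjoint_of_subset_right hTP hd) Rt (fun p hp => hRt p (hTP hp)) ν N hν PP
            (fun p hp => ⟨hPPp p hp, hPa p hp⟩) (Finset.disjoint_of_subset_right hPP hd) res hinj hroot D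
          rw [← hA, ← hE] at h2
          exact h2
      _ = (∑ D, |fD D|) * E := by rw [sum_mul]
      _ ≤ B * E := mul_le_mul_of_nonneg_right hf2 hE0

end

end Pool.Agent.H92.R
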